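import Pool.Agent.Lib.MP_ae5b4e_an_NB4C.LDefs
import Pool.Agent.Lib.MP_ae5b4e_an_NB4.DSA

/-!
# MP_ae5b4e_an, NB_4 part C, module LDeep: the strip near the boundary
-/

noncomputable section

namespace Pool.Agent.MP_ae5b4e_an_NB4C

open Complex Set Filter Topology Metric
open Pool.Agent.MP_ae5b4e_an_NBT (St)
open Pool.Agent.MP_ae5b4e_an_NB4 (DS DS_pos DS_lip DS_le DS_ge)

variable {h : ℝ} {b μ ζ : ℂ}

theorem Dir.norm_sq (hh : 0 < h) (hD : Dir h b μ) : ‖μ‖ ^ 2 = DS h b := by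
  obtain ⟨σ, h1, -, h3⟩ := hD.sq
  have hp := DS_pos hh hD.mem
  rw [← norm_pow, h3, Complex.norm_real, Real.norm_eq_abs, abs_mul, abs_of_pos hp]
  have h4 : |σ| = 1 := by
    rw [← sq_eq_sq₀ (abs_nonneg σ) zero_le_one, sq_abs, h1, one_pow]
  rw [h4, one_mul]

theorem Dir.ne (hh : 0 < h) (hD : Dir h b μ) : μ ≠ 0 := by
  intro h0
  have h1 := hD.norm_sq hh
  rw [h0, norm_zero] at h1
  have := DS_pos hh hD.mem
  norm_num at h1
  linarith

/-- a complex square root (`IsAlgClosed.exists_pow_nat_eq`) of `± DS b` -/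
theorem exists_dir (hb : b ∈ St (-h) h) : ∃ μ : ℂ, Dir h b μ := by
  obtain ⟨σ, h1, h2⟩ : ∃ σ : ℝ, σ ^ 2 = 1 ∧ σ * b.im = |b.im| := by
    rcases le_total 0 b.im with h | h
    · exact ⟨1, by norm_num, by rw [abs_of_nonneg h, one_mul]⟩
    · exact ⟨-1, by norm_num, by rw [abs_of_nonpos h]; ring⟩
  obtain ⟨μ, hμ⟩ := IsAlgClosed.exists_pow_nat_eq ((σ * DS h b : ℝ) : ℂ) (n := 2) two_pos
  exact ⟨μ, hb, σ, h1, h2, hμ⟩

/-- `|ζ| ≤ 1/4`: `|μ² ζ| ≤ D / 4`, so (`ball_sub`, `DS_lip`) the point is in the strip and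
`DS ≥ D - 2 D / 4`. -/
theorem near_win (hh : 0 < h) (hD : Dir h b μ) (hζ : ‖ζ‖ ≤ 1 / 4) :
    b + μ ^ 2 * ζ ∈ St (-h) h ∧ DS h b / 2 ≤ DS h (b + μ ^ 2 * ζ) := by
  have hn := hD.norm_sq hh
  have hp := DS_pos hh hD.mem
  have h1 : ‖μ ^ 2 * ζ‖ ≤ DS h b / 4 := by
    rw [norm_mul, norm_pow, hn]
    nlinarith
  constructor
  · apply Pool.Agent.MP_ae5b4e_an_NB4.ball_sub hh hD.mem
    rw [mem_ball, Complex.dist_eq, add_sub_cancel_left]
    linarith
  · have h2 := DS_lip hh b (b + μ ^ 2 * ζ)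
    rw [sub_add_cancel_left, norm_neg] at h2
    have h3 := le_abs_self (DS h b - DS h (b + μ ^ 2 * ζ))
    linarith

/-- Let `s = h - |Im b|`, `D = DS b`, so `(4/π) s ≤ D ≤ 2 s`; `σ Im (b + σ D ζ) = h - s + D Im ζ` is at
most `h - 2 δ s` and, if `s (1 + 2 R) ≤ h / 2`, at least `h / 2`. So
`DS (b + σ D ζ) ≥ (4/π) 2 δ s ≥ (4/π) δ D ≥ δ D`. -/
theorem deep_win (hh : 0 < h) {δ R : ℝ} (hδ : 0 < δ) (hδ' : δ < 1 / 2) (hR : 0 ≤ R) :
    ∃ s₀ > 0, ∀ b μ : ℂ, Dir h b μ → h - |b.im| < s₀ → ∀ ζ : ℂ, ζ.im ≤ 1 / 2 - δ → ‖ζ‖ ≤ R →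
      b + μ ^ 2 * ζ ∈ St (-h) h ∧ δ * DS h b ≤ DS h (b + μ ^ 2 * ζ) ∧
      h - |(b + μ ^ 2 * ζ).im| = h - |b.im| - DS h b * ζ.im := by
  have hR' : 0 < 1 + 2 * R := by linarith
  refine ⟨h / (2 * (1 + 2 * R)), by positivity, fun b μ hD hs ζ hζ hζR => ?_⟩
  obtain ⟨σ, h1, h2, h3⟩ := hD.sq
  have hp := DS_pos hh hD.mem
  have hle := DS_le hh hD.mem
  have hge := DS_ge hh hD.mem
  have hpi := Real.pi_pos
  have hpi4 := Real.pi_lt_four
  set D := DS h b with hDdef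
  set s := h - |b.im| with hsdef
  have hspos : 0 < s := by linarith
  have him : (b + μ ^ 2 * ζ).im = b.im + σ * D * ζ.im := by
    rw [h3, Complex.add_im, Complex.im_ofReal_mul]
  have hzim : |ζ.im| ≤ R := (Complex.abs_im_le_norm ζ).trans hζR
  have hzim' := (abs_le.1 hzim).1
  -- `σ Im w`
  have hw : σ * (b + μ ^ 2 * ζ).im = h - s + D * ζ.im := by
    rw [him]
    have : |b.im| = h - s := by rw [hsdef]; ring
    rw [← this, ← h2]
    linear_combination (D * ζ.im) * h1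
  have hs' : s * (2 * (1 + 2 * R)) < h := (lt_div_iff₀ (by positivity)).1 hs
  have hlo : 0 < σ * (b + μ ^ 2 * ζ).im := by
    rw [hw]
    have h5 : D * (-R) ≤ D * ζ.im := mul_le_mul_of_nonneg_left hzim' hp.le
    have h6 : D * R ≤ 2 * s * R := mul_le_mul_of_nonneg_right hle hR
    have h7 : 0 < s * (1 + 2 * R) := by positivity
    nlinarith
  have habs : |(b + μ ^ 2 * ζ).im| = σ * (b + μ ^ 2 * ζ).im := by
    have h4 : |σ| = 1 := by
      rw [← sq_eq_sq₀ (abs_nonneg σ) zero_le_one, sq_abs, h1, one_pow]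
    rw [← abs_of_pos hlo, abs_mul, h4, one_mul]
  have hup : D * ζ.im ≤ s - 2 * δ * s := by
    have h5 : D * ζ.im ≤ D * (1 / 2 - δ) := mul_le_mul_of_nonneg_left hζ hp.le
    have h6 : D * (1 / 2 - δ) ≤ 2 * s * (1 / 2 - δ) :=
      mul_le_mul_of_nonneg_right hle (by linarith)
    nlinarith
  have hdep : h - |(b + μ ^ 2 * ζ).im| = s - D * ζ.im := by
    rw [habs, hw]
    ring
  have hdp : 2 * δ * s ≤ h - |(b + μ ^ 2 * ζ).im| := by
    rw [hdep]
    linarith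
  have hmem : b + μ ^ 2 * ζ ∈ St (-h) h := by
    have h8 : |(b + μ ^ 2 * ζ).im| < h := by
      have : 0 < 2 * δ * s := by positivity
      linarith
    exact abs_lt.1 h8
  refine ⟨hmem, ?_, hdep⟩
  have hge' := DS_ge hh hmem
  have h9 : 1 ≤ 4 / Real.pi := by
    rw [le_div_iff₀ hpi]
    linarith
  have h10 : 4 / Real.pi * (2 * δ * s) ≤ 4 / Real.pi * (h - |(b + μ ^ 2 * ζ).im|) :=
    mul_le_mul_of_nonneg_left hdp (by positivity)
  have h11 : 1 * (2 * δ * s) ≤ 4 / Real.pi * (2 * δ * s) :=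
    mul_le_mul_of_nonneg_right h9 (by positivity)
  have h12 : δ * D ≤ δ * (2 * s) := mul_le_mul_of_nonneg_left hle hδ.le
  linarith

/-- `DS b = (4h/π) sin x`, `x = π s / (2h)`, and `sin x ≥ x - x³/4` (`Real.sin_gt_sub_cube`), so
`DS b ≥ 2 s (1 - x²/4)`. -/
theorem deep_ratio (hh : 0 < h) {η : ℝ} (hη : 0 < η) :
    ∃ s₀ > 0, ∀ b ∈ St (-h) h, h - |b.im| < s₀ → h - |b.im| ≤ (1 / 2 + η) * DS h b := by
  have hpi := Real.pi_pos
  refine ⟨2 * h / Real.pi * min 1 (8 * η / (1 + 2 * η)), by positivity, fun b hb hs => ?_⟩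
  have hbim : |b.im| < h := abs_lt.2 ⟨hb.1, hb.2⟩
  set s := h - |b.im| with hsdef
  have hspos : 0 < s := by linarith
  set x := Real.pi * s / (2 * h) with hx
  have hxpos : 0 < x := by positivity
  have hx1 : x < min 1 (8 * η / (1 + 2 * η)) := by
    have h1 : s = 2 * h / Real.pi * x := by
      rw [hx]
      field_simp
    rw [h1] at hs
    exact lt_of_mul_lt_mul_left hs (by positivity)
  have hxa : x < 1 := hx1.trans_le (min_le_left _ _)
  have hxb : x * (1 + 2 * η) < 8 * η := by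
    have := hx1.trans_le (min_le_right _ _)
    exact (lt_div_iff₀ (by positivity)).1 this
  have hDS : DS h b = 4 * h / Real.pi * Real.sin x := by
    unfold DS
    have h2 : |Real.pi * b.im / (2 * h)| = Real.pi / 2 - x := by
      rw [abs_div, abs_mul, abs_of_pos hpi, abs_of_pos (by positivity : (0:ℝ) < 2 * h), hx, hsdef]
      field_simp
      ring
    rw [← Real.cos_abs, h2, Real.cos_pi_div_two_sub]
  have hsin := Real.sin_gt_sub_cube hxpos
  have hs2 : s = 2 * h / Real.pi * x := by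
    rw [hx]
    field_simp
  have hsin2 : x ≤ (1 + 2 * η) * Real.sin x := by
    have h3 : x * x * (1 + 2 * η) ≤ 8 * η := by
      have h5 : x * (x * (1 + 2 * η)) ≤ 1 * (x * (1 + 2 * η)) :=
        mul_le_mul_of_nonneg_right hxa.le (by positivity)
      linarith
    have h6 : (1 + 2 * η) * (x - x ^ 3 / 6) ≤ (1 + 2 * η) * Real.sin x :=
      mul_le_mul_of_nonneg_left hsin.le (by positivity)
    have h7 : x * (x * x * (1 + 2 * η)) ≤ x * (8 * η) := mul_le_mul_of_nonneg_left h3 hxpos.le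
    have h8 : 0 < x * η := by positivity
    nlinarith
  rw [hDS, hs2]
  have h9 : 2 * h / Real.pi * x ≤ 2 * h / Real.pi * ((1 + 2 * η) * Real.sin x) :=
    mul_le_mul_of_nonneg_left hsin2 (by positivity)
  refine h9.trans (le_of_eq ?_)
  ring

end Pool.Agent.MP_ae5b4e_an_NB4C
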