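import Pool.Agent.Lib.MP_ae5b4e_an_NB4C.LSys
import Pool.Agent.Lib.MP_ae5b4e_an_NB4C.LDeep

/-!
# MP_ae5b4e_an, NB_4 part C, module LIvt: radii, the norm of the relative frame
-/

noncomputable section

namespace Pool.Agent.MP_ae5b4e_an_NB4C

open Complex Set Filter Topology Metric
open Pool.Agent.MP_ae5b4e_an_NBT (St)
open Pool.Agent.MP_ae5b4e_an_NB2 (Sys)
open Pool.Agent.MP_ae5b4e_an_NB4 (wdg uu uu' DS DS_pos NE Lev)

variable {Y : Sys} {h : ℝ} {q k : ℕ} {π₀ : ℂ} {i : ZMod q} {P : ZMod q → ℂ}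
  {V : Set (ZMod q → ℂ)}

/-- a stronger level implies a weaker one -/
theorem lev_mono {k' : ℕ} (hk : k ≤ k') (hL : Lev Y h q π₀ i k' P V) : Lev Y h q π₀ i k P V where
  sub := hL.sub
  conn := hL.conn
  mem := hL.mem
  near := hL.near
  far := hL.far
  deep := hL.deep.trans (one_div_le_one_div_of_le (by positivity) (by
    have : (k : ℝ) ≤ k' := Nat.cast_le.2 hk
    linarith))
  iso j hj := (Nat.cast_le.2 hk).trans (hL.iso j hj)

/-- intermediate value theorem for `z ↦ ‖z i - P i‖` on the connected set `V` -/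
theorem exists_radius (hh : 0 < h) (hL : Lev Y h q π₀ i k P V) {r : ℝ}
    (hr : r ∈ Icc (0:ℝ) (1 / 8)) : ∃ z ∈ V, ‖z i - P i‖ = r * DS h (P i) := by
  obtain ⟨z₁, hz₁, h1⟩ := hL.far
  have hS : P i ∈ St (-h) h := (hL.sub hL.mem).1 i
  have hD := DS_pos hh hS
  have hf : ContinuousOn (fun z : ZMod q → ℂ => ‖z i - P i‖) V := by fun_prop
  have h2 := hL.conn.intermediate_value hL.mem hz₁ hf
  have h3 : r * DS h (P i) ∈ Icc ‖P i - P i‖ ‖z₁ i - P i‖ := by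
    rw [h1, sub_self, norm_zero]
    exact ⟨mul_nonneg hr.1 hD.le, by nlinarith [hr.2]⟩
  obtain ⟨z, hz, h4⟩ := h2 h3
  exact ⟨z, hz, h4⟩

private theorem wdg_smul_smul (a b : ℂ) (p r : ℂ × ℂ) : wdg (a • p) (b • r) = a * b * wdg p r := by
  unfold wdg
  simp only [Prod.smul_fst, Prod.smul_snd, smul_eq_mul]
  ring

private theorem norm_wdg_comm (p r : ℂ × ℂ) : ‖wdg p r‖ = ‖wdg r p‖ := by
  have : wdg p r = -wdg r p := by
    unfold wdg
    ring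
  rw [this, norm_neg]

/-- `NE` is the sum of the squares of the four entries, each at most the maximum norm -/
theorem ne_le {l m ν ν' : ℂ} (hh : 0 < h) (hl : Dir h l ν) (hm : Dir h m ν') :
    NE Y h l m ≤ 4 * (max ‖fr (scl Y l ν) (uu (scl Y m ν') 0)‖
      ‖fr (scl Y l ν) (uu' (scl Y m ν') 0)‖) ^ 2 := by
  have hν := hl.norm_sq hh
  have hν' := hm.norm_sq hh
  have hν0 := hl.ne hh
  have hν0' := hm.ne hh
  have a1 : uu (scl Y l ν) 0 = ν⁻¹ • uu Y l := by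
    have := uu_scl (Y := Y) (b := l) (μ := ν) 0
    rwa [mul_zero, add_zero] at this
  have a2 : uu' (scl Y l ν) 0 = ν • uu' Y l := by
    have := uu'_scl (Y := Y) (b := l) (μ := ν) 0
    rwa [mul_zero, add_zero] at this
  have a3 : uu (scl Y m ν') 0 = ν'⁻¹ • uu Y m := by
    have := uu_scl (Y := Y) (b := m) (μ := ν') 0
    rwa [mul_zero, add_zero] at this
  have a4 : uu' (scl Y m ν') 0 = ν' • uu' Y m := by
    have := uu'_scl (Y := Y) (b := m) (μ := ν') 0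
    rwa [mul_zero, add_zero] at this
  obtain ⟨M, hM⟩ : ∃ M, M = max ‖fr (scl Y l ν) (uu (scl Y m ν') 0)‖
    ‖fr (scl Y l ν) (uu' (scl Y m ν') 0)‖ := ⟨_, rfl⟩
  have b1 : ‖wdg (uu (scl Y m ν') 0) (uu' (scl Y l ν) 0)‖ ≤ M := by
    rw [hM]
    exact (le_max_left _ _).trans (le_max_left _ _)
  have b2 : ‖wdg (uu (scl Y l ν) 0) (uu (scl Y m ν') 0)‖ ≤ M := by
    rw [hM]
    exact (le_max_right _ _).trans (le_max_left _ _)
  have b3 : ‖wdg (uu' (scl Y m ν') 0) (uu' (scl Y l ν) 0)‖ ≤ M := by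
    rw [hM]
    exact (le_max_left _ _).trans (le_max_right _ _)
  have b4 : ‖wdg (uu (scl Y l ν) 0) (uu' (scl Y m ν') 0)‖ ≤ M := by
    rw [hM]
    exact (le_max_right _ _).trans (le_max_right _ _)
  rw [← hM]
  have c1 := pow_le_pow_left₀ (norm_nonneg _) b1 2
  have c2 := pow_le_pow_left₀ (norm_nonneg _) b2 2
  have c3 := pow_le_pow_left₀ (norm_nonneg _) b3 2
  have c4 := pow_le_pow_left₀ (norm_nonneg _) b4 2
  rw [a3, a2, wdg_smul_smul, norm_mul, norm_mul, norm_inv, mul_pow, mul_pow, inv_pow, hν, hν',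
    norm_wdg_comm] at c1
  rw [a1, a3, wdg_smul_smul, norm_mul, norm_mul, norm_inv, norm_inv, mul_pow, mul_pow, inv_pow,
    inv_pow, hν, hν'] at c2
  rw [a4, a2, wdg_smul_smul, norm_mul, norm_mul, mul_pow, mul_pow, hν, hν', norm_wdg_comm] at c3
  rw [a1, a4, wdg_smul_smul, norm_mul, norm_mul, norm_inv, mul_pow, mul_pow, inv_pow, hν,
    hν'] at c4
  have d1 : DS h l / DS h m * ‖wdg (uu' Y l) (uu Y m)‖ ^ 2 =
      (DS h m)⁻¹ * DS h l * ‖wdg (uu' Y l) (uu Y m)‖ ^ 2 := by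
    rw [div_eq_mul_inv, mul_comm (DS h l)]
  have d2 : ‖wdg (uu Y l) (uu Y m)‖ ^ 2 / (DS h l * DS h m) =
      (DS h l)⁻¹ * (DS h m)⁻¹ * ‖wdg (uu Y l) (uu Y m)‖ ^ 2 := by
    rw [div_eq_mul_inv, mul_inv, mul_comm]
  have d3 : DS h l * DS h m * ‖wdg (uu' Y l) (uu' Y m)‖ ^ 2 =
      DS h m * DS h l * ‖wdg (uu' Y l) (uu' Y m)‖ ^ 2 := by
    rw [mul_comm (DS h l)]
  have d4 : DS h m / DS h l * ‖wdg (uu Y l) (uu' Y m)‖ ^ 2 =
      (DS h l)⁻¹ * DS h m * ‖wdg (uu Y l) (uu' Y m)‖ ^ 2 := by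
    rw [div_eq_mul_inv, mul_comm (DS h m)]
  unfold NE
  rw [d1, d2, d3, d4]
  linarith

end Pool.Agent.MP_ae5b4e_an_NB4C
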