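import Pool.Agent.Lib.MP_ae5b4e_an_NB4C.LDefs
import Pool.Agent.Lib.MP_ae5b4e_an_UT.Hurw

/-!
# MP_ae5b4e_an, NB_4 part C, module LMon: Montel's theorem for systems
-/

noncomputable section

namespace Pool.Agent.MP_ae5b4e_an_NB4C

open Complex Set Filter Topology Metric
open Pool.Agent.MP_ae5b4e_an_NB2 (Sys)
open Pool.Agent.MP_ae5b4e_an_NB4 (wdg uu uu')

private theorem isOpen_HP : IsOpen HP :=
  isOpen_lt Complex.continuous_im continuous_const

private theorem tlu_comp {F : ℕ → ℂ → ℂ} {f : ℂ → ℂ} {S : Set ℂ} {p l : Filter ℕ} {φ : ℕ → ℕ}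
    (h : TendstoLocallyUniformlyOn F f p S) (hφ : Tendsto φ l p) :
    TendstoLocallyUniformlyOn (fun k => F (φ k)) f l S := by
  intro u hu x hx
  obtain ⟨t, ht, h1⟩ := h u hu x hx
  exact ⟨t, ht, hφ.eventually h1⟩

/-- A sequence of systems which is locally bounded on the half plane has a subsequence which
converges.  Apply `Pool.Agent.Lib.MP_ae5b4e_an_UT.montel` to `y1` and to a subsequence of `y2`: limits
`G₁`, `G₂`.  `v := ⟨G₁' G₂'' - G₁'' G₂', G₁, G₁', G₂, G₂'⟩`.  On each ball `ball x r` the functions are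
differentiable for large `k`, so `TendstoLocallyUniformlyOn.deriv` gives the convergence of `y1'` and
`y2'`, the Wronskian `G₁ G₂' - G₁' G₂ = 1` passes to the limit, its derivative is
`G₁ G₂'' - G₁'' G₂ = 0` and so `-(Q G₁) = G₁''`, `-(Q G₂) = G₂''`.  The values at a convergent
sequence of points converge by `TendstoLocallyUniformlyOn.tendsto_comp` (for a filter `l ≤ atTop`). -/
theorem montel_sys {vs : ℕ → Sys} (hb : ∀ x ∈ HP, ∃ r > 0, ∃ M : ℝ, ∀ᶠ k in atTop,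
    (vs k).On (ball x r) ∧ ∀ w ∈ ball x r, ‖(vs k).y1 w‖ ≤ M ∧ ‖(vs k).y2 w‖ ≤ M) :
    ∃ (φ : ℕ → ℕ) (v : Sys), StrictMono φ ∧ Cvg (fun k => vs (φ k)) v := by
  obtain ⟨φ₁, G₁, hφ₁, hG₁, hc₁⟩ := Pool.Agent.Lib.MP_ae5b4e_an_UT.montel
    (f := fun k => (vs k).y1) isOpen_HP (by
      intro x hx
      obtain ⟨r, hr, M, h⟩ := hb x hx
      refine ⟨r, hr, M, ?_⟩
      filter_upwards [h] with k hk
      exact ⟨fun z hz => (hk.1.d1 z hz).differentiableAt.differentiableWithinAt,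
        fun y hy => (hk.2 y hy).1⟩)
  obtain ⟨φ₂, G₂, hφ₂, hG₂, hc₂⟩ := Pool.Agent.Lib.MP_ae5b4e_an_UT.montel
    (f := fun k => (vs (φ₁ k)).y2) isOpen_HP (by
      intro x hx
      obtain ⟨r, hr, M, h⟩ := hb x hx
      refine ⟨r, hr, M, ?_⟩
      filter_upwards [hφ₁.tendsto_atTop.eventually h] with k hk
      exact ⟨fun z hz => (hk.1.d2 z hz).differentiableAt.differentiableWithinAt,
        fun y hy => (hk.2 y hy).2⟩)
  have hφ : StrictMono (fun k => φ₁ (φ₂ k)) := hφ₁.comp hφ₂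
  have t1 : TendstoLocallyUniformlyOn (fun k => (vs (φ₁ (φ₂ k))).y1) G₁ atTop HP :=
    tlu_comp hc₁ hφ₂.tendsto_atTop
  have t2 : TendstoLocallyUniformlyOn (fun k => (vs (φ₁ (φ₂ k))).y2) G₂ atTop HP := hc₂
  -- local balls
  have hloc : ∀ x ∈ HP, ∃ r > 0, ball x r ⊆ HP ∧
      ∀ᶠ k in atTop, (vs (φ₁ (φ₂ k))).On (ball x r) := by
    intro x hx
    obtain ⟨r, hr, M, h⟩ := hb x hx
    obtain ⟨r', hr', h'⟩ := Metric.isOpen_iff.1 isOpen_HP x hx
    refine ⟨min r r', lt_min hr hr', (ball_subset_ball (min_le_right _ _)).trans h', ?_⟩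
    filter_upwards [hφ.tendsto_atTop.eventually h] with k hk
    have hs : ball x (min r r') ⊆ ball x r := ball_subset_ball (min_le_left _ _)
    exact ⟨fun z hz => hk.1.d1 z (hs hz), fun z hz => hk.1.d1' z (hs hz),
      fun z hz => hk.1.d2 z (hs hz), fun z hz => hk.1.d2' z (hs hz), fun z hz => hk.1.wr z (hs hz)⟩
  -- convergence of the values
  have hval : ∀ (l : Filter ℕ), l ≤ atTop → ∀ (ζs : ℕ → ℂ) (ζ : ℂ), ζ ∈ HP → Tendsto ζs l (𝓝 ζ) →
      Tendsto (fun k => (vs (φ₁ (φ₂ k))).y1 (ζs k)) l (𝓝 (G₁ ζ)) ∧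
      Tendsto (fun k => (vs (φ₁ (φ₂ k))).y2 (ζs k)) l (𝓝 (G₂ ζ)) ∧
      Tendsto (fun k => (vs (φ₁ (φ₂ k))).y1' (ζs k)) l (𝓝 (deriv G₁ ζ)) ∧
      Tendsto (fun k => (vs (φ₁ (φ₂ k))).y2' (ζs k)) l (𝓝 (deriv G₂ ζ)) := by
    intro l hl ζs ζ hζ hζs
    obtain ⟨r, hr, hsub, hon⟩ := hloc ζ hζ
    have hmem : ζ ∈ ball ζ r := mem_ball_self hr
    have hnh : ball ζ r ∈ 𝓝 ζ := isOpen_ball.mem_nhds hmem
    have hw : Tendsto ζs l (𝓝[ball ζ r] ζ) := by
      rw [nhdsWithin_eq_nhds.2 hnh]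
      exact hζs
    have key : ∀ (F : ℕ → ℂ → ℂ) (F' : ℕ → ℂ → ℂ) (G : ℂ → ℂ), DifferentiableOn ℂ G HP →
        TendstoLocallyUniformlyOn F G atTop HP →
        (∀ᶠ k in atTop, ∀ z ∈ ball ζ r, HasDerivAt (F k) (F' k z) z) →
        Tendsto (fun k => F k (ζs k)) l (𝓝 (G ζ)) ∧
        Tendsto (fun k => F' k (ζs k)) l (𝓝 (deriv G ζ)) := by
      intro F F' G hG hFG hd
      have c1 : TendstoLocallyUniformlyOn F G atTop (ball ζ r) := hFG.mono hsub
      have c2 : TendstoLocallyUniformlyOn (deriv ∘ F) (deriv G) atTop (ball ζ r) := by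
        refine c1.deriv ?_ isOpen_ball
        filter_upwards [hd] with k hk z hz
        exact (hk z hz).differentiableAt.differentiableWithinAt
      have c1' : TendstoLocallyUniformlyOn F G l (ball ζ r) :=
        tlu_comp (φ := id) c1 (tendsto_id'.2 hl)
      have c2' : TendstoLocallyUniformlyOn (deriv ∘ F) (deriv G) l (ball ζ r) :=
        tlu_comp (φ := id) c2 (tendsto_id'.2 hl)
      have hGd : DifferentiableOn ℂ (deriv G) HP := hG.deriv isOpen_HP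
      refine ⟨c1'.tendsto_comp ((hG.mono hsub).continuousOn ζ hmem) hmem hw, ?_⟩
      have h2 := c2'.tendsto_comp ((hGd.mono hsub).continuousOn ζ hmem) hmem hw
      refine h2.congr' ?_
      filter_upwards [hl hd, hζs.eventually hnh] with k hk hk2
      exact (hk _ hk2).deriv
    have k1 := key (fun k => (vs (φ₁ (φ₂ k))).y1) (fun k => (vs (φ₁ (φ₂ k))).y1') G₁ hG₁ t1 (by
      filter_upwards [hon] with k hk z hz using hk.d1 z hz)
    have k2 := key (fun k => (vs (φ₁ (φ₂ k))).y2) (fun k => (vs (φ₁ (φ₂ k))).y2') G₂ hG₂ t2 (by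
      filter_upwards [hon] with k hk z hz using hk.d2 z hz)
    exact ⟨k1.1, k2.1, k1.2, k2.2⟩
  -- the Wronskian
  have hW : ∀ z ∈ HP, G₁ z * deriv G₂ z - deriv G₁ z * G₂ z = 1 := by
    intro z hz
    obtain ⟨r, hr, hsub, hon⟩ := hloc z hz
    obtain ⟨a1, a2, a3, a4⟩ := hval atTop le_rfl (fun _ => z) z hz tendsto_const_nhds
    refine tendsto_nhds_unique ((a1.mul a4).sub (a3.mul a2)) ?_
    refine tendsto_const_nhds.congr' ?_
    filter_upwards [hon] with k hk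
    exact (hk.wr z (mem_ball_self hr)).symm
  have hd1 : ∀ z ∈ HP, HasDerivAt G₁ (deriv G₁ z) z := fun z hz =>
    (hG₁.differentiableAt (isOpen_HP.mem_nhds hz)).hasDerivAt
  have hd2 : ∀ z ∈ HP, HasDerivAt G₂ (deriv G₂ z) z := fun z hz =>
    (hG₂.differentiableAt (isOpen_HP.mem_nhds hz)).hasDerivAt
  have hd1' : ∀ z ∈ HP, HasDerivAt (deriv G₁) (deriv (deriv G₁) z) z := fun z hz =>
    ((hG₁.deriv isOpen_HP).differentiableAt (isOpen_HP.mem_nhds hz)).hasDerivAt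
  have hd2' : ∀ z ∈ HP, HasDerivAt (deriv G₂) (deriv (deriv G₂) z) z := fun z hz =>
    ((hG₂.deriv isOpen_HP).differentiableAt (isOpen_HP.mem_nhds hz)).hasDerivAt
  have hW' : ∀ z ∈ HP, G₁ z * deriv (deriv G₂) z - deriv (deriv G₁) z * G₂ z = 0 := by
    intro z hz
    have h1 := ((hd1 z hz).mul (hd2' z hz)).sub ((hd1' z hz).mul (hd2 z hz))
    have h2 : HasDerivAt (G₁ * deriv G₂ - deriv G₁ * G₂) 0 z := by
      refine (hasDerivAt_const z (1:ℂ)).congr_of_eventuallyEq ?_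
      filter_upwards [isOpen_HP.mem_nhds hz] with w hw
      exact hW w hw
    have h3 := h1.unique h2
    linear_combination h3
  refine ⟨fun k => φ₁ (φ₂ k), ⟨fun z => deriv G₁ z * deriv (deriv G₂) z -
    deriv (deriv G₁) z * deriv G₂ z, G₁, deriv G₁, G₂, deriv G₂⟩, hφ, ⟨?_, ?_⟩⟩
  · refine ⟨hd1, fun z hz => ?_, hd2, fun z hz => ?_, hW⟩
    · refine (hd1' z hz).congr_deriv ?_
      simp only
      linear_combination (-deriv (deriv G₁) z) * hW z hz + deriv G₁ z * hW' z hz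
    · refine (hd2' z hz).congr_deriv ?_
      simp only
      linear_combination (-deriv (deriv G₂) z) * hW z hz + deriv G₂ z * hW' z hz
  · intro l hl ζs ζ hζ hζs
    obtain ⟨a1, a2, a3, a4⟩ := hval l hl ζs ζ hζ hζs
    exact ⟨a1.prodMk_nhds a2, a3.prodMk_nhds a4⟩

end Pool.Agent.MP_ae5b4e_an_NB4C
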