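import Pool.Agent.Lib.MP_ae5b4e_an_NB4C.LDefs

/-!
# MP_ae5b4e_an, NB_4 part C, module LPole: unimodular matrices which tend to infinity
-/

noncomputable section

namespace Pool.Agent.MP_ae5b4e_an_NB4C

open Complex Set Filter Topology Metric
open Pool.Agent.MP_ae5b4e_an_NB4 (wdg)

/-- bounded vectors converge along an ultrafilter -/
theorem exists_ulim (l : Ultrafilter ℕ) {a : ℕ → ℂ × ℂ} {C : ℝ} (h : ∀ᶠ k in (l : Filter ℕ),
    ‖a k‖ ≤ C) : ∃ a₀, Tendsto a l (𝓝 a₀) := by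
  have hK : IsCompact (closedBall (0 : ℂ × ℂ) C) := isCompact_closedBall _ _
  have hm : closedBall (0 : ℂ × ℂ) C ∈ (l.map a : Filter (ℂ × ℂ)) := by
    rw [Ultrafilter.coe_map, Filter.mem_map]
    filter_upwards [h] with k hk
    simpa using hk
  obtain ⟨a₀, -, ha⟩ := isCompact_iff_ultrafilter_le_nhds'.1 hK (l.map a) hm
  exact ⟨a₀, ha⟩

private theorem wdg_tendsto {l : Filter ℕ} {a b : ℕ → ℂ × ℂ} {a₀ b₀ : ℂ × ℂ}
    (ha : Tendsto a l (𝓝 a₀)) (hb : Tendsto b l (𝓝 b₀)) :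
    Tendsto (fun k => wdg (a k) (b k)) l (𝓝 (wdg a₀ b₀)) := by
  unfold wdg
  have h1 := (continuous_fst.tendsto a₀).comp ha
  have h2 := (continuous_snd.tendsto a₀).comp ha
  have h3 := (continuous_fst.tendsto b₀).comp hb
  have h4 := (continuous_snd.tendsto b₀).comp hb
  exact (h1.mul h4).sub (h2.mul h3)

private theorem par_of_wdg {a b : ℂ × ℂ} (ha : a ≠ 0) (h : wdg a b = 0) : ∃ c : ℂ, b = c • a := by
  unfold wdg at h
  by_cases h1 : a.1 = 0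
  · have h2 : a.2 ≠ 0 := fun h2 => ha (Prod.ext h1 h2)
    refine ⟨b.2 / a.2, ?_⟩
    ext
    · rw [h1] at h
      simp only [Prod.smul_fst, smul_eq_mul, h1, mul_zero]
      have : a.2 * b.1 = 0 := by linear_combination (-1 : ℂ) * h
      exact (mul_eq_zero.1 this).resolve_left h2
    · simp only [Prod.smul_snd, smul_eq_mul]
      field_simp
  · refine ⟨b.1 / a.1, ?_⟩
    ext
    · simp only [Prod.smul_fst, smul_eq_mul]
      field_simp
    · simp only [Prod.smul_snd, smul_eq_mul]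
      field_simp
      linear_combination h

/-- (4.3)(b).  Let `N k = max ‖a k‖ ‖b k‖ → ∞`.  Along the ultrafilter `a k / N k → ρ₁ e`,
`b k / N k → ρ₂ e` with `e ≠ 0` and `(ρ₁, ρ₂) ≠ 0`: the limits `a₀`, `b₀` are not both zero (their
maximum norm is `1`) and `wdg a₀ b₀ = lim 1 / N² = 0`.  Then `wdg x₀ ((v₀.1 ρ₁ + v₀.2 ρ₂) e) = 0` and
`wdg y₀ ((w₀.1 ρ₁ + w₀.2 ρ₂) e) = 0`, and one of the two scalars is not zero because
`wdg v₀ w₀ ≠ 0`. -/
theorem pole_limit (l : Ultrafilter ℕ) {a b : ℕ → ℂ × ℂ} (hw : ∀ k, wdg (a k) (b k) = 1)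
    (hR : ∀ R : ℝ, ∀ᶠ k in (l : Filter ℕ), R ≤ max ‖a k‖ ‖b k‖) :
    ∃ e : ℂ × ℂ, e ≠ 0 ∧ ∀ (v w x y : ℕ → ℂ × ℂ) (v₀ w₀ x₀ y₀ : ℂ × ℂ),
      Tendsto v l (𝓝 v₀) → Tendsto w l (𝓝 w₀) → Tendsto x l (𝓝 x₀) → Tendsto y l (𝓝 y₀) →
      wdg v₀ w₀ ≠ 0 → (∀ k, wdg (x k) ((v k).1 • a k + (v k).2 • b k) = 0) →
      (∀ k, wdg (y k) ((w k).1 • a k + (w k).2 • b k) = 0) →
      wdg x₀ e = 0 ∨ wdg y₀ e = 0 := by
  set N : ℕ → ℝ := fun k => max ‖a k‖ ‖b k‖ with hN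
  have hN1 : ∀ᶠ k in (l : Filter ℕ), 1 ≤ N k := hR 1
  have hNt : Tendsto N l atTop := tendsto_atTop.2 hR
  set a' : ℕ → ℂ × ℂ := fun k => ((N k)⁻¹ : ℂ) • a k with ha'
  set b' : ℕ → ℂ × ℂ := fun k => ((N k)⁻¹ : ℂ) • b k with hb'
  have na : ∀ k, ‖a' k‖ = (N k)⁻¹ * ‖a k‖ := by
    intro k
    have : 0 ≤ N k := (norm_nonneg _).trans (le_max_left _ _)
    rw [ha', norm_smul, norm_inv, Complex.norm_real, Real.norm_of_nonneg this]
  have nb : ∀ k, ‖b' k‖ = (N k)⁻¹ * ‖b k‖ := by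
    intro k
    have : 0 ≤ N k := (norm_nonneg _).trans (le_max_left _ _)
    rw [hb', norm_smul, norm_inv, Complex.norm_real, Real.norm_of_nonneg this]
  have na1 : ∀ᶠ k in (l : Filter ℕ), ‖a' k‖ ≤ 1 := by
    filter_upwards [hN1] with k hk
    rw [na, inv_mul_le_iff₀ (by linarith), mul_one]
    exact le_max_left _ _
  have nb1 : ∀ᶠ k in (l : Filter ℕ), ‖b' k‖ ≤ 1 := by
    filter_upwards [hN1] with k hk
    rw [nb, inv_mul_le_iff₀ (by linarith), mul_one]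
    exact le_max_right _ _
  obtain ⟨a₀, hta⟩ := exists_ulim l na1
  obtain ⟨b₀, htb⟩ := exists_ulim l nb1
  have hmax : max ‖a₀‖ ‖b₀‖ = 1 := by
    have h1 : Tendsto (fun k => max ‖a' k‖ ‖b' k‖) l (𝓝 (max ‖a₀‖ ‖b₀‖)) := hta.norm.max htb.norm
    have h2 : Tendsto (fun k => max ‖a' k‖ ‖b' k‖) l (𝓝 1) := by
      refine tendsto_const_nhds.congr' ?_
      filter_upwards [hN1] with k hk
      have h0 : 0 ≤ (N k)⁻¹ := by positivity
      rw [na, nb, ← mul_max_of_nonneg _ _ h0]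
      exact (inv_mul_cancel₀ (show N k ≠ 0 by linarith)).symm
    exact tendsto_nhds_unique h1 h2
  have hw0 : wdg a₀ b₀ = 0 := by
    have h1 := wdg_tendsto hta htb
    have h2 : Tendsto (fun k => wdg (a' k) (b' k)) l (𝓝 0) := by
      have h3 : Tendsto (fun k => (((N k)⁻¹ : ℝ) : ℂ) * (((N k)⁻¹ : ℝ) : ℂ)) l (𝓝 0) := by
        have h4 : Tendsto (fun k => (((N k)⁻¹ : ℝ) : ℂ)) l (𝓝 0) := by
          have := (Complex.continuous_ofReal.tendsto 0).comp (tendsto_inv_atTop_zero.comp hNt)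
          simpa [Function.comp_def] using this
        simpa using h4.mul h4
      refine h3.congr fun k => ?_
      have h5 : wdg (a' k) (b' k) = ((N k)⁻¹ : ℂ) * ((N k)⁻¹ : ℂ) * wdg (a k) (b k) := by
        simp only [ha', hb', wdg, Prod.smul_fst, Prod.smul_snd, smul_eq_mul]
        ring
      rw [h5, hw, mul_one]
      push_cast
      rfl
    exact tendsto_nhds_unique h1 h2
  have hex : ∃ (e : ℂ × ℂ) (ρ₁ ρ₂ : ℂ), e ≠ 0 ∧ a₀ = ρ₁ • e ∧ b₀ = ρ₂ • e ∧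
      (ρ₁ ≠ 0 ∨ ρ₂ ≠ 0) := by
    by_cases h0 : a₀ = 0
    · have h1 : b₀ ≠ 0 := by
        intro h1
        rw [h0, h1] at hmax
        simp at hmax
      exact ⟨b₀, 0, 1, h1, by simp [h0], by simp, Or.inr one_ne_zero⟩
    · obtain ⟨c, hc⟩ := par_of_wdg h0 hw0
      exact ⟨a₀, 1, c, h0, by simp, hc, Or.inl one_ne_zero⟩
  obtain ⟨e, ρ₁, ρ₂, he, e1, e2, hρ⟩ := hex
  refine ⟨e, he, ?_⟩
  intro v w x y v₀ w₀ x₀ y₀ hv hw' hx hy hvw h1 h2
  have key : ∀ (v x : ℕ → ℂ × ℂ) (v₀ x₀ : ℂ × ℂ), Tendsto v l (𝓝 v₀) → Tendsto x l (𝓝 x₀) →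
      (∀ k, wdg (x k) ((v k).1 • a k + (v k).2 • b k) = 0) →
      (v₀.1 * ρ₁ + v₀.2 * ρ₂) * wdg x₀ e = 0 := by
    intro v x v₀ x₀ hv hx h
    have t1 : Tendsto (fun k => (v k).1 • a' k + (v k).2 • b' k) l
        (𝓝 (v₀.1 • a₀ + v₀.2 • b₀)) := by
      have s1 := (continuous_fst.tendsto v₀).comp hv
      have s2 := (continuous_snd.tendsto v₀).comp hv
      exact (s1.smul hta).add (s2.smul htb)
    have t2 := wdg_tendsto hx t1
    have t3 : Tendsto (fun k => wdg (x k) ((v k).1 • a' k + (v k).2 • b' k)) l (𝓝 0) := by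
      refine tendsto_const_nhds.congr fun k => ?_
      have : wdg (x k) ((v k).1 • a' k + (v k).2 • b' k) =
          ((N k)⁻¹ : ℂ) * wdg (x k) ((v k).1 • a k + (v k).2 • b k) := by
        simp only [ha', hb', wdg, Prod.smul_fst, Prod.smul_snd, Prod.fst_add, Prod.snd_add,
          smul_eq_mul]
        ring
      rw [this, h, mul_zero]
    have t4 := tendsto_nhds_unique t2 t3
    rw [e1, e2] at t4
    rw [← t4]
    simp only [wdg, Prod.smul_fst, Prod.smul_snd, Prod.fst_add, Prod.snd_add, smul_eq_mul]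
    ring
  have k1 := key v x v₀ x₀ hv hx h1
  have k2 := key w y w₀ y₀ hw' hy h2
  rcases mul_eq_zero.1 k1 with k1 | k1
  · rcases mul_eq_zero.1 k2 with k2 | k2
    · exfalso
      apply hvw
      unfold wdg
      rcases hρ with hρ | hρ
      · apply mul_left_cancel₀ hρ
        linear_combination w₀.2 * k1 - v₀.2 * k2
      · apply mul_left_cancel₀ hρ
        linear_combination v₀.1 * k2 - w₀.1 * k1
    · exact Or.inr k2
  · exact Or.inl k1

end Pool.Agent.MP_ae5b4e_an_NB4C
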