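import Pool.Agent.Lib.MP_ae5b4e_an_NB4C.LWin
import Pool.Agent.Lib.MP_ae5b4e_an_NB4C.LPole
import Pool.Agent.Lib.MP_ae5b4e_an_NB2.NodeB

/-!
# MP_ae5b4e_an, NB_4 part C, module LNf: non-injectivity passes to the limit
-/

noncomputable section

namespace Pool.Agent.MP_ae5b4e_an_NB4C

open Complex Set Filter Topology Metric
open Pool.Agent.MP_ae5b4e_an_NBT (St)
open Pool.Agent.MP_ae5b4e_an_NB2 (Sys)
open Pool.Agent.MP_ae5b4e_an_NB4 (wdg uu uu' DS NF)

variable {Y : Sys} {h C₁ : ℝ}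

private lemma cont_wdg {l : Filter ℕ} {a b : ℕ → ℂ × ℂ} {a₀ b₀ : ℂ × ℂ} (ha : Tendsto a l (𝓝 a₀))
    (hb : Tendsto b l (𝓝 b₀)) : Tendsto (fun k => wdg (a k) (b k)) l (𝓝 (wdg a₀ b₀)) := by
  unfold wdg
  exact ((ha.fst_nhds).mul (hb.snd_nhds)).sub ((ha.snd_nhds).mul (hb.fst_nhds))

/-- the statement at one large index -/
private lemma nf_step (hh : 0 < h) (hY : Y.On (St (-h) h))
    (hQ : ∀ l ∈ St (-h) h, ‖Y.Q l‖ * DS h l ^ 2 ≤ C₁) {ε s₀ : ℝ} (hε : 0 < ε) (hs₀ : 0 < s₀)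
    (hNF : ∀ w ∈ St (-h) h, h - |w.im| < s₀ →
      ¬ ∀ u ∈ ball w ((h - |w.im|) / (1 + ε)), ∀ v ∈ ball w ((h - |w.im|) / (1 + ε)),
        Y.s u v = 0 → u = v) {b μ : ℕ → ℂ}
    (hD : ∀ k, Dir h (b k) (μ k)) (hd : Tendsto (fun k => h - |(b k).im|) atTop (𝓝 0))
    {t : ℂ} (ht : t ∈ HP) {η : ℝ} (hη : 0 < η)
    (hρ : (1 / 2 - t.im + η) / (1 + ε) < 1 / 2 - t.im) :
    ∃ r₁ > 0, ∀ᶠ k in atTop, ∃ p : ℂ × ℂ,
      ‖p.1 - t‖ ≤ (1 / 2 - t.im + η) / (1 + ε) ∧ ‖p.2 - t‖ ≤ (1 / 2 - t.im + η) / (1 + ε) ∧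
      r₁ ≤ ‖p.1 - p.2‖ ∧ (nrm (scl Y (b k) (μ k))).s p.1 p.2 = 0 := by
  set d : ℝ := 1 / 2 - t.im with hd'
  have hdp : 0 < d := by
    have : t.im < 1 / 2 := ht
    rw [hd']; linarith
  set ρ : ℝ := (d + η) / (1 + ε) with hρd
  have hρp : 0 < ρ := by positivity
  set C : ℝ := max C₁ 0 with hC
  have hC0 : 0 ≤ C := le_max_right _ _
  have hC1 : C₁ ≤ C := le_max_left _ _
  set δ : ℝ := min ((d - ρ) / 2) (1 / 4) with hδ
  have hδp : 0 < δ := lt_min (by linarith) (by norm_num)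
  have hδ1 : δ ≤ (d - ρ) / 2 := min_le_left _ _
  have hδ2 : δ < 1 / 2 := (min_le_right _ _).trans_lt (by norm_num)
  set M : ℝ := C / δ ^ 2 + 1 with hM
  have hMp : 0 < M := by positivity
  set r₁ : ℝ := min (min ((d - ρ) / 2) 1) (1 / (2 * M)) with hr₁
  have hr₁p : 0 < r₁ := lt_min (lt_min (by linarith) one_pos) (by positivity)
  have hr₁a : r₁ ≤ (d - ρ) / 2 := (min_le_left _ _).trans (min_le_left _ _)
  have hr₁b : r₁ ≤ 1 := (min_le_left _ _).trans (min_le_right _ _)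
  have hr₁c : r₁ ≤ 1 / (2 * M) := min_le_right _ _
  have hr₁M : M * (4 * r₁ ^ 2) ≤ 1 := by
    have hM1 : 1 ≤ M := by rw [hM]; have : 0 ≤ C / δ ^ 2 := by positivity
                           linarith
    have h1 : r₁ * (2 * M) ≤ 1 := by
      rw [le_div_iff₀ (by positivity)] at hr₁c
      exact hr₁c
    have h2 : (r₁ * (2 * M)) ^ 2 ≤ 1 := by
      rw [sq_le_one_iff_abs_le_one, abs_of_nonneg (by positivity)]
      exact h1
    have h3 : M * (4 * r₁ ^ 2) ≤ M * (4 * r₁ ^ 2) * M := by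
      have : 0 ≤ M * (4 * r₁ ^ 2) := by positivity
      nlinarith
    nlinarith
  set R : ℝ := ‖t‖ + ρ + 1 with hR
  have hRp : 0 ≤ R := by positivity
  obtain ⟨s₁, hs₁, hdw⟩ := deep_win hh hδp hδ2 hRp
  obtain ⟨s₂, hs₂, hdr⟩ := deep_ratio hh hη
  set s₃ : ℝ := min (min s₁ s₂) (s₀ / (1 + 2 * ‖t‖)) with hs₃
  have hs₃p : 0 < s₃ := lt_min (lt_min hs₁ hs₂) (by positivity)
  refine ⟨r₁, hr₁p, ?_⟩
  filter_upwards [hd.eventually_lt_const hs₃p] with k hk
  have hk1 : h - |(b k).im| < s₁ := hk.trans_le ((min_le_left _ _).trans (min_le_left _ _))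
  have hk2 : h - |(b k).im| < s₂ := hk.trans_le ((min_le_left _ _).trans (min_le_right _ _))
  have hk3 : (h - |(b k).im|) * (1 + 2 * ‖t‖) < s₀ := by
    have := hk.trans_le (min_le_right _ _)
    rwa [lt_div_iff₀ (by positivity)] at this
  have hbk := (hD k).mem
  have hDp : 0 < DS h (b k) := Pool.Agent.MP_ae5b4e_an_NB4.DS_pos hh hbk
  have hDle : DS h (b k) ≤ 2 * (h - |(b k).im|) := Pool.Agent.MP_ae5b4e_an_NB4.DS_le hh hbk
  have hrat := hdr (b k) hbk hk2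
  have hμ := (hD k).ne hh
  have hμn := (hD k).norm_sq hh
  have hwin := hdw (b k) (μ k) (hD k) hk1
  have htim : t.im ≤ 1 / 2 - δ := by
    have : t.im = 1 / 2 - d := by rw [hd']; ring
    rw [this]; linarith
  have htR : ‖t‖ ≤ R := by rw [hR]; linarith
  obtain ⟨hw1, -, hw3⟩ := hwin t htim htR
  set w : ℂ := b k + μ k ^ 2 * t with hw
  have hati : |t.im| ≤ ‖t‖ := Complex.abs_im_le_norm t
  have hwd : h - |w.im| < s₀ := by
    rw [hw3]
    have h1 : -(DS h (b k) * t.im) ≤ 2 * (h - |(b k).im|) * ‖t‖ := by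
      calc -(DS h (b k) * t.im) ≤ |DS h (b k) * t.im| := neg_le_abs _
        _ = DS h (b k) * |t.im| := by rw [abs_mul, abs_of_pos hDp]
        _ ≤ 2 * (h - |(b k).im|) * ‖t‖ := by
          apply mul_le_mul hDle hati (abs_nonneg _)
          linarith
    nlinarith
  have hrad : (h - |w.im|) / (1 + ε) ≤ DS h (b k) * ρ := by
    rw [hw3, hρd, ← mul_div_assoc]
    apply div_le_div_of_nonneg_right _ (by linarith)
    have : d = 1 / 2 - t.im := hd'
    nlinarith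
  have hnf := hNF w hw1 hwd
  push Not at hnf
  obtain ⟨u, hu, v, hv, huv, hne⟩ := hnf
  have hμ2 : μ k ^ 2 ≠ 0 := pow_ne_zero _ hμ
  have inv : ∀ z : ℂ, b k + μ k ^ 2 * ((z - b k) / μ k ^ 2) = z := by
    intro z
    rw [mul_div_cancel₀ _ hμ2]
    ring
  have dist : ∀ z ∈ ball w ((h - |w.im|) / (1 + ε)), ‖(z - b k) / μ k ^ 2 - t‖ ≤ ρ := by
    intro z hz
    have e : (z - b k) / μ k ^ 2 - t = (z - w) / μ k ^ 2 := by
      rw [hw]
      field_simp
      ring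
    rw [e, norm_div, norm_pow, hμn, div_le_iff₀ hDp]
    rw [mem_ball, dist_eq_norm] at hz
    rw [mul_comm]
    exact hz.le.trans hrad
  set x : ℂ := (u - b k) / μ k ^ 2 with hx
  set y : ℂ := (v - b k) / μ k ^ 2 with hy
  have hxt : ‖x - t‖ ≤ ρ := dist u hu
  have hyt : ‖y - t‖ ≤ ρ := dist v hv
  have hxu : b k + μ k ^ 2 * x = u := inv u
  have hyv : b k + μ k ^ 2 * y = v := inv v
  have hxy : x ≠ y := by
    intro he
    exact hne (by rw [← hxu, ← hyv, he])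
  set S : Set ℂ := {ζ | b k + μ k ^ 2 * ζ ∈ St (-h) h} with hS
  have hSo : IsOpen S := by
    have hc : Continuous fun ζ : ℂ => b k + μ k ^ 2 * ζ := by fun_prop
    exact (Pool.Agent.MP_ae5b4e_an_NBT.isOpen_St (-h) h).preimage hc
  have hZ : (scl Y (b k) (μ k)).On S := scl_on hY hμ
  have h0S : (0:ℂ) ∈ S := by
    show b k + μ k ^ 2 * 0 ∈ St (-h) h
    rw [mul_zero, add_zero]
    exact hbk
  have hZs : (scl Y (b k) (μ k)).s x y = 0 := by
    rw [s_scl, hxu, hyv, huv, mul_zero]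
  refine ⟨(x, y), hxt, hyt, ?_, ?_⟩
  · -- the node disc
    have hN : (scl Y (b k) (μ k)).Nod S y r₁ := by
      have hin : ∀ z ∈ ball y r₁, z.im ≤ 1 / 2 - δ ∧ ‖z‖ ≤ R := by
        intro z hz
        rw [mem_ball, dist_eq_norm] at hz
        have e : z = t + (y - t) + (z - y) := by ring
        constructor
        · have h1 : (y - t).im ≤ ρ := (Complex.im_le_norm _).trans hyt
          have h2 : (z - y).im ≤ r₁ := (Complex.im_le_norm _).trans hz.le
          have h3 : z.im = t.im + (y - t).im + (z - y).im := by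
            simp [Complex.sub_im]
          rw [h3]
          have : t.im = 1 / 2 - d := by rw [hd']; ring
          linarith
        · rw [e]
          refine (norm_add_le _ _).trans ?_
          have := norm_add_le t (y - t)
          rw [hR]
          linarith
      refine ⟨hr₁p, fun z hz => ?_, fun z hz => ?_⟩
      · exact (hwin z (hin z hz).1 (hin z hz).2).1
      · obtain ⟨h1, h2, -⟩ := hwin z (hin z hz).1 (hin z hz).2
        have h3 := hQ _ h1
        have h4 : ‖(scl Y (b k) (μ k)).Q z‖ ≤ C / δ ^ 2 := by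
          show ‖μ k ^ 4 * Y.Q (b k + μ k ^ 2 * z)‖ ≤ C / δ ^ 2
          rw [norm_mul, norm_pow, show ‖μ k‖ ^ 4 = (‖μ k‖ ^ 2) ^ 2 by ring, hμn,
            le_div_iff₀ (by positivity)]
          have h5 : (δ * DS h (b k)) ^ 2 ≤ DS h (b k + μ k ^ 2 * z) ^ 2 :=
            pow_le_pow_left₀ (by positivity) h2 2
          calc DS h (b k) ^ 2 * ‖Y.Q (b k + μ k ^ 2 * z)‖ * δ ^ 2
              = ‖Y.Q (b k + μ k ^ 2 * z)‖ * (δ * DS h (b k)) ^ 2 := by ring
            _ ≤ ‖Y.Q (b k + μ k ^ 2 * z)‖ * DS h (b k + μ k ^ 2 * z) ^ 2 := by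
                exact mul_le_mul_of_nonneg_left h5 (norm_nonneg _)
            _ ≤ C₁ := h3
            _ ≤ C := hC1
        calc ‖(scl Y (b k) (μ k)).Q z‖ * (4 * r₁ ^ 2) ≤ M * (4 * r₁ ^ 2) := by
              apply mul_le_mul_of_nonneg_right _ (by positivity)
              rw [hM]; linarith
          _ ≤ 1 := hr₁M
    by_contra hlt
    push Not at hlt
    have h1 := Sys.s_ne_zero hZ hSo hN (z := x - y) hlt (sub_ne_zero.2 hxy)
    rw [add_sub_cancel] at h1
    exact h1 hZs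
  · show (nrm (scl Y (b k) (μ k))).s x y = 0
    rw [nrm_s hZ h0S, hZs]

/-- (4.3)(d).  `ε` from `NF`; the limit satisfies `NFl` with `ε / 2`.  Let `t ∈ HP` and suppose that
`[v]` is injective on the ball of radius `(1/2 - Im t)/(1 + ε/2)`.  For large `k` the point
`w k = b k + μ k ^ 2 t` is in the strip, `h - |Im w k| = h - |Im b k| - DS (b k) Im t` (`deep_win`) is
small and at most `(1/2 + η - Im t) DS (b k)` (`deep_ratio`), `η` small.  So `NF` gives `x k ≠ y k` in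
the closed ball of radius `ρ < (1/2 - Im t)/(1 + ε/2)` about `t` (window coordinates) with
`s (x k) (y k) = 0`.  The curvature bound of `win_bound` on a finite cover of the closed ball (or
`deep_win` directly) and `Sys.s_ne_zero` (node disc of radius `r₁`, `4 r₁² M ≤ 1`) give
`|x k - y k| ≥ r₁`.  Along an ultrafilter `x k → x`, `y k → y`, `|x - y| ≥ r₁`, and `v.s x y = 0`
(`Cvg.cv`), a contradiction. -/
theorem nf_limit (hh : 0 < h) (hY : Y.On (St (-h) h)) (hNF : NF Y h)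
    (hQ : ∀ l ∈ St (-h) h, ‖Y.Q l‖ * DS h l ^ 2 ≤ C₁) {b μ : ℕ → ℂ}
    (hD : ∀ k, Dir h (b k) (μ k)) (hd : Tendsto (fun k => h - |(b k).im|) atTop (𝓝 0))
    {v : Sys} (hv : Cvg (fun k => nrm (scl Y (b k) (μ k))) v) : NFl v := by
  obtain ⟨ε, hε, s₀, hs₀, hnf⟩ := hNF
  refine ⟨ε / 2, by positivity, fun t ht hinj => ?_⟩
  set d : ℝ := 1 / 2 - t.im with hd'
  have hdp : 0 < d := by
    have : t.im < 1 / 2 := ht
    rw [hd']; linarith
  set η : ℝ := d * ε / (4 * (1 + ε / 2)) with hη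
  have hηp : 0 < η := by positivity
  have hρ : (d + η) / (1 + ε) < d / (1 + ε / 2) := by
    rw [div_lt_div_iff₀ (by positivity) (by positivity)]
    have h1 : η * (1 + ε / 2) = d * ε / 4 := by
      rw [hη]; field_simp
    have h2 : 0 < d * ε := by positivity
    nlinarith
  have hρ2 : d / (1 + ε / 2) < d := by
    rw [div_lt_iff₀ (by positivity)]
    have : 0 < d * ε := by positivity
    nlinarith
  obtain ⟨r₁, hr₁, hev⟩ := nf_step hh hY hQ hε hs₀ hnf hD hd ht hηp (hρ.trans hρ2)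
  obtain ⟨f, hf⟩ := hev.choice
  set l : Ultrafilter ℕ := hyperfilter ℕ with hl
  have hlt : (l : Filter ℕ) ≤ atTop := Nat.hyperfilter_le_atTop
  set ρ : ℝ := (d + η) / (1 + ε) with hρd
  have lim : ∀ g : ℕ → ℂ, (∀ᶠ k in atTop, ‖g k - t‖ ≤ ρ) →
      ∃ x ∈ closedBall t ρ, Tendsto g l (𝓝 x) := by
    intro g hg
    have h1 : ((l.map g : Ultrafilter ℂ) : Filter ℂ) ≤ 𝓟 (closedBall t ρ) := by
      rw [le_principal_iff]
      have h2 : ∀ᶠ k in (l : Filter ℕ), ‖g k - t‖ ≤ ρ := hlt hg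
      show g ⁻¹' closedBall t ρ ∈ (l : Filter ℕ)
      filter_upwards [h2] with k hk
      simpa [mem_closedBall, dist_eq_norm] using hk
    obtain ⟨x, hx, hx'⟩ := (isCompact_closedBall t ρ).ultrafilter_le_nhds _ h1
    exact ⟨x, hx, hx'⟩
  obtain ⟨x, hx, hxt⟩ := lim (fun k => (f k).1) (hf.mono fun k hk => hk.1)
  obtain ⟨y, hy, hyt⟩ := lim (fun k => (f k).2) (hf.mono fun k hk => hk.2.1)
  have hball : closedBall t ρ ⊆ ball t (d / (1 + ε / 2)) := closedBall_subset_ball hρ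
  have hHP : closedBall t ρ ⊆ HP := by
    intro z hz
    rw [mem_closedBall, dist_eq_norm] at hz
    show z.im < 1 / 2
    have h1 : (z - t).im ≤ ρ := (Complex.im_le_norm _).trans hz
    rw [Complex.sub_im] at h1
    have h2 : ρ < d := hρ.trans hρ2
    rw [hd'] at h2
    linarith
  have hs : v.s x y = 0 := by
    have c1 := (hv.cv l hlt _ x (hHP hx) hxt).1
    have c2 := (hv.cv l hlt _ y (hHP hy) hyt).1
    have c3 := cont_wdg c2 c1
    have c4 : Tendsto (fun _ : ℕ => (0:ℂ)) (l : Filter ℕ) (𝓝 0) := tendsto_const_nhds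
    have c5 : ∀ᶠ k in (l : Filter ℕ), (nrm (scl Y (b k) (μ k))).s (f k).1 (f k).2 = 0 :=
      hlt (hf.mono fun k hk => hk.2.2.2)
    have c6 : Tendsto (fun k => wdg (uu (nrm (scl Y (b k) (μ k))) (f k).2)
        (uu (nrm (scl Y (b k) (μ k))) (f k).1)) (l : Filter ℕ) (𝓝 0) := by
      refine c4.congr' ?_
      filter_upwards [c5] with k hk
      exact hk.symm
    exact tendsto_nhds_unique c3 c6
  have hxy := hinj x (hball hx) y (hball hy) hs
  have hn : r₁ ≤ ‖x - y‖ := by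
    have c1 : Tendsto (fun k => ‖(f k).1 - (f k).2‖) (l : Filter ℕ) (𝓝 ‖x - y‖) :=
      (hxt.sub hyt).norm
    exact ge_of_tendsto c1 (hlt (hf.mono fun k hk => hk.2.2.1))
  rw [hxy, sub_self, norm_zero] at hn
  linarith

end Pool.Agent.MP_ae5b4e_an_NB4C
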