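import Pool.Agent.Lib.MP_ae5b4e_an_NB4C.LDefs
import Pool.Agent.Lib.MP_ae5b4e_an_NB4.Nd

/-!
# MP_ae5b4e_an, NB_4 part C, module LNode: the homogeneous node relation
-/

noncomputable section

namespace Pool.Agent.MP_ae5b4e_an_NB4C

open Complex Set Filter Topology Metric
open Pool.Agent.MP_ae5b4e_an_NBT (St)
open Pool.Agent.MP_ae5b4e_an_NB2 (Sys)
open Pool.Agent.MP_ae5b4e_an_NB4 (wdg uu uu' Per FF lab nd)

variable {Y : Sys} {h : ℝ} {q : ℕ} [NeZero q] {π₀ : ℂ} {z : ZMod q → ℂ}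

private theorem LNode_mem {w : ℂ} (hw : w ∈ St (-h) h) (m : ℤ) : w + m ∈ St (-h) h := by
  have e : (w + m).im = w.im := by simp
  show -h < (w + m).im ∧ (w + m).im < h
  rw [e]
  exact hw

/-- translation by an integer multiplies the values by a number of square one (induction; for
negative `m` use `w - 1` in `Per`) -/
theorem per_int (hP : Per Y h) (m : ℤ) : ∃ η : ℂ, η ^ 2 = 1 ∧ ∀ w ∈ St (-h) h,
    uu Y (w + m) = η • uu Y w ∧ uu' Y (w + m) = η • uu' Y w := by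
  obtain ⟨ε, hε, hp⟩ := hP.ex
  have hp' : ∀ w ∈ St (-h) h, uu Y (w + 1) = ε • uu Y w ∧ uu' Y (w + 1) = ε • uu' Y w := by
    intro w hw
    obtain ⟨h1, h2, h3, h4⟩ := hp w hw
    constructor
    · unfold uu; rw [h1, h2]; rfl
    · unfold uu'; rw [h3, h4]; rfl
  induction m using Int.induction_on with
  | zero => exact ⟨1, by norm_num, fun w _ => by simp⟩
  | succ i ih =>
    obtain ⟨η, hη, hh⟩ := ih
    refine ⟨ε * η, by rw [mul_pow, hε, hη, one_mul], fun w hw => ?_⟩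
    have e : w + (((i : ℤ) + 1 : ℤ) : ℂ) = (w + ((i : ℤ) : ℂ)) + 1 := by push_cast; ring
    rw [e]
    obtain ⟨h1, h2⟩ := hp' _ (LNode_mem hw (i : ℤ))
    obtain ⟨h3, h4⟩ := hh w hw
    rw [h1, h2, h3, h4, smul_smul, smul_smul]
    exact ⟨rfl, rfl⟩
  | pred i ih =>
    obtain ⟨η, hη, hh⟩ := ih
    refine ⟨ε * η, by rw [mul_pow, hε, hη, one_mul], fun w hw => ?_⟩
    have hw' := LNode_mem hw (-(i : ℤ) - 1)
    obtain ⟨h1, h2⟩ := hp' _ hw'
    obtain ⟨h3, h4⟩ := hh w hw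
    have e : (w + ((-(i : ℤ) - 1 : ℤ) : ℂ)) + 1 = w + ((-(i : ℤ) : ℤ) : ℂ) := by push_cast; ring
    rw [e] at h1 h2
    rw [mul_smul, mul_smul, ← h3, ← h4, h1, h2, smul_smul, smul_smul, ← sq, hε, one_smul,
      one_smul]
    exact ⟨rfl, rfl⟩

private theorem LNode_ex (hP : Per Y h) (hz : z ∈ FF Y h q π₀) (n : ℤ) : ∃ η : ℂ, η ≠ 0 ∧
    uu Y (lab q z n) = η • uu Y (z (n : ZMod q)) ∧
    uu' Y (lab q z n) = η • uu' Y (z (n : ZMod q)) := by
  obtain ⟨η, hη, hh⟩ := per_int hP (n / (q : ℤ))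
  refine ⟨η, ?_, hh _ (hz.1 _)⟩
  rintro rfl
  norm_num at hη

private theorem LNode_c (w l : ℂ) : Y.c w l = wdg (uu Y w) (uu' Y l) := by
  simp only [Sys.c, wdg, uu, uu']
  ring

private theorem LNode_s (w l : ℂ) : Y.s w l = wdg (uu Y l) (uu Y w) := by
  simp only [Sys.s, wdg, uu]

private theorem LNode_smul (a b : ℂ) (u v : ℂ × ℂ) : wdg (a • u) (b • v) = a * b * wdg u v := by
  simp only [wdg, Prod.smul_fst, Prod.smul_snd, smul_eq_mul]
  ring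

/-- `c w l = wdg (uu w) (uu' l)`, `s w l = wdg (uu l) (uu w)`, and the values at `lab n` are `± 1`
times the values at `z n`; the node function is a sum of two products which are both multiplied by
`η (n + 1) η n η n η (n - 1)` -/
theorem node_hom (hP : Per Y h) (hz : z ∈ FF Y h q π₀) (n : ℤ) :
    wdg (uu Y (z ((n + 1 : ℤ) : ZMod q))) (uu' Y (z (n : ZMod q))) *
        wdg (uu Y (z (n : ZMod q))) (uu Y (z ((n - 1 : ℤ) : ZMod q))) +
      wdg (uu Y (z ((n - 1 : ℤ) : ZMod q))) (uu' Y (z (n : ZMod q))) *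
        wdg (uu Y (z (n : ZMod q))) (uu Y (z ((n + 1 : ℤ) : ZMod q))) = 0 := by
  obtain ⟨η0, hη0, e0, e0'⟩ := LNode_ex hP hz n
  obtain ⟨η1, hη1, e1, -⟩ := LNode_ex hP hz (n + 1)
  obtain ⟨η2, hη2, e2, -⟩ := LNode_ex hP hz (n - 1)
  have hnd := hz.2.1 n
  unfold nd at hnd
  rw [LNode_c, LNode_c, LNode_s, LNode_s, e0, e0', e1, e2, LNode_smul, LNode_smul, LNode_smul,
    LNode_smul] at hnd
  have hne : η1 * η0 * (η0 * η2) ≠ 0 :=
    mul_ne_zero (mul_ne_zero hη1 hη0) (mul_ne_zero hη0 hη2)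
  refine (mul_eq_zero.1 ?_).resolve_left hne
  linear_combination hnd

/-- from `side_ne` -/
theorem side_hom (hP : Per Y h) (h0 : π₀ ≠ 0) (hz : z ∈ FF Y h q π₀) (n : ℤ) :
    wdg (uu Y (z (n : ZMod q))) (uu Y (z ((n + 1 : ℤ) : ZMod q))) ≠ 0 := by
  obtain ⟨η0, hη0, e0, -⟩ := LNode_ex hP hz n
  obtain ⟨η1, hη1, e1, -⟩ := LNode_ex hP hz (n + 1)
  have h1 := Pool.Agent.MP_ae5b4e_an_NB4.side_ne hP h0 hz n
  rw [LNode_s, e0, e1, LNode_smul] at h1
  intro h2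
  rw [h2, mul_zero] at h1
  exact h1 rfl

end Pool.Agent.MP_ae5b4e_an_NB4C
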