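import Pool.Agent.Lib.MP_ae5b4e_an_NB4C.LSep
import Pool.Agent.Lib.MP_ae5b4e_an_NB4C.LPole

/-!
# MP_ae5b4e_an, NB_4 part C, module LState: the limit of a sequence of chains
-/

noncomputable section

namespace Pool.Agent.MP_ae5b4e_an_NB4C

open Complex Set Filter Topology Metric
open Pool.Agent.MP_ae5b4e_an_NB4 (wdg)

private theorem wdg_tendsto' {l : Filter ℕ} {a b : ℕ → ℂ × ℂ} {a₀ b₀ : ℂ × ℂ}
    (ha : Tendsto a l (𝓝 a₀)) (hb : Tendsto b l (𝓝 b₀)) :
    Tendsto (fun k => wdg (a k) (b k)) l (𝓝 (wdg a₀ b₀)) := by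
  unfold wdg
  have h1 := (continuous_fst.tendsto a₀).comp ha
  have h2 := (continuous_snd.tendsto a₀).comp ha
  have h3 := (continuous_fst.tendsto b₀).comp hb
  have h4 := (continuous_snd.tendsto b₀).comp hb
  exact (h1.mul h4).sub (h2.mul h3)

private theorem wdg_smul' (c d : ℂ) (x y : ℂ × ℂ) : wdg (c • x) (d • y) = c * d * wdg x y := by
  simp only [wdg, Prod.smul_fst, Prod.smul_snd, smul_eq_mul]
  ring

/-- scaling: for every `n` a scaling factor and a limit -/
private theorem exists_scale (l : Ultrafilter ℕ) {q : ℕ} {p : ℕ → ℤ → ℂ × ℂ}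
    (hp : ∀ k n, p k n ≠ 0) (per : ∀ k n, p k (n + q) = p k n) {x₀ : ℂ × ℂ}
    (h0 : Tendsto (fun k => p k 0) l (𝓝 x₀)) (hx : x₀ ≠ 0) :
    ∃ (c : ℤ → ℕ → ℂ) (X : ℤ → ℂ × ℂ), (∀ n k, c n k ≠ 0) ∧ (∀ n, X n ≠ 0) ∧
      (∀ n, Tendsto (fun k => c n k • p k n) l (𝓝 (X n))) ∧ X 0 = x₀ := by
  have hmul : ∀ k (m : ℤ), p k (m * q) = p k 0 := by
    intro k m
    induction m using Int.induction_on with
    | zero => simp
    | succ i ih => rw [← ih, add_mul, one_mul, per]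
    | pred i ih =>
      rw [← ih, ← per k ((-(i : ℤ) - 1) * q)]
      congr 1
      ring
  have key : ∀ n : ℤ, ∃ (c : ℕ → ℂ) (X : ℂ × ℂ), (∀ k, c k ≠ 0) ∧ X ≠ 0 ∧
      Tendsto (fun k => c k • p k n) l (𝓝 X) ∧ (n = 0 → X = x₀) := by
    intro n
    by_cases hn : (q : ℤ) ∣ n
    · obtain ⟨m, rfl⟩ := hn
      refine ⟨fun _ => 1, x₀, fun _ => one_ne_zero, hx, ?_, fun _ => rfl⟩
      refine h0.congr fun k => ?_
      rw [mul_comm, hmul, one_smul]
    · have hb : ∀ᶠ k in (l : Filter ℕ), ‖((‖p k n‖ : ℂ)⁻¹) • p k n‖ ≤ 1 := by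
        refine Eventually.of_forall fun k => ?_
        rw [norm_smul, norm_inv, Complex.norm_real, norm_norm,
          inv_mul_cancel₀ (norm_ne_zero_iff.2 (hp k n))]
      obtain ⟨X, hX⟩ := exists_ulim l hb
      refine ⟨fun k => (‖p k n‖ : ℂ)⁻¹, X, fun k => ?_, ?_, hX, ?_⟩
      · exact inv_ne_zero (Complex.ofReal_ne_zero.2 (norm_ne_zero_iff.2 (hp k n)))
      · have h1 : Tendsto (fun k => ‖((‖p k n‖ : ℂ)⁻¹) • p k n‖) l (𝓝 ‖X‖) := hX.norm
        have h2 : Tendsto (fun k => ‖((‖p k n‖ : ℂ)⁻¹) • p k n‖) l (𝓝 1) := by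
          refine tendsto_const_nhds.congr fun k => ?_
          rw [norm_smul, norm_inv, Complex.norm_real, norm_norm,
            inv_mul_cancel₀ (norm_ne_zero_iff.2 (hp k n))]
        have h3 := tendsto_nhds_unique h1 h2
        intro h
        rw [h, norm_zero] at h3
        exact zero_ne_one h3
      · rintro rfl
        exact absurd (dvd_zero _) hn
  choose c X h1 h2 h3 h4 using key
  exact ⟨c, X, h1, h2, h3, h4 0 rfl⟩

private theorem wdg_self (a : ℂ × ℂ) : wdg a a = 0 := by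
  unfold wdg
  ring

private theorem wdg_comm (a b : ℂ × ℂ) : wdg a b = -wdg b a := by
  unfold wdg
  ring

/-- parallelism is transitive -/
private theorem par_trans {a b c : ℂ × ℂ} (hb : b ≠ 0) (h1 : wdg a b = 0) (h2 : wdg b c = 0) :
    wdg a c = 0 := by
  unfold wdg at *
  by_cases hb1 : b.1 = 0
  · have hb2 : b.2 ≠ 0 := fun h => hb (Prod.ext hb1 h)
    apply mul_left_cancel₀ hb2
    linear_combination c.2 * h1 + a.2 * h2
  · apply mul_left_cancel₀ hb1
    linear_combination c.1 * h1 + a.1 * h2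

/-- (4.3).  Let `X n` be the limit of the unit vectors in the directions of `p k n` for `n` not a
multiple of `q`, and the limit `x₀` of `p k 0` for the multiples (`exists_ulim`; the norm is
continuous, so the limits of unit vectors are not `0`); the same for `Y n`.  All relations pass to the
limit (they are homogeneous: multiply the relation at the level `k` by the scaling factors).  The last
clause: if `X 1`, `X 0` are parallel and `x₀` is not parallel to the poles, then (induction on `n`, with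
the relation at `n`) all `X n`, `0 ≤ n ≤ q`, are parallel to `x₀` and `Y n` is parallel to `e n`, not to
`X n`, `1 ≤ n < q`: contradiction to `sep_limit`. -/
theorem state_limit (l : Ultrafilter ℕ) {q : ℕ} (hq : 2 ≤ q) {e : ℤ → ℂ × ℂ}
    {p p' : ℕ → ℤ → ℂ × ℂ} (hp : ∀ k n, p k n ≠ 0) (hp' : ∀ k n, p' k n ≠ 0)
    (per : ∀ k n, p k (n + q) = p k n) (per' : ∀ k n, p' k (n + q) = p' k n)
    (node : ∀ k n, wdg (p k (n + 1)) (p' k n) * wdg (p k n) (p k (n - 1)) +
      wdg (p k (n - 1)) (p' k n) * wdg (p k n) (p k (n + 1)) = 0)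
    (side : ∀ k n, wdg (p k n) (p k (n + 1)) ≠ 0) {x₀ w₀ : ℂ × ℂ}
    (h0 : Tendsto (fun k => p k 0) l (𝓝 x₀)) (h0' : Tendsto (fun k => p' k 0) l (𝓝 w₀))
    (hxw : wdg x₀ w₀ ≠ 0)
    (pole : ∀ n, ¬ (q : ℤ) ∣ n → ∀ (x y : ℕ → ℂ × ℂ) (xl yl : ℂ × ℂ), Tendsto x l (𝓝 xl) →
      Tendsto y l (𝓝 yl) → (∀ k, wdg (x k) (p k n) = 0) → (∀ k, wdg (y k) (p' k n) = 0) →
      wdg xl (e n) = 0 ∨ wdg yl (e n) = 0) (he : ∀ n, e n ≠ 0) :
    ∃ X Y : ℤ → ℂ × ℂ, (∀ n, X n ≠ 0) ∧ (∀ n, Y n ≠ 0) ∧ (∀ n, wdg (X (n + q)) (X n) = 0) ∧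
      (∀ n, wdg (X (n + 1)) (Y n) * wdg (X n) (X (n - 1)) +
        wdg (X (n - 1)) (Y n) * wdg (X n) (X (n + 1)) = 0) ∧
      (∀ n, ¬ (q : ℤ) ∣ n → wdg (X n) (e n) = 0 ∨ wdg (Y n) (e n) = 0) ∧ X 0 = x₀ ∧ Y 0 = w₀ ∧
      ((∀ n, ¬ (q : ℤ) ∣ n → wdg x₀ (e n) ≠ 0) → wdg (X 1) (X 0) ≠ 0) := by
  have hx0 : x₀ ≠ 0 := by
    rintro rfl
    apply hxw
    simp [wdg]
  have hw0 : w₀ ≠ 0 := by
    rintro rfl
    apply hxw
    simp [wdg]
  obtain ⟨c, X, hc, hX, tX, X0⟩ := exists_scale l hp per h0 hx0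
  obtain ⟨d, Y, hd, hY, tY, Y0⟩ := exists_scale l hp' per' h0' hw0
  have hper : ∀ n, wdg (X (n + q)) (X n) = 0 := by
    intro n
    refine tendsto_nhds_unique (wdg_tendsto' (tX (n + q)) (tX n)) ?_
    refine tendsto_const_nhds.congr fun k => ?_
    rw [wdg_smul', per, wdg_self, mul_zero]
  have hnode : ∀ n, wdg (X (n + 1)) (Y n) * wdg (X n) (X (n - 1)) +
      wdg (X (n - 1)) (Y n) * wdg (X n) (X (n + 1)) = 0 := by
    intro n
    refine tendsto_nhds_unique (((wdg_tendsto' (tX (n + 1)) (tY n)).mul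
      (wdg_tendsto' (tX n) (tX (n - 1)))).add ((wdg_tendsto' (tX (n - 1)) (tY n)).mul
      (wdg_tendsto' (tX n) (tX (n + 1))))) ?_
    refine tendsto_const_nhds.congr fun k => ?_
    simp only [wdg_smul']
    linear_combination (-(c (n + 1) k * d n k * c n k * c (n - 1) k)) * node k n
  have hpole : ∀ n, ¬ (q : ℤ) ∣ n → wdg (X n) (e n) = 0 ∨ wdg (Y n) (e n) = 0 := by
    intro n hn
    refine pole n hn _ _ _ _ (tX n) (tY n) (fun k => ?_) (fun k => ?_)
    · have := wdg_smul' (c n k) 1 (p k n) (p k n)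
      rw [one_smul, wdg_self, mul_zero] at this
      exact this
    · have := wdg_smul' (d n k) 1 (p' k n) (p' k n)
      rw [one_smul, wdg_self, mul_zero] at this
      exact this
  refine ⟨X, Y, hX, hY, hper, hnode, hpole, X0, Y0, fun hav h10 => ?_⟩
  have hnd : ∀ n : ℕ, 1 ≤ n → n < q → ¬ (q : ℤ) ∣ (n : ℤ) := by
    intro n h1 h2 h
    have h3 : q ∣ n := by exact_mod_cast h
    exact absurd (Nat.le_of_dvd (by omega) h3) (by omega)
  -- transversality at nodes parallel to `x₀`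
  have htr : ∀ n : ℕ, 1 ≤ n → n < q → wdg (X n) x₀ = 0 → wdg (Y n) (X n) ≠ 0 := by
    intro n h1 h2 h3 h4
    have h5 : wdg (X n) (e n) ≠ 0 := by
      intro h6
      apply hav n (hnd n h1 h2)
      refine par_trans (hX n) ?_ h6
      rw [wdg_comm, h3, neg_zero]
    have h6 : wdg (Y n) (e n) = 0 := (hpole n (hnd n h1 h2)).resolve_left h5
    apply h5
    refine par_trans (hY n) ?_ h6
    rw [wdg_comm, h4, neg_zero]
  have hpar : ∀ n : ℕ, n ≤ q → wdg (X n) x₀ = 0 ∧ (n + 1 ≤ q → wdg (X (n + 1 : ℤ)) x₀ = 0) := by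
    intro n
    induction n with
    | zero =>
      intro _
      refine ⟨by rw [Nat.cast_zero, X0, wdg_self], fun _ => ?_⟩
      rw [Nat.cast_zero, zero_add, ← X0]
      exact h10
    | succ n ih =>
      intro h
      obtain ⟨i1, i2⟩ := ih (by omega)
      have i3 := i2 h
      refine ⟨by push_cast; exact i3, fun h2 => ?_⟩
      have hn := hnode ((n : ℤ) + 1)
      have e1 : (n : ℤ) + 1 - 1 = n := by ring
      rw [e1] at hn
      have h3 : wdg (X ((n : ℤ) + 1)) (X n) = 0 := by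
        refine par_trans hx0 i3 ?_
        rw [wdg_comm, i1, neg_zero]
      rw [h3, mul_zero, zero_add] at hn
      have h4 : wdg (X n) (Y ((n : ℤ) + 1)) ≠ 0 := by
        intro h5
        have h6 := htr (n + 1) (by omega) (by omega) (by push_cast; exact i3)
        push_cast at h6
        apply h6
        rw [wdg_comm]
        have h7 : wdg (X ((n : ℤ) + 1)) (Y ((n : ℤ) + 1)) = 0 := par_trans (hX n) h3 h5
        rw [h7, neg_zero]
      have h5 : wdg (X ((n : ℤ) + 1)) (X ((n : ℤ) + 1 + 1)) = 0 := (mul_eq_zero.1 hn).resolve_left h4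
      push_cast
      refine par_trans (hX ((n : ℤ) + 1)) ?_ i3
      rw [wdg_comm, h5, neg_zero]
  refine sep_limit (l := (l : Filter ℕ)) (q := q) (by omega)
    (X := fun k n => c n k • p k n) (W := fun k n => d n k • p' k n)
    (Xl := fun n => X n) (Wl := fun n => Y n) (fun n => tX n) (fun n => tY n) ?_ ?_ ?_ ?_ ?_ ?_
  · intro k
    have h1 := per k 0
    rw [zero_add] at h1
    simp only [wdg_smul', Nat.cast_zero]
    rw [h1, wdg_self, mul_zero]
  · intro k n h1 h2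
    have hn := node k n
    have e1 : ((n - 1 : ℕ) : ℤ) = (n : ℤ) - 1 := by omega
    simp only [wdg_smul', e1, Nat.cast_add, Nat.cast_one]
    linear_combination (c (n + 1) k * d n k * c n k * c (n - 1) k) * hn
  · intro k n hn
    simp only [wdg_smul', Nat.cast_add, Nat.cast_one]
    exact mul_ne_zero (mul_ne_zero (hc _ _) (hc _ _)) (side k n)
  · intro n hn
    simp only [Nat.cast_zero, X0]
    exact (hpar n hn).1
  · intro n hn
    exact hX n
  · intro n h1 h2
    exact htr n h1 h2 (hpar n h2.le).1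

end Pool.Agent.MP_ae5b4e_an_NB4C
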