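import Mathlib

/-!
# MP_ae5b4e_an, NB_4 part C, module LGron: Gronwall's bound on a segment
-/

noncomputable section

namespace Pool.Agent.MP_ae5b4e_an_NB4C

open Complex Set Filter Topology Metric

/-- Gronwall for `t ↦ (y (t ζ), y' (t ζ))`, `t ∈ [0, 1]`, with the sup norm of `ℂ × ℂ`
(`norm_le_gronwallBound_of_norm_deriv_right_le`): the derivative is `(ζ y', -ζ Q y)`, of norm
`≤ C |ζ|` times the norm; the value at `0` has norm `≤ 1`. -/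
theorem gron {y y' Q : ℂ → ℂ} {ζ : ℂ} {C : ℝ} (hC : 1 ≤ C)
    (h1 : ∀ w ∈ segment ℝ 0 ζ, HasDerivAt y (y' w) w)
    (h2 : ∀ w ∈ segment ℝ 0 ζ, HasDerivAt y' (-(Q w * y w)) w)
    (hQ : ∀ w ∈ segment ℝ 0 ζ, ‖Q w‖ ≤ C) (h0 : ‖y 0‖ ≤ 1) (h0' : ‖y' 0‖ ≤ 1) :
    ‖y ζ‖ ≤ Real.exp (C * ‖ζ‖) ∧ ‖y' ζ‖ ≤ Real.exp (C * ‖ζ‖) := by
  have hseg : ∀ t ∈ Icc (0:ℝ) 1, (t : ℂ) * ζ ∈ segment ℝ 0 ζ := by
    intro t ht
    refine ⟨1 - t, t, by linarith [ht.2], ht.1, by ring, ?_⟩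
    rw [smul_zero, zero_add, Complex.real_smul]
  have hin : ∀ t : ℝ, HasDerivAt (fun s : ℝ => (s : ℂ) * ζ) ζ t := by
    intro t
    have := (Complex.ofRealCLM.hasDerivAt (x := t)).mul_const ζ
    simpa using this
  have hd1 : ∀ t ∈ Icc (0:ℝ) 1, HasDerivAt (fun s : ℝ => y ((s : ℂ) * ζ))
      (y' ((t : ℂ) * ζ) * ζ) t := fun t ht =>
    HasDerivAt.comp (h₂ := y) (h := fun s : ℝ => (s : ℂ) * ζ) t (h1 _ (hseg t ht)) (hin t)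
  have hd2 : ∀ t ∈ Icc (0:ℝ) 1, HasDerivAt (fun s : ℝ => y' ((s : ℂ) * ζ))
      (-(Q ((t : ℂ) * ζ) * y ((t : ℂ) * ζ)) * ζ) t := fun t ht =>
    HasDerivAt.comp (h₂ := y') (h := fun s : ℝ => (s : ℂ) * ζ) t (h2 _ (hseg t ht)) (hin t)
  have hd : ∀ t ∈ Icc (0:ℝ) 1, HasDerivAt (fun s : ℝ => (y ((s : ℂ) * ζ), y' ((s : ℂ) * ζ)))
      (y' ((t : ℂ) * ζ) * ζ, -(Q ((t : ℂ) * ζ) * y ((t : ℂ) * ζ)) * ζ) t := fun t ht =>
    (hd1 t ht).prodMk (hd2 t ht)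
  have key := norm_le_gronwallBound_of_norm_deriv_right_le (δ := 1) (K := C * ‖ζ‖) (ε := 0)
    (f := fun s : ℝ => (y ((s : ℂ) * ζ), y' ((s : ℂ) * ζ)))
    (f' := fun t : ℝ => (y' ((t : ℂ) * ζ) * ζ, -(Q ((t : ℂ) * ζ) * y ((t : ℂ) * ζ)) * ζ))
    (a := 0) (b := 1)
    (fun t ht => (hd t ht).continuousAt.continuousWithinAt)
    (fun t ht => (hd t (Ico_subset_Icc_self ht)).hasDerivWithinAt)
    (by
      simp only [Complex.ofReal_zero, zero_mul]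
      exact max_le h0 h0')
    (by
      intro t ht
      have hq := hQ _ (hseg t (Ico_subset_Icc_self ht))
      have hζ := norm_nonneg ζ
      have e1 : ‖y ((t : ℂ) * ζ)‖ ≤ ‖(y ((t : ℂ) * ζ), y' ((t : ℂ) * ζ))‖ := le_max_left _ _
      have e2 : ‖y' ((t : ℂ) * ζ)‖ ≤ ‖(y ((t : ℂ) * ζ), y' ((t : ℂ) * ζ))‖ := le_max_right _ _
      rw [add_zero]
      refine max_le ?_ ?_
      · show ‖y' ((t : ℂ) * ζ) * ζ‖ ≤ _
        rw [norm_mul, mul_comm]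
        refine mul_le_mul ?_ e2 (norm_nonneg _) (mul_nonneg (by linarith) hζ)
        nlinarith
      · show ‖-(Q ((t : ℂ) * ζ) * y ((t : ℂ) * ζ)) * ζ‖ ≤ _
        rw [norm_mul, norm_neg, norm_mul]
        have e3 : ‖Q ((t : ℂ) * ζ)‖ * ‖y ((t : ℂ) * ζ)‖ ≤
            C * ‖(y ((t : ℂ) * ζ), y' ((t : ℂ) * ζ))‖ :=
          mul_le_mul hq e1 (norm_nonneg _) (by linarith)
        calc _ ≤ C * ‖(y ((t : ℂ) * ζ), y' ((t : ℂ) * ζ))‖ * ‖ζ‖ :=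
              mul_le_mul_of_nonneg_right e3 hζ
          _ = _ := by ring)
  have h3 := key 1 (right_mem_Icc.2 zero_le_one)
  rw [gronwallBound_ε0] at h3
  simp only [Complex.ofReal_one, one_mul, sub_zero, mul_one] at h3
  exact ⟨(le_max_left _ _).trans h3, (le_max_right _ _).trans h3⟩

end Pool.Agent.MP_ae5b4e_an_NB4C
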