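import Pool.Agent.Lib.MP_ae5b4e_an_NB4C.LSys
import Pool.Agent.Lib.MP_ae5b4e_an_NB4C.LGron
import Pool.Agent.Lib.MP_ae5b4e_an_NB4C.LDeep

/-!
# MP_ae5b4e_an, NB_4 part C, module LWin: bounds in the windows
-/

noncomputable section

namespace Pool.Agent.MP_ae5b4e_an_NB4C

open Complex Set Filter Topology Metric
open Pool.Agent.MP_ae5b4e_an_NBT (St)
open Pool.Agent.MP_ae5b4e_an_NB2 (Sys)
open Pool.Agent.MP_ae5b4e_an_NB4 (wdg uu uu' DS)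

variable {Y : Sys} {h C₁ : ℝ}

/-- the coefficient in the window -/
private theorem lwin_Q (hh : 0 < h) (hQ : ∀ l ∈ St (-h) h, ‖Y.Q l‖ * DS h l ^ 2 ≤ C₁)
    {b μ ζ : ℂ} (hD : Dir h b μ) {c : ℝ} (hc : 0 < c) (hz : b + μ ^ 2 * ζ ∈ St (-h) h)
    (hz2 : c * DS h b ≤ DS h (b + μ ^ 2 * ζ)) : ‖(scl Y b μ).Q ζ‖ ≤ C₁ / c ^ 2 := by
  have h1 : ‖(scl Y b μ).Q ζ‖ = DS h b ^ 2 * ‖Y.Q (b + μ ^ 2 * ζ)‖ := by
    show ‖μ ^ 4 * Y.Q (b + μ ^ 2 * ζ)‖ = _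
    rw [norm_mul, norm_pow, ← hD.norm_sq hh]
    ring
  have hb : 0 < DS h b := Pool.Agent.MP_ae5b4e_an_NB4.DS_pos hh hD.mem
  rw [h1, le_div_iff₀ (by positivity)]
  have h2 : (c * DS h b) ^ 2 ≤ DS h (b + μ ^ 2 * ζ) ^ 2 :=
    pow_le_pow_left₀ (by positivity) hz2 2
  have h3 := mul_le_mul_of_nonneg_left h2 (norm_nonneg (Y.Q (b + μ ^ 2 * ζ)))
  calc DS h b ^ 2 * ‖Y.Q (b + μ ^ 2 * ζ)‖ * c ^ 2 =
      ‖Y.Q (b + μ ^ 2 * ζ)‖ * (c * DS h b) ^ 2 := by ring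
    _ ≤ ‖Y.Q (b + μ ^ 2 * ζ)‖ * DS h (b + μ ^ 2 * ζ) ^ 2 := h3
    _ ≤ C₁ := hQ _ hz

/-- Gronwall for the four functions -/
private theorem lwin_gron {Z : Sys} {S : Set ℂ} (hZ : Z.On S) {ζ : ℂ} {C : ℝ} (hC : 1 ≤ C)
    (hS : segment ℝ 0 ζ ⊆ S) (hQ : ∀ w ∈ segment ℝ 0 ζ, ‖Z.Q w‖ ≤ C) :
    (‖(nrm Z).y1 ζ‖ ≤ Real.exp (C * ‖ζ‖) ∧ ‖(nrm Z).y1' ζ‖ ≤ Real.exp (C * ‖ζ‖)) ∧
    (‖(nrm Z).y2 ζ‖ ≤ Real.exp (C * ‖ζ‖) ∧ ‖(nrm Z).y2' ζ‖ ≤ Real.exp (C * ‖ζ‖)) := by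
  have h0 : (0:ℂ) ∈ S := hS (left_mem_segment ℝ 0 ζ)
  have hN := nrm_on hZ h0
  obtain ⟨e1, e2, e3, e4⟩ := nrm_zero hZ h0
  constructor
  · exact gron (Q := Z.Q) hC (fun w hw => hN.d1 w (hS hw)) (fun w hw => hN.d1' w (hS hw)) hQ
      (by rw [e1, norm_one]) (by rw [e2, norm_zero]; exact zero_le_one)
  · exact gron (Q := Z.Q) hC (fun w hw => hN.d2 w (hS hw)) (fun w hw => hN.d2' w (hS hw)) hQ
      (by rw [e3, norm_zero]; exact zero_le_one) (by rw [e4, norm_one])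

/-- In the window `|Q| = DS b ^ 2 |Y.Q z| ≤ C₁ (DS b / DS z) ^ 2 ≤ 4 C₁` on `|ζ| ≤ 1/4` (`near_win`);
`gron` for `y1` (initial values `1, 0`) and `y2` (initial values `0, 1`), `nrm_zero`. -/
theorem near_bound (hh : 0 < h) (hY : Y.On (St (-h) h))
    (hQ : ∀ l ∈ St (-h) h, ‖Y.Q l‖ * DS h l ^ 2 ≤ C₁) :
    ∃ C₂ : ℝ, ∀ b μ ζ : ℂ, Dir h b μ → ‖ζ‖ ≤ 1 / 4 →
      ‖uu (nrm (scl Y b μ)) ζ‖ ≤ C₂ ∧ ‖uu' (nrm (scl Y b μ)) ζ‖ ≤ C₂ := by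
  set C : ℝ := max 1 (C₁ / (1 / 2) ^ 2) with hCdef
  have hC : 1 ≤ C := le_max_left _ _
  refine ⟨Real.exp (C * (1 / 4)), fun b μ ζ hD hζ => ?_⟩
  have hseg : segment ℝ 0 ζ ⊆ closedBall (0:ℂ) (1 / 4) :=
    (convex_closedBall (0:ℂ) (1 / 4)).segment_subset (mem_closedBall_self (by norm_num))
      (mem_closedBall_zero_iff.2 hζ)
  have hwin : ∀ w ∈ segment ℝ 0 ζ, b + μ ^ 2 * w ∈ St (-h) h ∧
      DS h b / 2 ≤ DS h (b + μ ^ 2 * w) := fun w hw =>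
    near_win hh hD (mem_closedBall_zero_iff.1 (hseg hw))
  have hg := lwin_gron (scl_on hY (hD.ne hh) (b := b)) hC (fun w hw => (hwin w hw).1)
    (fun w hw => (lwin_Q hh hQ hD (c := 1 / 2) (by norm_num) (hwin w hw).1 (by
      have := (hwin w hw).2
      linarith)).trans (le_max_right _ _))
  have he : Real.exp (C * ‖ζ‖) ≤ Real.exp (C * (1 / 4)) :=
    Real.exp_le_exp.2 (mul_le_mul_of_nonneg_left hζ (by linarith))
  constructor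
  · exact max_le (hg.1.1.trans he) (hg.2.1.trans he)
  · exact max_le (hg.1.2.trans he) (hg.2.2.trans he)

/-- `δ := min (1/4) ((1/2 - Im x)/2)`, `r := δ`, `R := ‖x‖ + δ`: `ball x r` lies in the convex set
`K = {Im ζ ≤ 1/2 - δ, |ζ| ≤ R}`, which contains `0`.  By `deep_win` for large `k` the set `K` lies in
the domain and `|Q| ≤ C₁ / δ ^ 2` there; `gron`. -/
theorem win_bound (hh : 0 < h) (hY : Y.On (St (-h) h))
    (hQ : ∀ l ∈ St (-h) h, ‖Y.Q l‖ * DS h l ^ 2 ≤ C₁) {b μ : ℕ → ℂ}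
    (hD : ∀ k, Dir h (b k) (μ k)) (hd : Tendsto (fun k => h - |(b k).im|) atTop (𝓝 0))
    {x : ℂ} (hx : x ∈ HP) : ∃ r > 0, ∃ M : ℝ, ∀ᶠ k in atTop,
      (nrm (scl Y (b k) (μ k))).On (ball x r) ∧ ∀ w ∈ ball x r,
        ‖(scl Y (b k) (μ k)).Q w‖ ≤ M ∧ ‖(nrm (scl Y (b k) (μ k))).y1 w‖ ≤ M ∧
          ‖(nrm (scl Y (b k) (μ k))).y2 w‖ ≤ M := by
  have hx' : x.im < 1 / 2 := hx
  set δ : ℝ := min (1 / 4) ((1 / 2 - x.im) / 2) with hδdef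
  have hδ : 0 < δ := lt_min (by norm_num) (by linarith)
  have hδ4 : δ ≤ 1 / 4 := min_le_left _ _
  have hδx : δ ≤ (1 / 2 - x.im) / 2 := min_le_right _ _
  set R : ℝ := ‖x‖ + δ with hRdef
  have hR : 0 ≤ R := by positivity
  set C : ℝ := max 1 (C₁ / δ ^ 2) with hCdef
  have hC : 1 ≤ C := le_max_left _ _
  obtain ⟨s₀, hs₀, hwin⟩ := deep_win hh hδ (by linarith) hR
  set K : Set ℂ := {ζ : ℂ | ζ.im ≤ 1 / 2 - δ} ∩ closedBall 0 R with hKdef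
  have hKc : Convex ℝ K := by
    refine Convex.inter ?_ (convex_closedBall _ _)
    exact convex_halfSpace_im_le (1 / 2 - δ)
  have h0K : (0:ℂ) ∈ K := by
    refine ⟨?_, mem_closedBall_self hR⟩
    show (0:ℂ).im ≤ 1 / 2 - δ
    rw [Complex.zero_im]
    linarith
  have hbK : ball x δ ⊆ K := by
    intro w hw
    rw [mem_ball, dist_eq_norm] at hw
    constructor
    · show w.im ≤ 1 / 2 - δ
      have h1 := (Complex.abs_im_le_norm (w - x)).trans_lt hw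
      rw [Complex.sub_im, abs_lt] at h1
      linarith
    · rw [mem_closedBall_zero_iff]
      have h1 := norm_add_le x (w - x)
      rw [add_sub_cancel] at h1
      linarith
  refine ⟨δ, hδ, max C (Real.exp (C * R)), ?_⟩
  filter_upwards [hd.eventually_lt_const hs₀] with k hk
  have hin : ∀ w ∈ K, b k + μ k ^ 2 * w ∈ St (-h) h ∧
      δ * DS h (b k) ≤ DS h (b k + μ k ^ 2 * w) := by
    intro w hw
    have h1 := hwin (b k) (μ k) (hD k) hk w hw.1 (mem_closedBall_zero_iff.1 hw.2)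
    exact ⟨h1.1, h1.2.1⟩
  have hQK : ∀ w ∈ K, ‖(scl Y (b k) (μ k)).Q w‖ ≤ C := fun w hw =>
    (lwin_Q hh hQ (hD k) hδ (hin w hw).1 (hin w hw).2).trans (le_max_right _ _)
  have hZ := scl_on hY ((hD k).ne hh) (b := b k)
  have hN := nrm_on hZ (hin 0 h0K).1
  have hbS : ball x δ ⊆ {ζ | b k + μ k ^ 2 * ζ ∈ St (-h) h} := fun w hw => (hin w (hbK hw)).1
  refine ⟨⟨fun z hz => hN.d1 z (hbS hz), fun z hz => hN.d1' z (hbS hz),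
    fun z hz => hN.d2 z (hbS hz), fun z hz => hN.d2' z (hbS hz), fun z hz => hN.wr z (hbS hz)⟩,
    fun w hw => ?_⟩
  have hseg : segment ℝ 0 w ⊆ K := hKc.segment_subset h0K (hbK hw)
  have hg := lwin_gron hZ hC (fun w' hw' => (hin w' (hseg hw')).1)
    (fun w' hw' => hQK w' (hseg hw'))
  have he : Real.exp (C * ‖w‖) ≤ Real.exp (C * R) :=
    Real.exp_le_exp.2 (mul_le_mul_of_nonneg_left (mem_closedBall_zero_iff.1 (hbK hw).2)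
      (by linarith))
  exact ⟨(hQK w (hbK hw)).trans (le_max_left _ _),
    (hg.1.1.trans he).trans (le_max_right _ _), (hg.2.1.trans he).trans (le_max_right _ _)⟩

end Pool.Agent.MP_ae5b4e_an_NB4C
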