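import Pool.Agent.Lib.MP_ae5b4e_an_NB4C.LSys
import Pool.Agent.Lib.MP_ae5b4e_an_NB4C.LDeep
import Pool.Agent.Lib.MP_ae5b4e_an_NB4C.LNode
import Pool.Agent.Lib.MP_ae5b4e_an_NB4C.LMon
import Pool.Agent.Lib.MP_ae5b4e_an_NB4C.LPole
import Pool.Agent.Lib.MP_ae5b4e_an_NB4C.LWin
import Pool.Agent.Lib.MP_ae5b4e_an_NB4C.LNf
import Pool.Agent.Lib.MP_ae5b4e_an_NB4C.LIvt
import Pool.Agent.Lib.MP_ae5b4e_an_NB4C.LState
import Pool.Agent.Lib.MP_ae5b4e_an_NB4.DSC

/-!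
# MP_ae5b4e_an, project NB_4, part C, section 4: the limit configuration exists

Text /team-store/POR_NB4_RAT_h34.md, section 4.
-/

noncomputable section

namespace Pool.Agent.MP_ae5b4e_an_NB4C

open Complex Set Filter Topology Metric
open Pool.Agent.MP_ae5b4e_an_NBT (St)
open Pool.Agent.MP_ae5b4e_an_NB2 (Sys)
open Pool.Agent.MP_ae5b4e_an_NB4

variable {Y : Sys} {h q₁ : ℝ} {q : ℕ} [NeZero q] {π₀ : ℂ} {i : ZMod q}

/-- the sequence of windows after the choice of a subsequence -/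
structure Dat (Y : Sys) (h : ℝ) (q : ℕ) (π₀ : ℂ) (i : ZMod q) (P : ℕ → ZMod q → ℂ)
    (V : ℕ → Set (ZMod q → ℂ)) (ν : ℕ → ZMod q → ℂ) (v : Sys) : Prop where
  lev : ∀ k, Lev Y h q π₀ i k (P k) (V k)
  dir : ∀ k j, Dir h (P k j) (ν k j)
  cvg : Cvg (fun k => nrm (scl Y (P k i) (ν k i))) v

theorem deep_tendsto {P : ℕ → ZMod q → ℂ} {V : ℕ → Set (ZMod q → ℂ)}
    (hL : ∀ k, Lev Y h q π₀ i k (P k) (V k)) :
    Tendsto (fun k => h - |(P k i).im|) atTop (𝓝 0) := by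
  refine squeeze_zero (fun k => ?_) (fun k => (hL k).deep) tendsto_one_div_add_atTop_nhds_zero_nat
  have h1 : P k i ∈ St (-h) h := ((hL k).sub (hL k).mem).1 i
  have h2 : |(P k i).im| < h := abs_lt.2 ⟨h1.1, h1.2⟩
  linarith

theorem exists_dat (H : Bdd Y h q₁ q π₀) (hL : ∀ k : ℕ, ∃ P V, Lev Y h q π₀ i k P V) :
    ∃ P V ν v, Dat Y h q π₀ i P V ν v := by
  choose P V hPV using hL
  have hmem : ∀ k j, P k j ∈ St (-h) h := fun k j => ((hPV k).sub (hPV k).mem).1 j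
  choose ν hν using fun k j => exists_dir (hmem k j)
  have hdeep := deep_tendsto hPV
  have hQ : ∀ l ∈ St (-h) h, ‖Y.Q l‖ * DS h l ^ 2 ≤ q₁ + 1 := fun l hl =>
    q_bound H.h_pos H.qb hl
  obtain ⟨φ, v, hφ, hv⟩ := montel_sys (vs := fun k => nrm (scl Y (P k i) (ν k i))) (by
    intro x hx
    obtain ⟨r, hr, M, hM⟩ := win_bound H.h_pos H.on hQ (fun k => hν k i) hdeep hx
    refine ⟨r, hr, M, ?_⟩
    filter_upwards [hM] with k hk
    exact ⟨hk.1, fun w hw => ⟨(hk.2 w hw).2.1, (hk.2 w hw).2.2⟩⟩)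
  exact ⟨fun k => P (φ k), fun k => V (φ k), fun k => ν (φ k), v,
    ⟨fun k => lev_mono (hφ.le_apply) (hPV (φ k)), fun k j => hν (φ k) j, hv⟩⟩

/-- the scaled windows -/
theorem win_on (hh : 0 < h) (hY : Y.On (St (-h) h)) {b μ : ℂ} (hD : Dir h b μ) :
    (scl Y b μ).On {ζ | b + μ ^ 2 * ζ ∈ St (-h) h} ∧
      (0:ℂ) ∈ {ζ : ℂ | b + μ ^ 2 * ζ ∈ St (-h) h} := by
  refine ⟨scl_on hY (hD.ne hh), ?_⟩
  show b + μ ^ 2 * 0 ∈ St (-h) h
  rw [mul_zero, add_zero]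
  exact hD.mem

/-- the poles -/
theorem exists_pole (H : Bdd Y h q₁ q π₀) {P V ν v} (D : Dat Y h q π₀ i P V ν v)
    {l : Ultrafilter ℕ} (hl : (l : Filter ℕ) ≤ atTop) (j : ZMod q) :
    ∃ e : ℂ × ℂ, e ≠ 0 ∧ (j ≠ i → ∀ (ζ : ℕ → ℂ), (∀ k, ‖ζ k‖ ≤ 1 / 8) →
      ∀ (x y : ℕ → ℂ × ℂ) (x₀ y₀ : ℂ × ℂ), Tendsto x l (𝓝 x₀) → Tendsto y l (𝓝 y₀) →
      (∀ k, wdg (x k) (fr (scl Y (P k i) (ν k i)) (uu (scl Y (P k j) (ν k j)) (ζ k))) = 0) →
      (∀ k, wdg (y k) (fr (scl Y (P k i) (ν k i)) (uu' (scl Y (P k j) (ν k j)) (ζ k))) = 0) →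
      wdg x₀ e = 0 ∨ wdg y₀ e = 0) := by
  by_cases hj : j = i
  · exact ⟨(1, 0), by simp, fun h => absurd hj h⟩
  have hh := H.h_pos
  have hon : ∀ k j, _ := fun k j => win_on hh H.on (D.dir k j)
  have hdet : ∀ k, wdg (uu (scl Y (P k j) (ν k j)) 0) (uu' (scl Y (P k j) (ν k j)) 0) = 1 := by
    intro k
    have := (hon k j).1.wr 0 (hon k j).2
    simp only [wdg, uu, uu']
    linear_combination this
  obtain ⟨e, he, hE⟩ := pole_limit l
    (a := fun k => fr (scl Y (P k i) (ν k i)) (uu (scl Y (P k j) (ν k j)) 0))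
    (b := fun k => fr (scl Y (P k i) (ν k i)) (uu' (scl Y (P k j) (ν k j)) 0))
    (fun k => by rw [wdg_fr (hon k i).1 (hon k i).2]; exact hdet k)
    (fun R => by
      filter_upwards [hl (eventually_ge_atTop (Nat.ceil (4 * R ^ 2)))] with k hk
      have h1 := (D.lev k).iso j hj
      have h2 := ne_le (Y := Y) hh (D.dir k i) (D.dir k j)
      have h3 : 4 * R ^ 2 ≤ (k : ℝ) := Nat.ceil_le.1 hk
      set N : ℝ := max ‖fr (scl Y (P k i) (ν k i)) (uu (scl Y (P k j) (ν k j)) 0)‖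
        ‖fr (scl Y (P k i) (ν k i)) (uu' (scl Y (P k j) (ν k j)) 0)‖ with hN
      have h4 : 0 ≤ N := le_max_of_le_left (norm_nonneg _)
      show R ≤ N
      exact le_of_sq_le_sq (by linarith) h4)
  refine ⟨e, he, fun _ ζ hζ x y x₀ y₀ hx hy hx' hy' => ?_⟩
  obtain ⟨C₂, hC₂⟩ := near_bound (Y := Y) hh H.on (fun l hl => q_bound hh H.qb hl)
  have hb : ∀ k, ‖uu (nrm (scl Y (P k j) (ν k j))) (ζ k)‖ ≤ C₂ ∧
      ‖uu' (nrm (scl Y (P k j) (ν k j))) (ζ k)‖ ≤ C₂ := fun k =>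
    hC₂ _ _ _ (D.dir k j) ((hζ k).trans (by norm_num))
  obtain ⟨v₀, hv₀⟩ := exists_ulim l (a := fun k => uu (nrm (scl Y (P k j) (ν k j))) (ζ k))
    (Eventually.of_forall fun k => (hb k).1)
  obtain ⟨w₀, hw₀⟩ := exists_ulim l (a := fun k => uu' (nrm (scl Y (P k j) (ν k j))) (ζ k))
    (Eventually.of_forall fun k => (hb k).2)
  have hd : wdg v₀ w₀ = 1 := by
    have h1 : Tendsto (fun k => wdg (uu (nrm (scl Y (P k j) (ν k j))) (ζ k))
        (uu' (nrm (scl Y (P k j) (ν k j))) (ζ k))) l (𝓝 (wdg v₀ w₀)) := by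
      unfold wdg
      exact (((continuous_fst.tendsto _).comp hv₀).mul ((continuous_snd.tendsto _).comp hw₀)).sub
        (((continuous_snd.tendsto _).comp hv₀).mul ((continuous_fst.tendsto _).comp hw₀))
    refine tendsto_nhds_unique h1 ?_
    refine tendsto_const_nhds.congr fun k => ?_
    have hz : ζ k ∈ {ζ : ℂ | P k j + ν k j ^ 2 * ζ ∈ St (-h) h} :=
      (near_win hh (D.dir k j) ((hζ k).trans (by norm_num))).1
    have := (nrm_on (hon k j).1 (hon k j).2).wr (ζ k) hz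
    simp only [wdg, uu, uu']
    linear_combination -this
  refine hE _ _ x y v₀ w₀ x₀ y₀ hv₀ hw₀ hx hy (by rw [hd]; exact one_ne_zero) (fun k => ?_)
    (fun k => ?_)
  · have h1 := hx' k
    rw [(uu_frame (hon k j).1 (hon k j).2 (ζ k)).1, fr_add, fr_smul, fr_smul] at h1
    exact h1
  · have h1 := hy' k
    rw [(uu_frame (hon k j).1 (hon k j).2 (ζ k)).2, fr_add, fr_smul, fr_smul] at h1
    exact h1

/-- section 4: the windows at the isolated node have a limit -/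
theorem exists_lim {Y : Sys} {h q₁ : ℝ} {q : ℕ} [NeZero q] {π₀ : ℂ} (H : Bdd Y h q₁ q π₀)
    (i : ZMod q) (hL : ∀ k : ℕ, ∃ P V, Lev Y h q π₀ i k P V) : ∃ v e, Lim v q e := by
  obtain ⟨P, V, ν, v, D⟩ := exists_dat H hL
  have hh := H.h_pos
  set l : Ultrafilter ℕ := Ultrafilter.of atTop with hldef
  have hl : (l : Filter ℕ) ≤ atTop := Ultrafilter.of_le atTop
  have hQ : ∀ l ∈ St (-h) h, ‖Y.Q l‖ * DS h l ^ 2 ≤ q₁ + 1 := fun l hl =>
    q_bound H.h_pos H.qb hl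
  choose E hE0 hE using exists_pole H D hl
  have hper : ∀ n : ℤ, (((n + q : ℤ) : ZMod q)) = (n : ZMod q) := by
    intro n
    push_cast
    simp
  refine ⟨v, fun n => E ((n : ZMod q) + i), ⟨H.q_two, D.cvg.on, fun n => hE0 _, fun n => ?_, ?_,
    nf_limit hh H.on H.nf hQ (fun k => D.dir k i) (deep_tendsto D.lev) D.cvg⟩⟩
  · show E (((n + q : ℤ) : ZMod q) + i) = E ((n : ZMod q) + i)
    rw [hper]
  intro r hr
  choose z hzV hz using fun k => exists_radius hh (D.lev k) hr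
  have hon : ∀ k j, _ := fun k j => win_on hh H.on (D.dir k j)
  have hν : ∀ k j, ν k j ≠ 0 := fun k j => (D.dir k j).ne hh
  have hzF : ∀ k, z k ∈ FF Y h q π₀ := fun k => (D.lev k).sub (hzV k)
  -- window coordinates
  set ζ : ℕ → ZMod q → ℂ := fun k j => (z k j - P k j) / ν k j ^ 2 with hζdef
  have hζz : ∀ k j, P k j + ν k j ^ 2 * ζ k j = z k j := by
    intro k j
    rw [hζdef]
    simp only
    rw [mul_div_cancel₀ _ (pow_ne_zero 2 (hν k j))]
    ring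
  have hζmem : ∀ k j, ζ k j ∈ {ζ : ℂ | P k j + ν k j ^ 2 * ζ ∈ St (-h) h} := by
    intro k j
    show P k j + ν k j ^ 2 * ζ k j ∈ St (-h) h
    rw [hζz]
    exact (hzF k).1 j
  have hnorm : ∀ k j, ‖ζ k j‖ = ‖z k j - P k j‖ / DS h (P k j) := by
    intro k j
    rw [hζdef]
    simp only
    rw [norm_div, norm_pow, (D.dir k j).norm_sq hh]
  have hDpos : ∀ k j, 0 < DS h (P k j) := fun k j => DS_pos hh (D.dir k j).mem
  have hζle : ∀ k j, ‖ζ k j‖ ≤ 1 / 8 := by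
    intro k j
    rw [hnorm, div_le_iff₀ (hDpos k j)]
    have := (D.lev k).near (z k) (hzV k) j
    linarith
  have hζi : ∀ k, ‖ζ k i‖ = r := by
    intro k
    rw [hnorm, hz, mul_div_assoc, div_self (hDpos k i).ne', mul_one]
  -- limit of the coordinate of the node i
  obtain ⟨c₀, hc₀⟩ := exists_ulim l (a := fun k => (ζ k i, (0:ℂ))) (C := 1 / 8)
    (Eventually.of_forall fun k => by
      rw [Prod.norm_def]
      exact max_le (hζle k i) (by rw [norm_zero]; norm_num))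
  obtain ⟨ζ₀, hζ₀⟩ : ∃ ζ₀, Tendsto (fun k => ζ k i) l (𝓝 ζ₀) :=
    ⟨c₀.1, (continuous_fst.tendsto _).comp hc₀⟩
  have hr₀ : ‖ζ₀‖ = r := by
    refine tendsto_nhds_unique hζ₀.norm ?_
    simp only [hζi]
    exact tendsto_const_nhds
  have hHP : ζ₀ ∈ HP := by
    show ζ₀.im < 1 / 2
    have h1 := (abs_le.1 (Complex.abs_im_le_norm ζ₀)).2
    have h2 := hr.2
    linarith
  obtain ⟨hu, hu'⟩ := D.cvg.cv l hl _ ζ₀ hHP hζ₀
  -- the vectors
  have hcast : ∀ n : ℤ, (n : ZMod q) + i = ((n + (i.val : ℤ) : ℤ) : ZMod q) := by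
    intro n
    push_cast
    simp
  have huY : ∀ k j, uu (scl Y (P k j) (ν k j)) (ζ k j) = (ν k j)⁻¹ • uu Y (z k j) := by
    intro k j
    rw [uu_scl, hζz]
  have huY' : ∀ k j, uu' (scl Y (P k j) (ν k j)) (ζ k j) = ν k j • uu' Y (z k j) := by
    intro k j
    rw [uu'_scl, hζz]
  have hsm : ∀ (a b : ℂ) (p r : ℂ × ℂ), wdg (a • p) (b • r) = a * b * wdg p r := by
    intro a b p r
    simp only [wdg, Prod.smul_fst, Prod.smul_snd, smul_eq_mul]
    ring
  set p : ℕ → ℤ → ℂ × ℂ := fun k n => fr (scl Y (P k i) (ν k i))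
    (uu (scl Y (P k ((n : ZMod q) + i)) (ν k ((n : ZMod q) + i))) (ζ k ((n : ZMod q) + i))) with hp
  set p' : ℕ → ℤ → ℂ × ℂ := fun k n => fr (scl Y (P k i) (ν k i))
    (uu' (scl Y (P k ((n : ZMod q) + i)) (ν k ((n : ZMod q) + i))) (ζ k ((n : ZMod q) + i)))
    with hp'
  obtain ⟨X, W, hX, hW, hXp, hN, hPo, hX0, hW0, hS⟩ := state_limit l H.q_two
    (e := fun n => E ((n : ZMod q) + i)) (p := p) (p' := p')
    (fun k n => fr_ne (hon k i).1 (hon k i).2 (uu_ne (hon k _).1 (hζmem k _)).1)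
    (fun k n => fr_ne (hon k i).1 (hon k i).2 (uu_ne (hon k _).1 (hζmem k _)).2)
    (fun k n => by
      simp only [hp]
      rw [hper])
    (fun k n => by
      simp only [hp']
      rw [hper])
    (fun k n => by
      simp only [hp, hp']
      rw [wdg_fr (hon k i).1 (hon k i).2, wdg_fr (hon k i).1 (hon k i).2,
        wdg_fr (hon k i).1 (hon k i).2, wdg_fr (hon k i).1 (hon k i).2]
      have e1 : ((n + 1 : ℤ) : ZMod q) + i = ((n + (i.val : ℤ) + 1 : ℤ) : ZMod q) := by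
        rw [hcast]
        congr 1
        ring
      have e2 : ((n - 1 : ℤ) : ZMod q) + i = ((n + (i.val : ℤ) - 1 : ℤ) : ZMod q) := by
        rw [hcast]
        congr 1
        ring
      have h1 := node_hom H.per (hzF k) (n + (i.val : ℤ))
      rw [← e1, ← e2, ← hcast n] at h1
      rw [huY, huY, huY, huY', hsm, hsm, hsm, hsm]
      linear_combination ((ν k (((n + 1 : ℤ) : ZMod q) + i))⁻¹ *
        (ν k ((n : ZMod q) + i)) * (ν k ((n : ZMod q) + i))⁻¹ *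
        (ν k (((n - 1 : ℤ) : ZMod q) + i))⁻¹) * h1)
    (fun k n => by
      simp only [hp]
      rw [wdg_fr (hon k i).1 (hon k i).2]
      have e1 : ((n + 1 : ℤ) : ZMod q) + i = ((n + (i.val : ℤ) + 1 : ℤ) : ZMod q) := by
        rw [hcast]
        congr 1
        ring
      have h1 := side_hom H.per H.pi_ne (hzF k) (n + (i.val : ℤ))
      rw [← e1, ← hcast n] at h1
      rw [huY, huY, hsm]
      exact mul_ne_zero (mul_ne_zero (inv_ne_zero (hν k _)) (inv_ne_zero (hν k _))) h1)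
    (x₀ := uu v ζ₀) (w₀ := uu' v ζ₀)
    (by
      refine hu.congr fun k => ?_
      simp only [hp]
      rw [Int.cast_zero, zero_add, fr_uu])
    (by
      refine hu'.congr fun k => ?_
      simp only [hp']
      rw [Int.cast_zero, zero_add, fr_uu'])
    (by
      have h1 := D.cvg.on.wr ζ₀ hHP
      have h2 : wdg (uu v ζ₀) (uu' v ζ₀) = 1 := by
        simp only [wdg, uu, uu']
        linear_combination h1
      rw [h2]
      exact one_ne_zero)
    (fun n hn x y xl yl hx hy hx' hy' => by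
      have hj : (n : ZMod q) + i ≠ i := by
        intro h1
        apply hn
        have h2 : (n : ZMod q) = 0 := by
          have := congrArg (fun t => t - i) h1
          simpa using this
        exact (ZMod.intCast_zmod_eq_zero_iff_dvd n q).1 h2
      exact hE _ hj (fun k => ζ k ((n : ZMod q) + i)) (fun k => hζle k _) x y xl yl hx hy hx' hy')
    (fun n => hE0 _)
  exact ⟨ζ₀, hr₀, X, W, ⟨hX, hW, hXp, hN, hPo, hX0, hW0, hS⟩⟩

end Pool.Agent.MP_ae5b4e_an_NB4C
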