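import Pool.Agent.Lib.MP_ae5b4e_an_NB4C.Defs


/-!
# MP_ae5b4e_an, NB_4 part C: level sets of the limit curve
-/

noncomputable section

namespace Pool.Agent.MP_ae5b4e_an_NB4C

open Complex Set Filter Topology Metric
open Pool.Agent.MP_ae5b4e_an_NB2 (Sys)
open Pool.Agent.MP_ae5b4e_an_NB4 (wdg uu uu')

/-- The zero set of an analytic function on a connected open set is countable if it is not
everything (discrete closed subset of a second countable space; or Mathlib: codiscrete sets have
countable complement). -/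
theorem zeros_countable {U : Set ℂ} (hU : IsOpen U) (hc : IsPreconnected U) {f : ℂ → ℂ}
    (hf : AnalyticOnNhd ℂ f U) {z₀ : ℂ} (h0 : z₀ ∈ U) (hz : f z₀ ≠ 0) :
    {z ∈ U | f z = 0}.Countable := by
  have h1 := hf.preimage_zero_mem_codiscreteWithin hz h0 ⟨⟨z₀, h0⟩, hc⟩
  have h2 : (f ⁻¹' {0})ᶜ ∈ Filter.codiscreteWithin U := by
    rwa [preimage_compl] at h1
  have h3 := isDiscrete_of_codiscreteWithin h2
  have h4 : {z ∈ U | f z = 0} = (f ⁻¹' {0}) ∩ U := by
    ext z
    simp [and_comm]
  rw [h4]
  exact (HereditarilyLindelofSpace.isLindelof _).countable_of_isDiscrete h3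

/-- An analytic function on a connected open set which vanishes on an uncountable subset is zero. -/
theorem zero_of_uncountable {U : Set ℂ} (hU : IsOpen U) (hc : IsPreconnected U) {f : ℂ → ℂ}
    (hf : AnalyticOnNhd ℂ f U) {T : Set ℂ} (hT : T ⊆ U) (hTc : ¬ T.Countable)
    (h0 : ∀ z ∈ T, f z = 0) : ∀ z ∈ U, f z = 0 := by
  intro z hz
  by_contra hne
  refine hTc ((zeros_countable hU hc hf hz hne).mono ?_)
  intro w hw
  exact ⟨hT hw, h0 w hw⟩

theorem HP_open : IsOpen HP :=
  isOpen_lt Complex.continuous_im continuous_const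

theorem HP_convex : Convex ℝ HP :=
  convex_halfSpace_im_lt (1 / 2)

/-- The points where a non-zero constant vector is parallel to `u` form a countable set:
`wdg (uu v ζ) p` is analytic (a solution of the equation) and not identically zero, because `u` and
`u'` are linearly independent. -/
theorem level_countable {v : Sys} (on : v.On HP) {p : ℂ × ℂ} (hp : p ≠ 0) :
    {z ∈ HP | wdg (uu v z) p = 0}.Countable := by
  have h1 : ∀ z ∈ HP, HasDerivAt (fun z => wdg (uu v z) p) (wdg (uu' v z) p) z := by
    intro z hz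
    exact ((on.d1 z hz).mul_const p.2).sub ((on.d2 z hz).mul_const p.1)
  have h2 : AnalyticOnNhd ℂ (fun z => wdg (uu v z) p) HP := by
    refine DifferentiableOn.analyticOnNhd (fun z hz => ?_) HP_open
    exact (h1 z hz).differentiableAt.differentiableWithinAt
  have h00 : (0 : ℂ) ∈ HP := by
    show (0 : ℂ).im < 1 / 2
    simp
  by_cases h3 : ∃ z ∈ HP, wdg (uu v z) p ≠ 0
  · obtain ⟨z, hz, hz'⟩ := h3
    exact zeros_countable HP_open HP_convex.isPreconnected h2 hz hz'
  · push Not at h3
    exfalso
    have h4 : (fun z => wdg (uu v z) p) =ᶠ[𝓝 0] fun _ => (0 : ℂ) :=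
      Filter.eventually_of_mem (HP_open.mem_nhds h00) fun z hz => h3 z hz
    have h5 : wdg (uu' v 0) p = 0 := by
      have := h4.deriv_eq
      rw [(h1 0 h00).deriv, deriv_const] at this
      exact this
    have h6 : wdg (uu v 0) p = 0 := h3 0 h00
    have h7 := on.wr 0 h00
    simp only [wdg, uu, uu'] at h5 h6
    apply hp
    ext
    · show p.1 = 0
      linear_combination (v.y1' 0) * h6 - v.y1 0 * h5 - p.1 * h7
    · show p.2 = 0
      linear_combination (v.y2' 0) * h6 - v.y2 0 * h5 - p.2 * h7

end Pool.Agent.MP_ae5b4e_an_NB4C
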