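import Pool.Agent.Lib.MP_ae5b4e_an_NB4C.Defs
import Pool.Agent.Lib.MP_ae5b4e_an_NB4C.Lvl

/-!
# MP_ae5b4e_an, NB_4 part C: functions which are algebraic over the field of F
-/

noncomputable section

namespace Pool.Agent.MP_ae5b4e_an_NB4C

open Complex Set Filter Topology Metric
open Pool.Agent.MP_ae5b4e_an_NB2 (Sys)
open Pool.Agent.MP_ae5b4e_an_NB4 (wdg uu uu')

/-! Let `A` be the ring of analytic functions on `B` (a subalgebra of `B → ℂ`): a domain by the
identity theorem (`zeros_countable`), and `S = ℂ[F] ⊆ A` (`Algebra.adjoin ℂ {F}`).  `F` is not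
constant, so `p ↦ p(F)` is injective on `ℂ[X]`, and `AlgOn B F f ↔ IsAlgebraic S f`.  Closure under
sums, products and quotients: `IsAlgebraic.add`, `IsAlgebraic.mul`, `IsAlgebraic.of_mul`. -/

variable {B : Set ℂ} {F f g c : ℂ → ℂ}

/-- the analytic functions on `B` -/
private def AA (B : Set ℂ) : Subring (B → ℂ) where
  carrier := {φ | ∃ f : ℂ → ℂ, AnalyticOnNhd ℂ f B ∧ ∀ z : B, φ z = f z}
  mul_mem' := by
    rintro φ ψ ⟨f, hf, h1⟩ ⟨g, hg, h2⟩
    exact ⟨fun z => f z * g z, hf.mul hg, fun z => by rw [Pi.mul_apply, h1, h2]⟩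
  add_mem' := by
    rintro φ ψ ⟨f, hf, h1⟩ ⟨g, hg, h2⟩
    exact ⟨fun z => f z + g z, hf.add hg, fun z => by rw [Pi.add_apply, h1, h2]⟩
  one_mem' := ⟨fun _ => 1, analyticOnNhd_const, fun _ => rfl⟩
  zero_mem' := ⟨fun _ => 0, analyticOnNhd_const, fun _ => rfl⟩
  neg_mem' := by
    rintro φ ⟨f, hf, h1⟩
    exact ⟨fun z => -f z, hf.neg, fun z => by rw [Pi.neg_apply, h1]⟩

/-- an analytic function as an element of the ring -/
private def toA (f : ℂ → ℂ) (hf : AnalyticOnNhd ℂ f B) : AA B := ⟨fun z => f z, f, hf, fun _ => rfl⟩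

/-- constants -/
private def cA (B : Set ℂ) : ℂ →+* AA B where
  toFun a := ⟨fun _ => a, fun _ => a, analyticOnNhd_const, fun _ => rfl⟩
  map_one' := rfl
  map_mul' _ _ := rfl
  map_zero' := rfl
  map_add' _ _ := rfl

/-- polynomials in `F` -/
private def pA (hF : AnalyticOnNhd ℂ F B) : Polynomial ℂ →+* AA B :=
  Polynomial.eval₂RingHom (cA B) (toA F hF)

/-- evaluation at a point -/
private def evA (z : B) : AA B →+* ℂ where
  toFun φ := φ.1 z
  map_one' := rfl
  map_mul' _ _ := rfl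
  map_zero' := rfl
  map_add' _ _ := rfl

private theorem evA_pA (hF : AnalyticOnNhd ℂ F B) (z : B) :
    (evA z).comp (pA hF) = Polynomial.evalRingHom (F z) := by
  refine Polynomial.ringHom_ext (fun a => ?_) ?_
  · simp only [pA, RingHom.comp_apply, Polynomial.coe_eval₂RingHom, Polynomial.eval₂_C,
      Polynomial.coe_evalRingHom, Polynomial.eval_C]
    rfl
  · simp only [pA, RingHom.comp_apply, Polynomial.coe_eval₂RingHom, Polynomial.eval₂_X,
      Polynomial.coe_evalRingHom, Polynomial.eval_X]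
    rfl

private theorem evA_eval (hF : AnalyticOnNhd ℂ F B) (hf : AnalyticOnNhd ℂ f B) (z : B)
    (P : Polynomial (Polynomial ℂ)) :
    evA z (P.eval₂ (pA hF) (toA f hf)) = P.evalEval (F z) (f z) := by
  rw [Polynomial.hom_eval₂, evA_pA, ← Polynomial.eval₂_evalRingHom]
  rfl

private theorem alg_iff (hF : AnalyticOnNhd ℂ F B) (hf : AnalyticOnNhd ℂ f B) :
    AlgOn B F f ↔
      @IsAlgebraic (Polynomial ℂ) (AA B) _ _ (pA hF).toAlgebra (toA f hf) := by
  let _ := (pA hF).toAlgebra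
  constructor
  · rintro ⟨P, hP, h⟩
    refine ⟨P, hP, ?_⟩
    refine Subtype.ext (funext fun z => ?_)
    rw [Polynomial.aeval_def]
    have := evA_eval hF hf z P
    rw [h z z.2] at this
    exact this
  · rintro ⟨P, hP, h⟩
    refine ⟨P, hP, fun z hz => ?_⟩
    rw [Polynomial.aeval_def] at h
    have := evA_eval hF hf ⟨z, hz⟩ P
    rw [← this]
    have h2 : P.eval₂ (pA hF) (toA f hf) = 0 := h
    rw [h2, map_zero]

theorem algOn_const (a : ℂ) : AlgOn B F (fun _ => a) := by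
  refine ⟨Polynomial.X - Polynomial.C (Polynomial.C a), Polynomial.X_sub_C_ne_zero _,
    fun z _ => ?_⟩
  rw [Polynomial.evalEval_sub, Polynomial.evalEval_X, Polynomial.evalEval_C, Polynomial.eval_C,
    sub_self]

theorem algOn_self : AlgOn B F F := by
  refine ⟨Polynomial.X - Polynomial.C Polynomial.X, Polynomial.X_sub_C_ne_zero _,
    fun z _ => ?_⟩
  rw [Polynomial.evalEval_sub, Polynomial.evalEval_X, Polynomial.evalEval_C, Polynomial.eval_X,
    sub_self]

theorem algOn_add (hB : IsOpen B) (hc : IsPreconnected B) (hF : AnalyticOnNhd ℂ F B)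
    (hn : ∃ a ∈ B, ∃ b ∈ B, F a ≠ F b) (hf : AnalyticOnNhd ℂ f B) (hg : AnalyticOnNhd ℂ g B)
    (h1 : AlgOn B F f) (h2 : AlgOn B F g) : AlgOn B F (fun z => f z + g z) := by
  have _ := hB
  have _ := hc
  have _ := hn
  let _ := (pA hF).toAlgebra
  have e1 := (alg_iff hF hf).1 h1
  have e2 := (alg_iff hF hg).1 h2
  refine (alg_iff hF (hf.add hg)).2 ?_
  exact e1.add e2

theorem algOn_mul (hB : IsOpen B) (hc : IsPreconnected B) (hF : AnalyticOnNhd ℂ F B)
    (hn : ∃ a ∈ B, ∃ b ∈ B, F a ≠ F b) (hf : AnalyticOnNhd ℂ f B) (hg : AnalyticOnNhd ℂ g B)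
    (h1 : AlgOn B F f) (h2 : AlgOn B F g) : AlgOn B F (fun z => f z * g z) := by
  have _ := hB
  have _ := hc
  have _ := hn
  let _ := (pA hF).toAlgebra
  have e1 := (alg_iff hF hf).1 h1
  have e2 := (alg_iff hF hg).1 h2
  refine (alg_iff hF (hf.mul hg)).2 ?_
  exact e1.mul e2

/-- quotients: if `c` and `c f` are algebraic and `c` is not identically zero then `f` is algebraic -/
theorem algOn_quot (hB : IsOpen B) (hc : IsPreconnected B) (hF : AnalyticOnNhd ℂ F B)
    (hn : ∃ a ∈ B, ∃ b ∈ B, F a ≠ F b) (hc' : AnalyticOnNhd ℂ c B) (hf : AnalyticOnNhd ℂ f B)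
    (hne : ∃ z ∈ B, c z ≠ 0) (h1 : AlgOn B F c) (h2 : AlgOn B F (fun z => c z * f z)) :
    AlgOn B F f := by
  have _ := hB
  have _ := hn
  let _ := (pA hF).toAlgebra
  have e1 := (alg_iff hF hc').1 h1
  have e2 := (alg_iff hF (hc'.mul hf)).1 h2
  refine (alg_iff hF hf).2 ?_
  refine IsAlgebraic.of_mul (y := toA c hc') ?_ e1 e2
  rw [mem_nonZeroDivisors_iff_right]
  rintro ⟨φ, g, hg, hφ⟩ h0
  have h3 : ∀ z ∈ B, g z * c z = 0 := by
    intro z hz
    have h4 := congrFun (congrArg Subtype.val h0) ⟨z, hz⟩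
    have h5 : φ ⟨z, hz⟩ * c z = 0 := h4
    rwa [hφ] at h5
  rcases AnalyticOnNhd.eq_zero_or_eq_zero_of_mul_eq_zero hg hc' h3 hc with h6 | h6
  · refine Subtype.ext (funext fun z => ?_)
    exact (hφ z).trans (h6 z z.2)
  · obtain ⟨z, hz, hz'⟩ := hne
    exact absurd (h6 z hz) hz'

theorem algOn_congr (h : ∀ z ∈ B, f z = g z) (h1 : AlgOn B F f) : AlgOn B F g := by
  obtain ⟨P, hP, h2⟩ := h1
  exact ⟨P, hP, fun z hz => by rw [← h z hz]; exact h2 z hz⟩

end Pool.Agent.MP_ae5b4e_an_NB4C
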