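import Pool.Agent.Lib.MP_ae5b4e_an_NB4C.Defs


/-!
# MP_ae5b4e_an, NB_4 part C: conservation law
-/

noncomputable section

namespace Pool.Agent.MP_ae5b4e_an_NB4C

open Complex Set Filter Topology Metric
open Pool.Agent.MP_ae5b4e_an_NB2 (Sys)
open Pool.Agent.MP_ae5b4e_an_NB4 (wdg uu uu')

private theorem cons_alg {P c A B E p q : ℂ} (hA : A ≠ 0) (hB : B ≠ 0) (hE : E ≠ 0)
    (h : E * (A - B) + 2 * A * B = 0) :
    P * (p / B - c) * (A * (E ^ 2)⁻¹) +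
      P * ((q - p) * (E ^ 2)⁻¹ + A * (2 * E * p / (E ^ 2) ^ 2)) =
      P * (A * (E ^ 2)⁻¹) * (q / A - c) := by
  have h1 : p * (A / B) * E = p * E - 2 * A * p := by
    field_simp
    linear_combination p * h
  have h2 : A * (q / A) = q := by field_simp
  have h3 : P * (p / B - c) * (A * (E ^ 2)⁻¹) +
      P * ((q - p) * (E ^ 2)⁻¹ + A * (2 * E * p / (E ^ 2) ^ 2)) =
      P * ((p * (A / B) * E - c * A * E) + (q - p) * E + 2 * A * p) * (E ^ 3)⁻¹ := by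
    field_simp
    ring
  have h4 : P * (A * (E ^ 2)⁻¹) * (q / A - c) =
      P * (A * (q / A) - c * A) * E * (E ^ 3)⁻¹ := by
    field_simp
  rw [h3, h4, h1, h2]
  ring

private theorem cons_ind {ε : ℕ → ℂ} {z : ℕ → ℂ → ℂ} {z' : ℕ → ℂ} {ζ : ℂ} {M : ℕ}
    (hd : ∀ n, n ≤ M → HasDerivAt (z n) (z' n) ζ) (hne : ∀ n, n < M → z (n + 1) ζ ≠ z n ζ)
    (hnee : ∀ n, 1 ≤ n → n < M → z n ζ ≠ ε n)
    (hnode : ∀ n, 1 ≤ n → n < M →
      (ε n - z (n + 1) ζ) * (z (n - 1) ζ - z n ζ) +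
        (ε n - z (n - 1) ζ) * (z (n + 1) ζ - z n ζ) = 0) :
    ∀ m, 1 ≤ m → m ≤ M → Pr ε z m ζ ≠ 0 ∧ HasDerivAt (Pr ε z m) (Pr ε z m ζ *
      (z' m / (z m ζ - z (m - 1) ζ) - z' 0 / (z 1 ζ - z 0 ζ))) ζ := by
  intro m hm
  induction m, hm using Nat.le_induction with
  | base =>
    intro hM
    have h1 : Pr ε z 1 = fun w => z 1 w - z 0 w := by
      funext w
      simp [Pr]
    have h2 : z 1 ζ - z 0 ζ ≠ 0 := sub_ne_zero.2 (hne 0 (by omega))
    rw [h1]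
    refine ⟨h2, ?_⟩
    refine ((hd 1 hM).sub (hd 0 (by omega))).congr_deriv ?_
    simp only [Nat.sub_self]
    field_simp
  | succ m hm ih =>
    intro hM
    obtain ⟨ih1, ih2⟩ := ih (by omega)
    have h1 : Pr ε z (m + 1) =
        fun w => Pr ε z m w * ((z (m + 1) w - z m w) * ((ε m - z m w) ^ 2)⁻¹) := by
      funext w
      simp only [Pr]
      rw [Finset.prod_range_succ, Finset.prod_Ico_succ_top hm]
      ring
    have hA : z (m + 1) ζ - z m ζ ≠ 0 := sub_ne_zero.2 (hne m (by omega))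
    have hE : ε m - z m ζ ≠ 0 := sub_ne_zero.2 (hnee m hm (by omega)).symm
    have hB : z m ζ - z (m - 1) ζ ≠ 0 := by
      have := hne (m - 1) (by omega)
      rw [Nat.sub_add_cancel hm] at this
      exact sub_ne_zero.2 this
    have hrel : (ε m - z m ζ) * ((z (m + 1) ζ - z m ζ) - (z m ζ - z (m - 1) ζ)) +
        2 * (z (m + 1) ζ - z m ζ) * (z m ζ - z (m - 1) ζ) = 0 := by
      linear_combination hnode m hm (by omega)
    have hdE : HasDerivAt (fun w => ((ε m - z m w) ^ 2)⁻¹)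
        (2 * (ε m - z m ζ) * z' m / ((ε m - z m ζ) ^ 2) ^ 2) ζ := by
      have h2 : HasDerivAt (fun w => ε m - z m w) (-z' m) ζ := (hd m (by omega)).const_sub _
      have h3 : HasDerivAt (fun w => (ε m - z m w) ^ 2) (2 * (ε m - z m ζ) * -z' m) ζ := by
        refine (h2.fun_pow 2).congr_deriv ?_
        simp only [Nat.cast_ofNat, Nat.add_one_sub_one, pow_one]
      refine (h3.fun_inv (pow_ne_zero 2 hE)).congr_deriv ?_
      rw [mul_neg, neg_neg]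
    have hdG : HasDerivAt (fun w => (z (m + 1) w - z m w) * ((ε m - z m w) ^ 2)⁻¹)
        ((z' (m + 1) - z' m) * ((ε m - z m ζ) ^ 2)⁻¹ + (z (m + 1) ζ - z m ζ) *
          (2 * (ε m - z m ζ) * z' m / ((ε m - z m ζ) ^ 2) ^ 2)) ζ :=
      ((hd (m + 1) hM).sub (hd m (by omega))).mul hdE
    rw [h1]
    refine ⟨mul_ne_zero ih1 (mul_ne_zero hA (inv_ne_zero (pow_ne_zero 2 hE))), ?_⟩
    refine (ih2.mul hdG).congr_deriv ?_
    rw [Nat.add_sub_cancel]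
    exact cons_alg hA hB hE hrel

/-- One side.  With `u_n = 1 / (z_{n+1} - z_n)` the node relation reads
`u_n - u_{n-1} = 2 / (ε_n - z_n)` (`1 ≤ n < m`), so the logarithmic derivative of `Pr` is
`∑_{n<m} u_n (z_{n+1}' - z_n') + ∑_{1≤n<m} (u_n - u_{n-1}) z_n' = u_{m-1} z_m' - u_0 z_0'`
(induction on `m`). -/
theorem cons_side {v : Sys} {q : ℕ} {ε : ℕ → ℂ} {b : ℂ} {ρ : ℝ} {m : ℕ} {z : ℕ → ℂ → ℂ}
    (h : Side v q ε b ρ m z) {ζ : ℂ} (hζ : ζ ∈ ball b ρ) :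
    Pr ε z m ζ ≠ 0 ∧ HasDerivAt (Pr ε z m) (Pr ε z m ζ *
      (deriv (z m) ζ / (z m ζ - z (m - 1) ζ) - deriv (z 0) ζ / (z 1 ζ - z 0 ζ))) ζ :=
  cons_ind (z' := fun n => deriv (z n) ζ)
    (fun n hn => (h.an n hn ζ hζ).differentiableAt.hasDerivAt)
    (fun n hn => h.ne n hn ζ hζ) (fun n h1 hn => h.nee n h1 hn ζ hζ)
    (fun n h1 hn => h.node n h1 hn ζ hζ) m h.one_le le_rfl

end Pool.Agent.MP_ae5b4e_an_NB4C
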