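import Pool.Agent.Lib.MP_ae5b4e_an_NB4C.Defs
import Pool.Agent.Lib.MP_ae5b4e_an_NB4C.Cons

/-!
# MP_ae5b4e_an, NB_4 part C: the derivative as a product
-/

noncomputable section

namespace Pool.Agent.MP_ae5b4e_an_NB4C

open Complex Set Filter Topology Metric
open Pool.Agent.MP_ae5b4e_an_NB2 (Sys)
open Pool.Agent.MP_ae5b4e_an_NB4 (wdg uu uu')

/-- the derivative of `y2 / y1` -/
private theorem fpr_quot {v : Sys} (on : v.On HP) {ζ : ℂ} (h : ζ ∈ HP) (h1 : v.y1 ζ ≠ 0) :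
    HasDerivAt (fun ζ => v.y2 ζ / v.y1 ζ) (1 / v.y1 ζ ^ 2) ζ := by
  have h2 := (on.d2 ζ h).div (on.d1 ζ h) h1
  have h3 := on.wr ζ h
  have h4 : (v.y2' ζ * v.y1 ζ - v.y2 ζ * v.y1' ζ) / v.y1 ζ ^ 2 = 1 / v.y1 ζ ^ 2 := by
    congr 1
    linear_combination h3
  rw [h4] at h2
  exact h2

/-- from the relation at the node zero to the sum of the reciprocals -/
private theorem fpr_alg {a b y y' : ℂ} (ha : a ≠ 0) (hb : b ≠ 0) (hy : y ≠ 0)
    (h : a + b = 2 * y * y' * (a * b)) :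
    -(1 / y ^ 2 / a) + -(1 / y ^ 2 / b) = -2 * y' / y := by
  field_simp
  linear_combination -h

/-- the product has the logarithmic derivative `- 2 y1' / y1` -/
private theorem fpr_log {v : Sys} (on : v.On HP) {q : ℕ} {ε : ℤ → ℂ} {b : ℂ} {ρ : ℝ} {m m' : ℕ}
    {z z' : ℕ → ℂ → ℂ} (h : Two v q ε b ρ m m' z z') {ζ : ℂ} (hζ : ζ ∈ ball b ρ) :
    (Pr (fun n => ε n) z m ζ * if m = q then 1 else Pr (fun n => ε (-n)) z' m' ζ) ≠ 0 ∧
    HasDerivAt (fun ζ => Pr (fun n => ε n) z m ζ *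
        if m = q then 1 else Pr (fun n => ε (-n)) z' m' ζ)
      ((Pr (fun n => ε n) z m ζ * if m = q then 1 else Pr (fun n => ε (-n)) z' m' ζ) *
        (-2 * v.y1' ζ / v.y1 ζ)) ζ := by
  have hb : ball b ρ ∈ 𝓝 ζ := isOpen_ball.mem_nhds hζ
  have hy := h.y1 ζ hζ
  have hF := fpr_quot on (h.sub hζ) hy
  have hz0 : HasDerivAt (z 0) (1 / v.y1 ζ ^ 2) ζ := by
    refine hF.congr_of_eventuallyEq ?_
    filter_upwards [hb] with x hx using h.r.zero x hx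
  have hz0' : HasDerivAt (z' 0) (1 / v.y1 ζ ^ 2) ζ := by
    refine hF.congr_of_eventuallyEq ?_
    filter_upwards [hb] with x hx using h.l.zero x hx
  have e0 : z' 0 ζ = z 0 ζ := (h.l.zero ζ hζ).trans (h.r.zero ζ hζ).symm
  have ha : z 1 ζ - z 0 ζ ≠ 0 :=
    sub_ne_zero.2 (h.r.ne 0 (by have := h.r.one_le; omega) ζ hζ)
  have hb' : z' 1 ζ - z 0 ζ ≠ 0 := by
    rw [← e0]
    exact sub_ne_zero.2 (h.l.ne 0 (by have := h.l.one_le; omega) ζ hζ)
  have halg := fpr_alg ha hb' hy (h.zero ζ hζ)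
  obtain ⟨hP, hPd⟩ := cons_side h.r hζ
  obtain ⟨hP', hPd'⟩ := cons_side h.l hζ
  by_cases hm : m = q
  · -- the closed case
    simp only [hm, if_true, mul_one]
    rw [hm] at hP hPd
    refine ⟨hP, ?_⟩
    have hzq : HasDerivAt (z q) (1 / v.y1 ζ ^ 2) ζ := by
      refine hz0.congr_of_eventuallyEq ?_
      filter_upwards [hb] with x hx using (h.close hm x hx).1
    have e1 : deriv (z q) ζ / (z q ζ - z (q - 1) ζ) - deriv (z 0) ζ / (z 1 ζ - z 0 ζ) =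
        -2 * v.y1' ζ / v.y1 ζ := by
      rw [hzq.deriv, hz0.deriv, (h.close hm ζ hζ).1, (h.close hm ζ hζ).2, ← halg,
        ← neg_sub (z' 1 ζ) (z 0 ζ), div_neg]
      ring
    rw [e1] at hPd
    exact hPd
  · -- the open case
    simp only [hm, if_false]
    have hmq : m < q := lt_of_le_of_ne h.r.le hm
    have hm'q : m' < q := lt_of_le_of_ne h.l.le (fun hh => hm (h.iff.2 hh))
    refine ⟨mul_ne_zero hP hP', ?_⟩
    have d1 : deriv (z m) ζ = 0 := by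
      have : z m =ᶠ[𝓝 ζ] fun _ => ε m := by
        filter_upwards [hb] with x hx using h.r.hit hmq x hx
      rw [this.deriv_eq, deriv_const]
    have d2 : deriv (z' m') ζ = 0 := by
      have : z' m' =ᶠ[𝓝 ζ] fun _ => ε (-m') := by
        filter_upwards [hb] with x hx using h.l.hit hm'q x hx
      rw [this.deriv_eq, deriv_const]
    rw [d1, hz0.deriv] at hPd
    rw [d2, hz0'.deriv, e0] at hPd'
    refine (hPd.mul hPd').congr_deriv ?_
    rw [← halg]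
    ring

/-- With `F = v.y2 / v.y1`, `F' = 1 / v.y1²` (Wronskian one), the relation at the node zero gives
`F' / (z_1 - F) + F' / (z'_1 - F) = 2 v.y1' / v.y1 = - F'' / F'`.  Case `m < q` (then `m' < q`):
`z m = ε m` and `z' m' = ε (-m')` are constant, so the logarithmic derivative of `Pr_r Pr_l` is
`- F' / (z_1 - F) - F' / (z'_1 - F) = F'' / F'`.  Case `m = q`: `z q = F`, `z (q-1) = z' 1`, so the
logarithmic derivative of `Pr_r` is `F' / (F - z'_1) - F' / (z_1 - F)`, the same.  So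
`1 / v.y1²` divided by the product has derivative zero on the disc. -/
theorem fpr {v : Sys} (on : v.On HP) {q : ℕ} {ε : ℤ → ℂ} {b : ℂ} {ρ : ℝ} {m m' : ℕ}
    {z z' : ℕ → ℂ → ℂ} (h : Two v q ε b ρ m m' z z') :
    ∃ C : ℂ, C ≠ 0 ∧ ∀ ζ ∈ ball b ρ, 1 / v.y1 ζ ^ 2 =
      C * (Pr (fun n => ε n) z m ζ * if m = q then 1 else Pr (fun n => ε (-n)) z' m' ζ) := by
  set P : ℂ → ℂ := fun ζ => Pr (fun n => ε n) z m ζ *
        if m = q then 1 else Pr (fun n => ε (-n)) z' m' ζ with hPdef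
  have hlog : ∀ ζ ∈ ball b ρ, P ζ ≠ 0 ∧ HasDerivAt P (P ζ * (-2 * v.y1' ζ / v.y1 ζ)) ζ :=
    fun ζ hζ => fpr_log on h hζ
  have hd : ∀ ζ ∈ ball b ρ, HasDerivAt (fun ζ => P ζ * v.y1 ζ ^ 2) 0 ζ := by
    intro ζ hζ
    refine ((hlog ζ hζ).2.mul ((on.d1 ζ (h.sub hζ)).pow 2)).congr_deriv ?_
    have hy := h.y1 ζ hζ
    rw [Pi.pow_apply]
    field_simp
    ring
  have hbb : b ∈ ball b ρ := mem_ball_self h.pos
  have hconst : ∀ ζ ∈ ball b ρ, P ζ * v.y1 ζ ^ 2 = P b * v.y1 b ^ 2 := by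
    intro ζ hζ
    exact isOpen_ball.is_const_of_deriv_eq_zero (convex_ball b ρ).isPreconnected
      (fun x hx => (hd x hx).differentiableAt.differentiableWithinAt)
      (fun x hx => (hd x hx).deriv) hζ hbb
  have hK : P b * v.y1 b ^ 2 ≠ 0 := mul_ne_zero (hlog b hbb).1 (pow_ne_zero 2 (h.y1 b hbb))
  refine ⟨(P b * v.y1 b ^ 2)⁻¹, inv_ne_zero hK, fun ζ hζ => ?_⟩
  have hy := h.y1 ζ hζ
  have h1 := hconst ζ hζ
  show 1 / v.y1 ζ ^ 2 = (P b * v.y1 b ^ 2)⁻¹ * P ζ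
  rw [← h1, mul_inv, mul_comm (P ζ)⁻¹, mul_assoc, inv_mul_cancel₀ (hlog ζ hζ).1, mul_one, one_div]

end Pool.Agent.MP_ae5b4e_an_NB4C
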