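import Pool.Agent.Lib.MP_ae5b4e_an_NB4C.Defs
import Pool.Agent.Lib.MP_ae5b4e_an_NB4C.AlgA
import Pool.Agent.Lib.MP_ae5b4e_an_NB4C.Fpr

/-!
# MP_ae5b4e_an, NB_4 part C: the derivative is algebraic over the field of F
-/

noncomputable section

namespace Pool.Agent.MP_ae5b4e_an_NB4C

open Complex Set Filter Topology Metric
open Pool.Agent.MP_ae5b4e_an_NB2 (Sys)
open Pool.Agent.MP_ae5b4e_an_NB4 (wdg uu uu')

private lemma algb_open : IsOpen HP := by
  unfold HP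
  exact isOpen_lt Complex.continuous_im continuous_const

private lemma algb_an1 {v : Sys} (on : v.On HP) : AnalyticOnNhd ℂ v.y1 HP :=
  DifferentiableOn.analyticOnNhd
    (fun z hz => (on.d1 z hz).differentiableAt.differentiableWithinAt) algb_open

private lemma algb_an2 {v : Sys} (on : v.On HP) : AnalyticOnNhd ℂ v.y2 HP :=
  DifferentiableOn.analyticOnNhd
    (fun z hz => (on.d2 z hz).differentiableAt.differentiableWithinAt) algb_open

private lemma algb_F {v : Sys} (on : v.On HP) {b : ℂ} {ρ : ℝ} (hs : ball b ρ ⊆ HP)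
    (hy : ∀ ζ ∈ ball b ρ, v.y1 ζ ≠ 0) :
    AnalyticOnNhd ℂ (fun ζ => v.y2 ζ / v.y1 ζ) (ball b ρ) := fun ζ hζ =>
  (algb_an2 on ζ (hs hζ)).div (algb_an1 on ζ (hs hζ)) (hy ζ hζ)

private lemma algb_ne {v : Sys} (on : v.On HP) {b : ℂ} {ρ : ℝ} (hρ : 0 < ρ)
    (hs : ball b ρ ⊆ HP) (hy : ∀ ζ ∈ ball b ρ, v.y1 ζ ≠ 0) :
    ∃ x ∈ ball b ρ, ∃ y ∈ ball b ρ,
      (fun ζ => v.y2 ζ / v.y1 ζ) x ≠ (fun ζ => v.y2 ζ / v.y1 ζ) y := by
  by_contra hcon
  push Not at hcon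
  have hb : b ∈ ball b ρ := mem_ball_self hρ
  have h1 : HasDerivAt (fun ζ => v.y2 ζ / v.y1 ζ)
      ((v.y2' b * v.y1 b - v.y2 b * v.y1' b) / v.y1 b ^ 2) b :=
    (on.d2 b (hs hb)).div (on.d1 b (hs hb)) (hy b hb)
  have h2 : HasDerivAt (fun ζ => v.y2 ζ / v.y1 ζ) 0 b := by
    have h3 : (fun ζ => v.y2 ζ / v.y1 ζ) =ᶠ[𝓝 b] fun _ => v.y2 b / v.y1 b := by
      filter_upwards [isOpen_ball.mem_nhds hb] with x hx
      exact hcon x hx b hb
    exact (hasDerivAt_const b (v.y2 b / v.y1 b)).congr_of_eventuallyEq h3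
  have h4 := h1.unique h2
  have h5 : v.y2' b * v.y1 b - v.y2 b * v.y1' b = 1 := by
    have := on.wr b (hs hb)
    linear_combination this
  rw [h5] at h4
  have h6 : v.y1 b ^ 2 ≠ 0 := pow_ne_zero 2 (hy b hb)
  exact one_div_ne_zero h6 h4

section algb

variable {b : ℂ} {ρ : ℝ} {F f g c : ℂ → ℂ}

private lemma algb_sub (hF : AnalyticOnNhd ℂ F (ball b ρ))
    (hn : ∃ x ∈ ball b ρ, ∃ y ∈ ball b ρ, F x ≠ F y)
    (hf : AnalyticOnNhd ℂ f (ball b ρ)) (hg : AnalyticOnNhd ℂ g (ball b ρ))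
    (h1 : AlgOn (ball b ρ) F f) (h2 : AlgOn (ball b ρ) F g) :
    AlgOn (ball b ρ) F (fun z => f z - g z) := by
  have hB : IsOpen (ball b ρ) := isOpen_ball
  have hc : IsPreconnected (ball b ρ) := (convex_ball b ρ).isPreconnected
  have h3 : AlgOn (ball b ρ) F (fun z => (fun _ => (-1 : ℂ)) z * g z) :=
    algOn_mul hB hc hF hn (fun _ _ => analyticAt_const) hg (algOn_const (-1)) h2
  have h4 := algOn_add hB hc hF hn hf
    (fun z hz => ((analyticAt_const (v := (-1 : ℂ))).mul (hg z hz))) h1 h3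
  exact algOn_congr (fun z _ => by simp [sub_eq_add_neg]) h4

private lemma algb_prod (hF : AnalyticOnNhd ℂ F (ball b ρ))
    (hn : ∃ x ∈ ball b ρ, ∃ y ∈ ball b ρ, F x ≠ F y) (s : Finset ℕ) (u : ℕ → ℂ → ℂ)
    (hf : ∀ n ∈ s, AnalyticOnNhd ℂ (u n) (ball b ρ) ∧ AlgOn (ball b ρ) F (u n)) :
    AnalyticOnNhd ℂ (fun z => ∏ n ∈ s, u n z) (ball b ρ) ∧
      AlgOn (ball b ρ) F (fun z => ∏ n ∈ s, u n z) := by
  have hB : IsOpen (ball b ρ) := isOpen_ball
  have hc : IsPreconnected (ball b ρ) := (convex_ball b ρ).isPreconnected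
  induction s using Finset.induction_on with
  | empty =>
    constructor
    · intro z _
      simp only [Finset.prod_empty]
      exact analyticAt_const
    · simp only [Finset.prod_empty]
      exact algOn_const 1
  | insert a s ha ih =>
    obtain ⟨i1, i2⟩ := ih (fun n hn => hf n (Finset.mem_insert_of_mem hn))
    obtain ⟨j1, j2⟩ := hf a (Finset.mem_insert_self a s)
    constructor
    · intro z hz
      simp only [Finset.prod_insert ha]
      exact (j1 z hz).mul (i1 z hz)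
    · simp only [Finset.prod_insert ha]
      exact algOn_mul hB hc hF hn j1 i1 j2 i2

private lemma algb_inv (hρ : 0 < ρ) (hF : AnalyticOnNhd ℂ F (ball b ρ))
    (hn : ∃ x ∈ ball b ρ, ∃ y ∈ ball b ρ, F x ≠ F y)
    (hf : AnalyticOnNhd ℂ f (ball b ρ)) (h0 : ∀ z ∈ ball b ρ, f z ≠ 0)
    (h1 : AlgOn (ball b ρ) F f) :
    AnalyticOnNhd ℂ (fun z => (f z ^ 2)⁻¹) (ball b ρ) ∧
      AlgOn (ball b ρ) F (fun z => (f z ^ 2)⁻¹) := by
  have hB : IsOpen (ball b ρ) := isOpen_ball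
  have hc : IsPreconnected (ball b ρ) := (convex_ball b ρ).isPreconnected
  have h2 : AnalyticOnNhd ℂ (fun z => (f z ^ 2)⁻¹) (ball b ρ) := fun z hz =>
    ((hf z hz).pow 2).inv (pow_ne_zero 2 (h0 z hz))
  refine ⟨h2, ?_⟩
  have h3 : AlgOn (ball b ρ) F (fun z => f z * f z) := algOn_mul hB hc hF hn hf hf h1 h1
  refine algOn_quot (c := fun z => f z * f z) hB hc hF hn
    (fun z hz => (hf z hz).mul (hf z hz)) h2
    ⟨b, mem_ball_self hρ, mul_ne_zero (h0 b (mem_ball_self hρ)) (h0 b (mem_ball_self hρ))⟩ h3 ?_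
  refine algOn_congr (f := fun _ => (1 : ℂ)) (fun z hz => ?_) (algOn_const 1)
  have := h0 z hz
  field_simp

end algb

/-- One side: all `z n`, `n ≤ m`, are algebraic over `ℂ(F)`, `F = v.y2 / v.y1`.  Induction: the node
relation is `z_{n+1} (ε_n + z_n - 2 z_{n-1}) = (ε_n - z_{n-1}) z_n + (z_n - z_{n-1}) ε_n`, and the
coefficient vanishes nowhere (it would give `(z_n - z_{n-1})² = 0`). -/
theorem algOn_side {v : Sys} (on : v.On HP) {q : ℕ} {ε : ℕ → ℂ} {b : ℂ} {ρ : ℝ} {m : ℕ}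
    {z : ℕ → ℂ → ℂ} (hρ : 0 < ρ) (hs : ball b ρ ⊆ HP) (hy : ∀ ζ ∈ ball b ρ, v.y1 ζ ≠ 0)
    (h : Side v q ε b ρ m z) :
    ∀ n ≤ m, AlgOn (ball b ρ) (fun ζ => v.y2 ζ / v.y1 ζ) (z n) := by
  have hB : IsOpen (ball b ρ) := isOpen_ball
  have hc : IsPreconnected (ball b ρ) := (convex_ball b ρ).isPreconnected
  have hF := algb_F on hs hy
  have hn := algb_ne on hρ hs hy
  have key : ∀ n : ℕ, (n ≤ m → AlgOn (ball b ρ) (fun ζ => v.y2 ζ / v.y1 ζ) (z n)) ∧
      (n + 1 ≤ m → AlgOn (ball b ρ) (fun ζ => v.y2 ζ / v.y1 ζ) (z (n + 1))) := by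
    intro n
    induction n with
    | zero =>
      refine ⟨fun _ => ?_, fun _ => ?_⟩
      · exact algOn_congr (fun ζ hζ => (h.zero ζ hζ).symm) algOn_self
      · exact h.alg
    | succ n ih =>
      refine ⟨ih.2, fun hm => ?_⟩
      have a0 := ih.1 (by omega)
      have a1 := ih.2 (by omega)
      have n0 : AnalyticOnNhd ℂ (z n) (ball b ρ) := h.an n (by omega)
      have n1 : AnalyticOnNhd ℂ (z (n + 1)) (ball b ρ) := h.an (n + 1) (by omega)
      have n2 : AnalyticOnNhd ℂ (z (n + 2)) (ball b ρ) := h.an (n + 2) (by omega)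
      have hk : AnalyticOnNhd ℂ (fun _ : ℂ => ε (n + 1)) (ball b ρ) :=
        fun _ _ => analyticAt_const
      have ak : AlgOn (ball b ρ) (fun ζ => v.y2 ζ / v.y1 ζ) (fun _ : ℂ => ε (n + 1)) :=
        algOn_const _
      have nd : ∀ ζ ∈ ball b ρ, z (n + 1) ζ - z n ζ ≠ 0 := fun ζ hζ =>
        sub_ne_zero.mpr (h.ne n (by omega) ζ hζ)
      have node : ∀ ζ ∈ ball b ρ, (ε (n + 1) - z (n + 2) ζ) * (z n ζ - z (n + 1) ζ) +
          (ε (n + 1) - z n ζ) * (z (n + 2) ζ - z (n + 1) ζ) = 0 := fun ζ hζ => by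
        have := h.node (n + 1) (by omega) (by omega) ζ hζ
        simpa using this
      -- differences
      have d1 := algb_sub hF hn n1 n0 a1 a0
      have e1 : AnalyticOnNhd ℂ (fun ζ => z (n + 1) ζ - z n ζ) (ball b ρ) :=
        fun ζ hζ => (n1 ζ hζ).sub (n0 ζ hζ)
      have d2 := algb_sub hF hn hk n0 ak a0
      have e2 : AnalyticOnNhd ℂ (fun ζ => ε (n + 1) - z n ζ) (ball b ρ) :=
        fun ζ hζ => analyticAt_const.sub (n0 ζ hζ)
      have hcA := algOn_add hB hc hF hn e1 e2 d1 d2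
      have hcN : AnalyticOnNhd ℂ (fun ζ => (z (n + 1) ζ - z n ζ) + (ε (n + 1) - z n ζ))
          (ball b ρ) := fun ζ hζ => (e1 ζ hζ).add (e2 ζ hζ)
      refine algOn_quot hB hc hF hn hcN n2 ?_ hcA ?_
      · refine ⟨b, mem_ball_self hρ, fun h0 => ?_⟩
        have h1 := node b (mem_ball_self hρ)
        have h2 := nd b (mem_ball_self hρ)
        have h3 : (z (n + 1) b - z n b) * (z (n + 1) b - z n b) = 0 := by
          have hh : ε (n + 1) = 2 * z n b - z (n + 1) b := by linear_combination h0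
          rw [hh] at h1
          linear_combination (1 / 2 : ℂ) * h1
        rcases mul_self_eq_zero.mp h3 with h4
        exact h2 h4
      · have t1 := algOn_mul hB hc hF hn e2 n1 d2 a1
        have t2 := algOn_mul hB hc hF hn e1 hk d1 ak
        have t3 := algOn_add hB hc hF hn (fun ζ hζ => (e2 ζ hζ).mul (n1 ζ hζ))
          (fun ζ hζ => (e1 ζ hζ).mul (hk ζ hζ)) t1 t2
        refine algOn_congr (fun ζ hζ => ?_) t3
        have := node ζ hζ
        simp only [Pi.mul_apply]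
        linear_combination (-1 : ℂ) * this
  exact fun n hnm => (key n).1 hnm

private lemma algb_Pr {v : Sys} (on : v.On HP) {q : ℕ} {ε : ℕ → ℂ} {b : ℂ} {ρ : ℝ} {m : ℕ}
    {z : ℕ → ℂ → ℂ} (hρ : 0 < ρ) (hs : ball b ρ ⊆ HP) (hy : ∀ ζ ∈ ball b ρ, v.y1 ζ ≠ 0)
    (h : Side v q ε b ρ m z) :
    AnalyticOnNhd ℂ (fun ζ => Pr ε z m ζ) (ball b ρ) ∧
      AlgOn (ball b ρ) (fun ζ => v.y2 ζ / v.y1 ζ) (fun ζ => Pr ε z m ζ) := by
  have hB : IsOpen (ball b ρ) := isOpen_ball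
  have hc : IsPreconnected (ball b ρ) := (convex_ball b ρ).isPreconnected
  have hF := algb_F on hs hy
  have hn := algb_ne on hρ hs hy
  have hz := algOn_side on hρ hs hy h
  have h1 := algb_prod hF hn (Finset.range m) (fun n ζ => z (n + 1) ζ - z n ζ) (fun n hnm => by
    have hnm' := Finset.mem_range.mp hnm
    have n0 := h.an n (by omega)
    have n1 := h.an (n + 1) (by omega)
    exact ⟨fun ζ hζ => (n1 ζ hζ).sub (n0 ζ hζ),
      algb_sub hF hn n1 n0 (hz (n + 1) (by omega)) (hz n (by omega))⟩)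
  have h2 := algb_prod hF hn (Finset.Ico 1 m) (fun n ζ => ((ε n - z n ζ) ^ 2)⁻¹)
    (fun n hnm => by
      have hnm' := Finset.mem_Ico.mp hnm
      have n0 := h.an n (by omega)
      have hk : AnalyticOnNhd ℂ (fun _ : ℂ => ε n) (ball b ρ) := fun _ _ => analyticAt_const
      exact algb_inv hρ hF hn (f := fun ζ => ε n - z n ζ)
        (fun ζ hζ => (hk ζ hζ).sub (n0 ζ hζ))
        (fun ζ hζ => sub_ne_zero.mpr (h.nee n (by omega) (by omega) ζ hζ).symm)
        (algb_sub hF hn hk n0 (algOn_const _) (hz n (by omega))))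
  constructor
  · intro ζ hζ
    exact (h1.1 ζ hζ).mul (h2.1 ζ hζ)
  · exact algOn_mul hB hc hF hn h1.1 h2.1 h1.2 h2.2

/-- The products `Pr` are algebraic (`algOn_mul`, `algOn_quot`), so `1 / v.y1²` is, by `fpr`. -/
theorem algOn_der {v : Sys} (on : v.On HP) {q : ℕ} {ε : ℤ → ℂ} {b : ℂ} {ρ : ℝ} {m m' : ℕ}
    {z z' : ℕ → ℂ → ℂ} (h : Two v q ε b ρ m m' z z') :
    AlgOn (ball b ρ) (fun ζ => v.y2 ζ / v.y1 ζ) (fun ζ => 1 / v.y1 ζ ^ 2) := by
  have hB : IsOpen (ball b ρ) := isOpen_ball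
  have hc : IsPreconnected (ball b ρ) := (convex_ball b ρ).isPreconnected
  have hF := algb_F on h.sub h.y1
  have hn := algb_ne on h.pos h.sub h.y1
  have hr := algb_Pr on h.pos h.sub h.y1 h.r
  have hl := algb_Pr on h.pos h.sub h.y1 h.l
  obtain ⟨C, -, hC⟩ := fpr on h
  have hk : AnalyticOnNhd ℂ (fun _ : ℂ => C) (ball b ρ) := fun _ _ => analyticAt_const
  by_cases hm : m = q
  · have t := algOn_mul hB hc hF hn hk hr.1 (algOn_const C) hr.2
    refine algOn_congr (fun ζ hζ => ?_) t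
    rw [hC ζ hζ, if_pos hm, mul_one]
  · have t := algOn_mul hB hc hF hn hr.1 hl.1 hr.2 hl.2
    have t2 := algOn_mul hB hc hF hn hk (fun ζ hζ => (hr.1 ζ hζ).mul (hl.1 ζ hζ))
      (algOn_const C) t
    refine algOn_congr (fun ζ hζ => ?_) t2
    rw [hC ζ hζ, if_neg hm]
    simp only [Pi.mul_apply]

end Pool.Agent.MP_ae5b4e_an_NB4C
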