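import Pool.Agent.Lib.MP_ae5b4e_an_NB4C.Defs


/-!
# MP_ae5b4e_an, NB_4 part C: boundary uniqueness on a strip (three lines theorem)
-/

noncomputable section

namespace Pool.Agent.MP_ae5b4e_an_NB4C

open Complex Set Filter Topology Metric
open Pool.Agent.MP_ae5b4e_an_NB2 (Sys)
open Pool.Agent.MP_ae5b4e_an_NB4 (wdg uu uu')

/-- The three lines theorem between `Im = l` and `Im = u` (bounds `1` and `η`). -/
theorem bdu_three {f : ℂ → ℂ} {δ l u η : ℝ} (hf : DifferentiableOn ℂ f (Sd δ))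
    (hl : 1 / 2 - δ < l) (hlu : l < u) (hu : u < 1 / 2)
    (h1 : ∀ t : ℂ, l ≤ t.im → t.im ≤ u → ‖f t‖ ≤ 1) (hη : ∀ t : ℂ, t.im = u → ‖f t‖ ≤ η)
    {t : ℂ} (ht1 : l ≤ t.im) (ht2 : t.im ≤ u) : ‖f t‖ ≤ η ^ ((t.im - l) / (u - l)) := by
  have hI : ∀ w : ℂ, (I * w).im = w.re := fun w => by simp
  have hopen : IsOpen (Sd δ) := by
    have h2 : Sd δ = Complex.im ⁻¹' Ioo (1 / 2 - δ) (1 / 2) := rfl
    rw [h2]
    exact isOpen_Ioo.preimage Complex.continuous_im
  have hd : ∀ w : ℂ, l ≤ w.re → w.re ≤ u → DifferentiableAt ℂ (fun w => f (I * w)) w := by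
    intro w hw1 hw2
    have h2 : I * w ∈ Sd δ := by
      change 1 / 2 - δ < (I * w).im ∧ (I * w).im < 1 / 2
      rw [hI]
      exact ⟨by linarith, by linarith⟩
    have h3 : DifferentiableAt ℂ f (I * w) := hf.differentiableAt (hopen.mem_nhds h2)
    have h4 : DifferentiableAt ℂ (fun w : ℂ => I * w) w := by fun_prop
    exact h3.comp w h4
  have hcl : closure (HadamardThreeLines.verticalStrip l u) ⊆
      HadamardThreeLines.verticalClosedStrip l u := by
    refine closure_minimal ?_ (isClosed_Icc.preimage Complex.continuous_re)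
    exact fun w hw => ⟨hw.1.le, hw.2.le⟩
  have hD : DiffContOnCl ℂ (fun w => f (I * w)) (HadamardThreeLines.verticalStrip l u) := by
    refine ⟨fun w hw => (hd w hw.1.le hw.2.le).differentiableWithinAt, fun w hw => ?_⟩
    have hw' := hcl hw
    exact (hd w hw'.1 hw'.2).continuousAt.continuousWithinAt
  have hB : BddAbove ((norm ∘ fun w => f (I * w)) ''
      HadamardThreeLines.verticalClosedStrip l u) := by
    refine ⟨1, ?_⟩
    rintro _ ⟨w, hw, rfl⟩
    refine h1 _ ?_ ?_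
    · rw [hI]; exact hw.1
    · rw [hI]; exact hw.2
  have hw : (-I * t).re = t.im := by simp
  have hz : -I * t ∈ HadamardThreeLines.verticalClosedStrip l u := by
    change (-I * t).re ∈ Icc l u
    rw [hw]
    exact ⟨ht1, ht2⟩
  have h5 := HadamardThreeLines.norm_le_interp_of_mem_verticalClosedStrip'
    (f := fun w => f (I * w)) (a := 1) (b := η) hlu hz hD hB
    (fun w (hw : w.re = l) => h1 _ (by rw [hI, hw]) (by rw [hI, hw]; exact hlu.le))
    (fun w (hw : w.re = u) => hη _ (by rw [hI, hw]))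
  have h6 : I * (-I * t) = t := by
    rw [← mul_assoc, mul_neg, I_mul_I, neg_neg, one_mul]
  rw [Real.one_rpow, one_mul, hw] at h5
  simp only [h6] at h5
  exact h5

/-- A holomorphic function on `Sd δ` which tends to zero uniformly at the line `Im = 1/2` is zero
on a thinner strip: it is bounded by 1 on `Sd δ'`, extends continuously by zero to the line; apply
the three lines theorem (`Complex.HadamardThreeLines`, rotate the strip) to
`1/2 - δ'/2 ≤ Im ≤ 1/2`: the supremum on the top line is zero. -/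
theorem zero_of_bd {δ : ℝ} (hδ : 0 < δ) {f : ℂ → ℂ} (hf : DifferentiableOn ℂ f (Sd δ))
    (h0 : ∀ η > 0, ∃ δ' > 0, ∀ t ∈ Sd δ', t ∈ Sd δ → ‖f t‖ < η) :
    ∃ δ' > 0, δ' ≤ δ ∧ ∀ t ∈ Sd δ', f t = 0 := by
  obtain ⟨δ1, hδ1, h1⟩ := h0 1 one_pos
  obtain ⟨d, hd⟩ : ∃ d, d = min δ δ1 := ⟨_, rfl⟩
  have hd0 : 0 < d := hd ▸ lt_min hδ hδ1
  have hdδ : d ≤ δ := hd ▸ min_le_left _ _
  have hdδ1 : d ≤ δ1 := hd ▸ min_le_right _ _
  refine ⟨d / 2, by positivity, by linarith, fun t ht => ?_⟩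
  obtain ⟨ht1, ht2⟩ := ht
  by_contra hne
  have hpos : 0 < ‖f t‖ := norm_pos_iff.2 hne
  have hlt : ‖f t‖ < 1 := h1 t ⟨by linarith, ht2⟩ ⟨by linarith, ht2⟩
  obtain ⟨a, ha⟩ : ∃ a, a = ‖f t‖ / 2 := ⟨_, rfl⟩
  have ha0 : 0 < a := by rw [ha]; positivity
  have ha1 : a < 1 := by rw [ha]; linarith
  obtain ⟨δη, hδη, hη⟩ := h0 (a ^ 3) (by positivity)
  obtain ⟨u, hu1, hu2⟩ : ∃ u, max t.im (max (1 / 2 - δη) (1 / 2 - d / 2)) < u ∧ u < 1 / 2 := by
    refine exists_between (max_lt ht2 (max_lt (by linarith) (by linarith)))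
  rw [max_lt_iff, max_lt_iff] at hu1
  obtain ⟨hu3, hu4, hu5⟩ := hu1
  have key := bdu_three (f := f) (δ := δ) (l := 1 / 2 - 3 * d / 4) (u := u) (η := a ^ 3) hf
    (by linarith) (by linarith) hu2
    (fun s hs1 hs2 => (h1 s ⟨by linarith, by linarith⟩ ⟨by linarith, by linarith⟩).le)
    (fun s hs => (hη s ⟨by linarith, by linarith⟩ ⟨by linarith, by linarith⟩).le)
    (t := t) (by linarith) hu3.le
  have h3 : (1 / 3 : ℝ) ≤ (t.im - (1 / 2 - 3 * d / 4)) / (u - (1 / 2 - 3 * d / 4)) := by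
    rw [div_le_div_iff₀ (by norm_num) (by linarith)]
    linarith
  have h4 : (a ^ 3 : ℝ) ^ ((t.im - (1 / 2 - 3 * d / 4)) / (u - (1 / 2 - 3 * d / 4))) ≤
      (a ^ 3 : ℝ) ^ (1 / 3 : ℝ) :=
    Real.rpow_le_rpow_of_exponent_ge (by positivity) (pow_le_one₀ ha0.le ha1.le) h3
  have h5 : (a ^ 3 : ℝ) ^ (1 / 3 : ℝ) = a := by
    rw [← Real.rpow_natCast, ← Real.rpow_mul ha0.le]
    norm_num
  rw [h5] at h4
  linarith

end Pool.Agent.MP_ae5b4e_an_NB4C
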