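import Pool.Agent.Lib.MP_ae5b4e_an_NB4C.Defs


/-!
# MP_ae5b4e_an, NB_4 part C: change of the coordinate of the projective line
-/

noncomputable section

namespace Pool.Agent.MP_ae5b4e_an_NB4C

open Complex Set Filter Topology Metric
open Pool.Agent.MP_ae5b4e_an_NB2 (Sys)
open Pool.Agent.MP_ae5b4e_an_NB4 (wdg uu uu')

theorem wdg_act (s : ℂ) (a b : ℂ × ℂ) : wdg (act s a) (act s b) = wdg a b := by
  simp only [wdg, act]
  ring

theorem act_ne {s : ℂ} {a : ℂ × ℂ} (ha : a ≠ 0) : act s a ≠ 0 := by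
  intro h
  apply ha
  have h1 : s * a.1 - a.2 = 0 := congrArg Prod.fst h
  have h2 : a.1 = 0 := congrArg Prod.snd h
  rw [h2, mul_zero, zero_sub, neg_eq_zero] at h1
  exact Prod.ext h2 h1

theorem actS_on {v : Sys} {S : Set ℂ} (h : v.On S) (s : ℂ) : (actS s v).On S := by
  refine ⟨fun z hz => ((h.d1 z hz).const_mul s).sub (h.d2 z hz), fun z hz => ?_,
    fun z hz => h.d1 z hz, fun z hz => h.d1' z hz, fun z hz => ?_⟩
  · refine (((h.d1' z hz).const_mul s).sub (h.d2' z hz)).congr_deriv ?_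
    show s * -(v.Q z * v.y1 z) - -(v.Q z * v.y2 z) = -(v.Q z * (s * v.y1 z - v.y2 z))
    ring
  · have h1 := h.wr z hz
    show (s * v.y1 z - v.y2 z) * v.y1' z - (s * v.y1' z - v.y2' z) * v.y1 z = 1
    linear_combination h1

theorem actS_s (v : Sys) (s a b : ℂ) : (actS s v).s a b = v.s a b := by
  simp only [Sys.s, actS]
  ring

theorem actS_nf {v : Sys} (h : NFl v) (s : ℂ) : NFl (actS s v) := by
  obtain ⟨ε, hε, h1⟩ := h
  refine ⟨ε, hε, fun t ht h2 => h1 t ht fun a ha b hb hab => h2 a ha b hb ?_⟩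
  rw [actS_s, hab]

theorem actS_st {v : Sys} {q : ℕ} {e : ℤ → ℂ × ℂ} {ζ : ℂ} {X Y : ℤ → ℂ × ℂ}
    (h : St4 v q e ζ X Y) (s : ℂ) :
    St4 (actS s v) q (fun n => act s (e n)) ζ (fun n => act s (X n)) (fun n => act s (Y n)) := by
  refine ⟨fun n => act_ne (h.ne n), fun n => act_ne (h.neY n), fun n => ?_, fun n => ?_,
    fun n hn => ?_, ?_, ?_, fun hn => ?_⟩
  · rw [wdg_act]
    exact h.per n
  · simp only [wdg_act]
    exact h.node n
  · simp only [wdg_act]
    exact h.pole n hn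
  · show act s (X 0) = uu (actS s v) ζ
    rw [h.own]
    rfl
  · show act s (Y 0) = uu' (actS s v) ζ
    rw [h.own']
    rfl
  · have e1 : uu (actS s v) ζ = act s (uu v ζ) := rfl
    rw [e1] at hn
    simp only [wdg_act] at hn ⊢
    exact h.sep hn

/-- A non-zero vector has first coordinate zero after `act s` for at most one `s`. -/
theorem act_fst_inj {a : ℂ × ℂ} (ha : a ≠ 0) {s t : ℂ} (hs : (act s a).1 = 0)
    (ht : (act t a).1 = 0) : s = t := by
  have h1 : s * a.1 - a.2 = 0 := hs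
  have h2 : t * a.1 - a.2 = 0 := ht
  have h3 : (s - t) * a.1 = 0 := by linear_combination h1 - h2
  rcases mul_eq_zero.1 h3 with h4 | h4
  · exact sub_eq_zero.1 h4
  · exfalso
    apply ha
    rw [h4, mul_zero, zero_sub, neg_eq_zero] at h1
    exact Prod.ext h4 h1

end Pool.Agent.MP_ae5b4e_an_NB4C
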