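import Pool.Agent.Lib.MP_ae5b4e_an_NB4C.Defs
import Pool.Agent.Lib.MP_ae5b4e_an_NB4C.Act

/-!
# MP_ae5b4e_an, NB_4 part C: affine states
-/

noncomputable section

namespace Pool.Agent.MP_ae5b4e_an_NB4C

open Complex Set Filter Topology Metric
open Pool.Agent.MP_ae5b4e_an_NB2 (Sys)
open Pool.Agent.MP_ae5b4e_an_NB4 (wdg uu uu')

private theorem Aff_wdg {a b : ℂ × ℂ} (ha : a.1 ≠ 0) (hb : b.1 ≠ 0) :
    wdg a b = a.1 * b.1 * (b.2 / b.1 - a.2 / a.1) := by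
  unfold wdg
  field_simp

private theorem Aff_wdg_zero {a b : ℂ × ℂ} (ha : a.1 ≠ 0) (hb : b.1 ≠ 0) :
    wdg a b = 0 ↔ a.2 / a.1 = b.2 / b.1 := by
  rw [Aff_wdg ha hb]
  constructor
  · intro h
    have h1 := (mul_eq_zero.1 h).resolve_left (mul_ne_zero ha hb)
    exact (sub_eq_zero.1 h1).symm
  · intro h
    rw [h, sub_self, mul_zero]

/-- The affine state.  `x n = X_n.2 / X_n.1`.  `own`: `X 0 = uu v ζ`.
`node`: for `q ∤ n`, `x n ≠ ε n` the alternative `pole` gives `Y n ∥ e n`, `Y n = c e n`, `c ≠ 0`;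
divide the node relation by `c X_{n+1}.1 X_{n-1}.1 (X_n.1)² (e n).1`-factors:
`wdg (1, a) (1, b) = b - a`.
`zero`: with `X 0 = (v1, v2) = v1 (1, F)`, `Y 0 = (v1', v2')`, `wdg (1, x) Y = v2' - x v1'`
`= 1 / v1 - (x - F) v1'` (Wronskian `v1 v2' - v1' v2 = 1`); the node relation at `0` reads
`(1/v1 - (x₁ - F) v1') (x₋₁ - F) + (1/v1 - (x₋₁ - F) v1') (x₁ - F) = 0`, i.e.
`(x₁ - F) + (x₋₁ - F) = 2 v1 v1' (x₁ - F) (x₋₁ - F)`.
`sep`: `wdg (X 1) (X 0) ≠ 0` by `St4.sep`; `sep'` from `zero` and `sep`. -/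
theorem sc_of_st {v : Sys} (on : v.On HP) {q : ℕ} {e : ℤ → ℂ × ℂ} {ζ : ℂ} (hζ : ζ ∈ HP)
    {X Y : ℤ → ℂ × ℂ} (h : St4 v q e ζ X Y) (he : ∀ n, (e n).1 ≠ 0) (hX : ∀ n, (X n).1 ≠ 0)
    (hav : ∀ n, wdg (uu v ζ) (e n) ≠ 0) :
    Sc v q (fun n => (e n).2 / (e n).1) ζ (fun n => (X n).2 / (X n).1) := by
  have hX0 : X 0 = (v.y1 ζ, v.y2 ζ) := h.own
  have hY0 : Y 0 = (v.y1' ζ, v.y2' ζ) := h.own'
  have hv1 : v.y1 ζ ≠ 0 := by
    have := hX 0
    rw [hX0] at this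
    exact this
  have hsep : (X 1).2 / (X 1).1 ≠ (X 0).2 / (X 0).1 := fun hcon =>
    h.sep (fun n _ => hav n) ((Aff_wdg_zero (hX 1) (hX 0)).2 hcon)
  have hzero : ((X 1).2 / (X 1).1 - (X 0).2 / (X 0).1) +
      ((X (-1)).2 / (X (-1)).1 - (X 0).2 / (X 0).1) =
      2 * v.y1 ζ * v.y1' ζ * (((X 1).2 / (X 1).1 - (X 0).2 / (X 0).1) *
        ((X (-1)).2 / (X (-1)).1 - (X 0).2 / (X 0).1)) := by
    have h0 := h.node 0
    have hw := on.wr ζ hζ
    rw [zero_add, zero_sub] at h0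
    have a1 := hX 1
    have a2 := hX (-1)
    rw [Aff_wdg (hX 0) a2, Aff_wdg (hX 0) a1] at h0
    rw [hX0] at h0 ⊢
    rw [hY0] at h0
    unfold wdg at h0
    simp only at h0 ⊢
    set s := (X 1).2 / (X 1).1 with hs
    set r := (X (-1)).2 / (X (-1)).1 with hr
    have e1 : (X 1).2 = s * (X 1).1 := by
      rw [hs]
      field_simp
    have e2 : (X (-1)).2 = r * (X (-1)).1 := by
      rw [hr]
      field_simp
    rw [e1, e2] at h0
    set F := v.y2 ζ / v.y1 ζ with hF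
    have e3 : v.y2 ζ = F * v.y1 ζ := by
      rw [hF]
      field_simp
    rw [e3] at hw
    have h1 : (X 1).1 * (X (-1)).1 * ((v.y1 ζ * v.y2' ζ - s * (v.y1 ζ * v.y1' ζ)) * (r - F) +
        (v.y1 ζ * v.y2' ζ - r * (v.y1 ζ * v.y1' ζ)) * (s - F)) = 0 := by
      linear_combination h0
    have h2 := (mul_eq_zero.1 h1).resolve_left (mul_ne_zero a1 a2)
    have e4 : v.y1 ζ * v.y2' ζ = 1 + v.y1' ζ * (F * v.y1 ζ) := by linear_combination hw
    rw [e4] at h2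
    linear_combination h2
  refine ⟨hv1, ?_, ?_, ?_, hzero, hsep, ?_, ?_⟩
  · rw [hX0]
  · intro n
    exact (Aff_wdg_zero (hX _) (hX _)).1 (h.per n)
  · intro n hn hne
    have hp := (h.pole n hn).resolve_left fun h1 => hne ((Aff_wdg_zero (hX n) (he n)).1 h1)
    have hY1 : (Y n).1 ≠ 0 := by
      intro h1
      unfold wdg at hp
      rw [h1, zero_mul, zero_sub, neg_eq_zero] at hp
      have h2 := (mul_eq_zero.1 hp).resolve_right (he n)
      exact h.neY n (Prod.ext h1 h2)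
    have hYe := (Aff_wdg_zero hY1 (he n)).1 hp
    have h0 := h.node n
    rw [Aff_wdg (hX _) hY1, Aff_wdg (hX _) (hX _), Aff_wdg (hX _) hY1, Aff_wdg (hX _) (hX _),
      hYe] at h0
    have h1 : ((X (n + 1)).1 * (Y n).1 * (X n).1 * (X (n - 1)).1) *
        (((e n).2 / (e n).1 - (X (n + 1)).2 / (X (n + 1)).1) *
          ((X (n - 1)).2 / (X (n - 1)).1 - (X n).2 / (X n).1) +
        ((e n).2 / (e n).1 - (X (n - 1)).2 / (X (n - 1)).1) *
          ((X (n + 1)).2 / (X (n + 1)).1 - (X n).2 / (X n).1)) = 0 := by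
      linear_combination h0
    exact (mul_eq_zero.1 h1).resolve_left
      (mul_ne_zero (mul_ne_zero (mul_ne_zero (hX _) hY1) (hX _)) (hX _))
  · intro hcon
    change (X (-1)).2 / (X (-1)).1 = (X 0).2 / (X 0).1 at hcon
    rw [hcon, sub_self, add_zero, mul_zero, mul_zero] at hzero
    exact hsep (sub_eq_zero.1 hzero)
  · intro n _ hcon
    have h1 : wdg (X 0) (e n) = 0 := (Aff_wdg_zero (hX 0) (he n)).2 hcon
    apply hav n
    rw [← h.own]
    exact h1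

end Pool.Agent.MP_ae5b4e_an_NB4C
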