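import Pool.Agent.Lib.MP_ae5b4e_an_NB4C.Defs
import Pool.Agent.Lib.MP_ae5b4e_an_NB4C.Act
import Pool.Agent.Lib.MP_ae5b4e_an_NB4C.Lvl

/-!
# MP_ae5b4e_an, NB_4 part C: choice of the coordinate
-/

noncomputable section

namespace Pool.Agent.MP_ae5b4e_an_NB4C

open Complex Set Filter Topology Metric
open Pool.Agent.MP_ae5b4e_an_NB2 (Sys)
open Pool.Agent.MP_ae5b4e_an_NB4 (wdg uu uu')

private theorem good_per {P : ℤ → Prop} {q : ℤ} (h : ∀ n, P (n + q) ↔ P n) (n k : ℤ) :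
    P (n + k * q) ↔ P n := by
  induction k using Int.induction_on with
  | zero => rw [zero_mul, add_zero]
  | succ i ih =>
    rw [show n + ((i : ℤ) + 1) * q = (n + (i : ℤ) * q) + q by ring, h]
    exact ih
  | pred i ih =>
    rw [← ih, ← h (n + (-(i : ℤ) - 1) * q),
      show n + (-(i : ℤ) - 1) * q + q = n + -(i : ℤ) * q by ring]

private theorem good_par {a b : ℂ × ℂ} (ha : a ≠ 0) {s : ℂ} (h : wdg b a = 0)
    (hs : (act s a).1 = 0) : (act s b).1 = 0 := by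
  unfold wdg at h
  unfold act at hs ⊢
  simp only at hs ⊢
  have h1 : a.2 = s * a.1 := by linear_combination -hs
  have h2 : a.1 ≠ 0 := by
    intro h3
    apply ha
    rw [h3, mul_zero] at h1
    exact Prod.ext h3 h1
  rw [h1] at h
  have h3 : a.1 * (s * b.1 - b.2) = 0 := by linear_combination h
  exact (mul_eq_zero.1 h3).resolve_left h2

private theorem good_one {v : Sys} {q : ℕ} {e : ℤ → ℂ × ℂ} (H : Lim v q e) {ζ : ℂ}
    {X Y : ℤ → ℂ × ℂ} (hS : St4 v q e ζ X Y) :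
    ∃ s : ℕ, (∀ n, (act (s : ℂ) (e n)).1 ≠ 0) ∧ ∀ n, (act (s : ℂ) (X n)).1 ≠ 0 := by
  have hq : (0 : ℤ) < q := by
    have := H.q_two
    omega
  have hfin : ∀ a : ℤ → ℂ × ℂ, (∀ n, a n ≠ 0) →
      (⋃ n ∈ Finset.range q, {s : ℂ | (act s (a n)).1 = 0}).Finite := by
    intro a ha
    refine Set.Finite.biUnion (Finset.finite_toSet _) fun n _ => ?_
    exact Set.Subsingleton.finite fun s hs t ht => act_fst_inj (ha n) hs ht
  have hall : ∀ (a : ℤ → ℂ × ℂ) (s : ℂ), (∀ n, (act s (a (n + q))).1 = 0 ↔ (act s (a n)).1 = 0) →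
      s ∉ (⋃ n ∈ Finset.range q, {s : ℂ | (act s (a n)).1 = 0}) →
      ∀ n, (act s (a n)).1 ≠ 0 := by
    intro a s hper hs n hn
    apply hs
    have h1 : n = n % q + (n / q) * q := by
      have := Int.emod_add_mul_ediv n q
      linarith
    rw [h1, good_per (P := fun n => (act s (a n)).1 = 0) hper] at hn
    have h2 : 0 ≤ n % q := Int.emod_nonneg n hq.ne'
    have h3 : n % q < q := Int.emod_lt_of_pos n hq
    refine mem_iUnion₂.2 ⟨(n % q).toNat, ?_, ?_⟩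
    · rw [Finset.mem_range]
      omega
    · change (act s (a ((n % q).toNat : ℤ))).1 = 0
      rw [Int.toNat_of_nonneg h2]
      exact hn
  have hF := (hfin e H.e_ne).union (hfin X hS.ne)
  obtain ⟨s, hs⟩ : ∃ s : ℕ, (s : ℂ) ∉ (⋃ n ∈ Finset.range q, {s : ℂ | (act s (e n)).1 = 0}) ∪
      (⋃ n ∈ Finset.range q, {s : ℂ | (act s (X n)).1 = 0}) := by
    by_contra hcon
    have hsub : range (fun s : ℕ => (s : ℂ)) ⊆
        (⋃ n ∈ Finset.range q, {s : ℂ | (act s (e n)).1 = 0}) ∪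
        (⋃ n ∈ Finset.range q, {s : ℂ | (act s (X n)).1 = 0}) := by
      rintro _ ⟨s, rfl⟩
      by_contra h
      exact hcon ⟨s, h⟩
    exact Set.infinite_range_of_injective (f := fun s : ℕ => (s : ℂ)) Nat.cast_injective
      (hF.subset hsub)
  rw [mem_union, not_or] at hs
  refine ⟨s, hall e s (fun n => by rw [H.e_per]) hs.1, hall X s (fun n => ?_) hs.2⟩
  have hper := hS.per n
  constructor
  · intro h
    refine good_par (hS.ne _) ?_ h
    unfold wdg at hper ⊢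
    linear_combination -hper
  · intro h
    exact good_par (hS.ne _) hper h

/-- Choose `s` among `0, 1, .., 3 q` (pigeonhole).  For every `r ∈ [0, 1/8]` the state has the
`2 q` non-zero vectors `X n`, `e n`, `0 ≤ n < q`; each of them excludes at most one `s`
(`act_fst_inj`), so some `s ∈ {0, .., 2 q}` is good for `r`; the other `X n` are parallel to these
(`per`), the other `e n` equal (`e_per`).  `[0, 1/8]` is uncountable, so one `s` is good for
uncountably many `r`; `r ↦ ζ r` is injective (`‖ζ r‖ = r`).  Remove the countably many `ζ` with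
`wdg (uu v ζ) (e n) = 0` for some `n` (`level_countable`). -/
theorem exists_good {v : Sys} {q : ℕ} {e : ℤ → ℂ × ℂ} (H : Lim v q e) :
    ∃ (s : ℂ) (T : Set ℂ), T ⊆ closedBall 0 (1 / 8) ∧ ¬ T.Countable ∧
      (∀ n, (act s (e n)).1 ≠ 0) ∧ ∀ ζ ∈ T, (∀ n, wdg (uu v ζ) (e n) ≠ 0) ∧
        ∃ X Y, St4 v q e ζ X Y ∧ ∀ n, (act s (X n)).1 ≠ 0 := by
  set G : ℕ → Set ℝ := fun s => {r | (∀ n, (act (s : ℂ) (e n)).1 ≠ 0) ∧ r ∈ Icc (0 : ℝ) (1 / 8) ∧
    ∃ ζ : ℂ, ‖ζ‖ = r ∧ ∃ X Y, St4 v q e ζ X Y ∧ ∀ n, (act (s : ℂ) (X n)).1 ≠ 0} with hG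
  have hcov : Icc (0 : ℝ) (1 / 8) ⊆ ⋃ s, G s := by
    intro r hr
    obtain ⟨ζ, hζ, X, Y, hS⟩ := H.st r hr
    obtain ⟨s, h1, h2⟩ := good_one H hS
    exact mem_iUnion.2 ⟨s, h1, hr, ζ, hζ, X, Y, hS, h2⟩
  obtain ⟨s, hs⟩ : ∃ s, ¬ (G s).Countable := by
    by_contra hcon
    have h1 : ∀ s, (G s).Countable := fun s => not_not.1 fun h => hcon ⟨s, h⟩
    have h2 := ((countable_iUnion h1).mono hcov).measure_zero MeasureTheory.volume
    rw [Real.volume_Icc, ENNReal.ofReal_eq_zero] at h2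
    norm_num at h2
  obtain ⟨r₀, hr₀⟩ : (G s).Nonempty := by
    by_contra hcon
    rw [not_nonempty_iff_eq_empty] at hcon
    rw [hcon] at hs
    exact hs countable_empty
  set T₀ : Set ℂ := {ζ | ζ ∈ closedBall (0 : ℂ) (1 / 8) ∧
    ∃ X Y, St4 v q e ζ X Y ∧ ∀ n, (act (s : ℂ) (X n)).1 ≠ 0} with hT₀
  have hT₀c : ¬ T₀.Countable := by
    intro h
    apply hs
    refine (h.image (fun ζ : ℂ => ‖ζ‖)).mono ?_
    rintro r ⟨-, hr, ζ, hζ, hX⟩
    refine ⟨ζ, ⟨?_, hX⟩, hζ⟩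
    rw [mem_closedBall_zero_iff, hζ]
    exact hr.2
  set Z : Set ℂ := ⋃ n : ℤ, {z ∈ HP | wdg (uu v z) (e n) = 0} with hZ
  have hZc : Z.Countable := countable_iUnion fun n => level_countable H.on (H.e_ne n)
  refine ⟨s, T₀ \ Z, fun ζ hζ => hζ.1.1, ?_, hr₀.1, ?_⟩
  · intro h
    apply hT₀c
    refine (h.union hZc).mono ?_
    intro ζ hζ
    by_cases hz : ζ ∈ Z
    · exact Or.inr hz
    · exact Or.inl ⟨hζ, hz⟩
  · rintro ζ ⟨hζ, hz⟩
    refine ⟨fun n hn => hz (mem_iUnion.2 ⟨n, ?_, hn⟩), hζ.2⟩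
    change ζ.im < 1 / 2
    have h1 : ‖ζ‖ ≤ 1 / 8 := mem_closedBall_zero_iff.1 hζ.1
    have h2 := (le_abs_self _).trans (Complex.abs_im_le_norm ζ)
    linarith

end Pool.Agent.MP_ae5b4e_an_NB4C
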