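import Pool.Agent.Lib.MP_ae5b4e_an_NB4C.Defs
import Pool.Agent.Lib.MP_ae5b4e_an_NB4C.Good
import Pool.Agent.Lib.MP_ae5b4e_an_NB4C.Aff

/-!
# MP_ae5b4e_an, NB_4 part C: the limit configuration in affine coordinates
-/

noncomputable section

namespace Pool.Agent.MP_ae5b4e_an_NB4C

open Complex Set Filter Topology Metric
open Pool.Agent.MP_ae5b4e_an_NB2 (Sys)
open Pool.Agent.MP_ae5b4e_an_NB4 (wdg uu uu')

theorem exists_limS {v : Sys} {q : ℕ} {e : ℤ → ℂ × ℂ} (H : Lim v q e) :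
    ∃ v' ε, LimS v' q ε := by
  obtain ⟨s, T, hT, hTc, he, hst⟩ := exists_good H
  refine ⟨actS s v, fun n => (act s (e n)).2 / (act s (e n)).1, H.q_two, actS_on H.on s,
    fun n => ?_, actS_nf H.nf s, T, hT, hTc, fun ζ hζ => ?_⟩
  · simp only [H.e_per n]
  · obtain ⟨hav, X, Y, hXY, hX⟩ := hst ζ hζ
    refine ⟨_, sc_of_st (actS_on H.on s) ?_ (actS_st hXY s) he hX fun n => ?_⟩
    · have h1 := hT hζ
      rw [mem_closedBall_zero_iff] at h1
      have h2 := (Complex.abs_im_le_norm ζ).trans h1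
      have h3 := le_abs_self ζ.im
      show ζ.im < 1 / 2
      linarith
    · have h1 : uu (actS s v) ζ = act s (uu v ζ) := rfl
      rw [h1, wdg_act]
      exact hav n

end Pool.Agent.MP_ae5b4e_an_NB4C
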