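import Pool.Agent.Lib.MP_ae5b4e_an_NB4C.Defs


/-!
# MP_ae5b4e_an, NB_4 part C: roots of the polynomial near a regular value
-/

noncomputable section

namespace Pool.Agent.MP_ae5b4e_an_NB4C

open Complex Set Filter Topology Metric
open Pool.Agent.MP_ae5b4e_an_NB2 (Sys)
open Pool.Agent.MP_ae5b4e_an_NB4 (wdg uu uu')

open Polynomial

private theorem rts_eq_sum (G : ℂ[X][X]) (x z : ℂ) :
    G.evalEval x z = ∑ i ∈ Finset.range (G.natDegree + 1), (G.coeff i).eval x * z ^ i := by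
  rw [← eval₂_evalRingHom, eval₂_eq_sum_range]
  rfl

private theorem rts_cont (G : ℂ[X][X]) : Continuous (fun p : ℂ × ℂ => G.evalEval p.1 p.2) := by
  have h : (fun p : ℂ × ℂ => G.evalEval p.1 p.2) =
      fun p : ℂ × ℂ => ∑ i ∈ Finset.range (G.natDegree + 1), (G.coeff i).eval p.1 * p.2 ^ i :=
    funext fun p => rts_eq_sum G p.1 p.2
  rw [h]
  refine continuous_finsetSum _ fun i _ => ?_
  exact ((G.coeff i).continuous.comp continuous_fst).mul (continuous_snd.pow i)

private theorem rts_zero (G : ℂ[X][X]) (x : ℂ) : G.evalEval x 0 = (G.coeff 0).eval x := by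
  rw [rts_eq_sum, Finset.sum_range_succ']
  simp

private theorem rts_rev (G : ℂ[X][X]) (x : ℂ) {z : ℂ} (hz : z ≠ 0) (h : G.evalEval x z = 0) :
    G.reverse.evalEval x z⁻¹ = 0 := by
  have : Invertible z := invertibleOfNonzero hz
  have h1 := eval₂_reverse_eq_zero_iff (evalRingHom x) z G
  rw [eval₂_evalRingHom, invOf_eq_inv] at h1
  exact h1.mpr h

/-- Continuity of the roots at a point `x₀` which is not a zero of the last and of the leading
coefficient.  (1) the roots over `x₀` are not zero: finitely many, `c` = the least modulus.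
(2) Cauchy bound near `x₀`.  (3) compactness: otherwise `x_k → x₀`, roots `z_k` bounded, at distance
`≥ η` from all roots over `x₀`; a limit point is a root over `x₀`. -/
theorem roots_near {G : ℂ[X][X]} (h0 : G.coeff 0 ≠ 0) {x₀ : ℂ} (hx0 : (G.coeff 0).eval x₀ ≠ 0)
    (hx1 : G.leadingCoeff.eval x₀ ≠ 0) :
    ∃ c > 0, ∃ C > 0, ∃ R : Finset ℂ, (∀ z, G.evalEval x₀ z = 0 ↔ z ∈ R) ∧ (∀ z ∈ R, c ≤ ‖z‖) ∧
      ∀ η > 0, ∃ ρ > 0, ∀ x ∈ ball x₀ ρ, ∀ z, G.evalEval x z = 0 →
        ‖z‖ ≤ C ∧ ∃ z₀ ∈ R, ‖z - z₀‖ < η := by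
  classical
  obtain ⟨R, hR⟩ : ∃ R : Finset ℂ, ∀ z, G.evalEval x₀ z = 0 ↔ z ∈ R := by
    have hne : G.map (evalRingHom x₀) ≠ 0 := by
      intro h
      have h1 := congrArg (fun p : ℂ[X] => p.coeff G.natDegree) h
      simp only [coeff_map, coeff_zero] at h1
      exact hx1 h1
    refine ⟨(G.map (evalRingHom x₀)).roots.toFinset, fun z => ?_⟩
    rw [Multiset.mem_toFinset, mem_roots hne, IsRoot.def, map_evalRingHom_eval]
  obtain ⟨c, hc, hRc⟩ : ∃ c > 0, ∀ z ∈ R, c ≤ ‖z‖ := by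
    by_cases hne : R.Nonempty
    · obtain ⟨w, hw, hmin⟩ := R.exists_min_image (fun z => ‖z‖) hne
      refine ⟨‖w‖, norm_pos_iff.mpr ?_, hmin⟩
      intro h
      rw [← hR w, h, rts_zero] at hw
      exact hx0 hw
    · exact ⟨1, one_pos, fun z hz => absurd ⟨z, hz⟩ hne⟩
  -- the bound
  have hrev : G.reverse.evalEval x₀ 0 ≠ 0 := by
    rw [rts_zero, coeff_zero_reverse]
    exact hx1
  have hev : ∀ᶠ p : ℂ × ℂ in 𝓝 (x₀, 0), G.reverse.evalEval p.1 p.2 ≠ 0 :=
    (rts_cont G.reverse).continuousAt.eventually_ne hrev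
  obtain ⟨δ, hδ, hδ'⟩ := Metric.eventually_nhds_iff_ball.mp hev
  refine ⟨c, hc, 1 / δ, by positivity, R, hR, hRc, fun η hη => ?_⟩
  have hK : IsCompact (closedBall (0 : ℂ) (1 / δ) ∩ ⋂ w ∈ R, {z : ℂ | η ≤ ‖z - w‖}) := by
    refine (isCompact_closedBall _ _).inter_right ?_
    refine isClosed_biInter fun w _ => isClosed_le continuous_const ?_
    fun_prop
  have hev2 := hK.eventually_forall_of_forall_eventually (x₀ := x₀)
    (P := fun x z => G.evalEval x z ≠ 0) (by
      intro z hz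
      have h1 : G.evalEval x₀ z ≠ 0 := by
        intro h2
        rw [hR] at h2
        have h3 := hz.2
        simp only [mem_iInter, mem_ofPred_eq] at h3
        have h4 := h3 z h2
        rw [sub_self, norm_zero] at h4
        linarith
      exact (rts_cont G).continuousAt.eventually_ne h1)
  obtain ⟨δ', hδ1, hδ2⟩ := Metric.eventually_nhds_iff_ball.mp hev2
  refine ⟨min δ δ', lt_min hδ hδ1, fun x hx z hz => ?_⟩
  rw [mem_ball, lt_min_iff] at hx
  have hzC : ‖z‖ ≤ 1 / δ := by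
    by_contra hcon
    push Not at hcon
    have hz0 : z ≠ 0 := by
      intro h
      rw [h, norm_zero] at hcon
      exact absurd hcon (not_lt.mpr (by positivity))
    have h1 := rts_rev G x hz0 hz
    refine hδ' (x, z⁻¹) ?_ h1
    rw [mem_ball, Prod.dist_eq]
    refine max_lt hx.1 ?_
    rw [dist_zero_right, norm_inv]
    rw [div_lt_iff₀ hδ] at hcon
    rw [inv_lt_comm₀ (norm_pos_iff.mpr hz0) hδ, ← one_div, div_lt_iff₀ hδ]
    exact hcon
  refine ⟨hzC, ?_⟩
  by_contra hcon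
  push Not at hcon
  refine hδ2 x (mem_ball.mpr hx.2) z ⟨?_, ?_⟩ hz
  · rwa [mem_closedBall, dist_zero_right]
  · simp only [mem_iInter, mem_ofPred_eq]
    exact hcon

end Pool.Agent.MP_ae5b4e_an_NB4C
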