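import Pool.Agent.Lib.MP_ae5b4e_an_NB4C.Defs
import Pool.Agent.Lib.MP_ae5b4e_an_NB4C.Rts
import Pool.Agent.Lib.MP_ae5b4e_an_NB4C.Lvl

/-!
# MP_ae5b4e_an, NB_4 part C: regular values are not boundary values (6.2)
-/

noncomputable section

namespace Pool.Agent.MP_ae5b4e_an_NB4C

open Complex Set Filter Topology Metric
open Pool.Agent.MP_ae5b4e_an_NB2 (Sys)
open Pool.Agent.MP_ae5b4e_an_NB4 (wdg uu uu')

open Polynomial

private theorem near_deriv {v : Sys} (on : v.On HP) {s : ℂ} (hs : s ∈ HP) (h1 : v.y1 s ≠ 0) :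
    HasDerivAt (fun z => v.y2 z / v.y1 z) (1 / v.y1 s ^ 2) s := by
  have h := (on.d2 s hs).div (on.d1 s hs) h1
  have hw := on.wr s hs
  have h4 : v.y2' s * v.y1 s - v.y2 s * v.y1' s = 1 := by linear_combination hw
  rw [h4] at h
  exact h

/-- A function with `‖F'‖ ≤ C` as long as it is near `x₀` stays near `x₀` on a small disc
(bootstrap along the segments from the centre).  `F = v.y2 / v.y1`, `F' = 1 / v.y1²`. The poles
(`v.y1 = 0`) do not occur: before a pole `F` would leave `ball x₀ ρ`. -/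
theorem stay {v : Sys} (on : v.On HP) {x₀ : ℂ} {ρ C : ℝ} (hC : 0 < C)
    (hb : ∀ s ∈ HP, v.y1 s ≠ 0 → ‖v.y2 s / v.y1 s - x₀‖ < ρ → ‖1 / v.y1 s ^ 2‖ ≤ C) {t : ℂ}
    {r : ℝ} (hr : 0 < r) (hrt : ball t r ⊆ HP) (hrC : C * r ≤ ρ / 2) (h1 : v.y1 t ≠ 0)
    (h2 : ‖v.y2 t / v.y1 t - x₀‖ < ρ / 2) :
    ∀ s ∈ ball t r, v.y1 s ≠ 0 ∧ ‖v.y2 s / v.y1 s - x₀‖ < ρ := by
  intro s hs
  have hsr : ‖s - t‖ < r := by rwa [mem_ball_iff_norm] at hs
  have hρ : 0 < ρ := by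
    have := norm_nonneg (v.y2 t / v.y1 t - x₀)
    linarith
  obtain ⟨γ, hγ⟩ : ∃ γ : ℝ → ℂ, ∀ u, γ u = t + (u : ℂ) * (s - t) := ⟨_, fun _ => rfl⟩
  have hγc : Continuous γ := by
    have : γ = fun u : ℝ => t + (u : ℂ) * (s - t) := funext hγ
    rw [this]; fun_prop
  have hγm : ∀ u ∈ Icc (0 : ℝ) 1, γ u ∈ HP := by
    intro u hu
    apply hrt
    rw [mem_ball_iff_norm, hγ, add_sub_cancel_left, norm_mul, Complex.norm_real, Real.norm_eq_abs,
      abs_of_nonneg hu.1]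
    have h3 := norm_nonneg (s - t)
    nlinarith [hu.2]
  have hγd : ∀ u, HasDerivAt γ (s - t) u := by
    intro u
    have h3 : HasDerivAt (fun u : ℝ => t + (u : ℂ) * (s - t)) (0 + (1 : ℂ) * (s - t)) u :=
      (hasDerivAt_const u t).add ((Complex.ofRealCLM.hasDerivAt (x := u)).mul_const (s - t))
    have h4 : γ = fun u : ℝ => t + (u : ℂ) * (s - t) := funext hγ
    rw [h4]
    simpa using h3
  -- the function which is negative on the good set
  obtain ⟨N, hN⟩ : ∃ N : ℝ → ℝ, ∀ u, N u = ‖v.y2 (γ u) - x₀ * v.y1 (γ u)‖ - ρ * ‖v.y1 (γ u)‖ :=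
    ⟨_, fun _ => rfl⟩
  have hc1 : ContinuousOn (fun u => v.y1 (γ u)) (Icc 0 1) := fun u hu =>
    ((on.d1 _ (hγm u hu)).continuousAt.comp hγc.continuousAt).continuousWithinAt
  have hc2 : ContinuousOn (fun u => v.y2 (γ u)) (Icc 0 1) := fun u hu =>
    ((on.d2 _ (hγm u hu)).continuousAt.comp hγc.continuousAt).continuousWithinAt
  have hcN : ContinuousOn N (Icc 0 1) := by
    have : N = fun u => ‖v.y2 (γ u) - x₀ * v.y1 (γ u)‖ - ρ * ‖v.y1 (γ u)‖ := funext hN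
    rw [this]
    exact ((hc2.sub (continuousOn_const.mul hc1)).norm).sub (continuousOn_const.mul hc1.norm)
  have hgood : ∀ u, N u < 0 → v.y1 (γ u) ≠ 0 ∧ ‖v.y2 (γ u) / v.y1 (γ u) - x₀‖ < ρ := by
    intro u hu
    rw [hN] at hu
    have h3 : v.y1 (γ u) ≠ 0 := by
      intro h4
      have h5 : ‖v.y1 (γ u)‖ = 0 := by rw [h4, norm_zero]
      rw [h5] at hu
      have h6 := norm_nonneg (v.y2 (γ u) - x₀ * v.y1 (γ u))
      linarith
    refine ⟨h3, ?_⟩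
    have h4 : v.y2 (γ u) / v.y1 (γ u) - x₀ = (v.y2 (γ u) - x₀ * v.y1 (γ u)) / v.y1 (γ u) := by
      field_simp
    rw [h4, norm_div, div_lt_iff₀ (norm_pos_iff.mpr h3)]
    linarith
  have hall : ∀ u ∈ Icc (0 : ℝ) 1, N u < 0 := by
    by_contra hcon
    push Not at hcon
    have hcpt : IsCompact {u ∈ Icc (0 : ℝ) 1 | 0 ≤ N u} := by
      have h3 : {u ∈ Icc (0 : ℝ) 1 | 0 ≤ N u} = Icc 0 1 ∩ N ⁻¹' Ici 0 := rfl
      rw [h3]
      exact isCompact_Icc.of_isClosed_subset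
        (hcN.preimage_isClosed_of_isClosed isClosed_Icc isClosed_Ici) inter_subset_left
    obtain ⟨u₀, hu₀, hu₀'⟩ := hcon
    obtain ⟨w, ⟨hw1, hw2⟩, hw3⟩ := hcpt.exists_isLeast ⟨u₀, hu₀, hu₀'⟩
    have hlt : ∀ u ∈ Icc (0 : ℝ) 1, u < w → N u < 0 := by
      intro u hu huw
      by_contra hc
      exact absurd (hw3 ⟨hu, not_lt.mp hc⟩) (not_le.mpr huw)
    have hγ0 : γ 0 = t := by rw [hγ]; simp
    have hN0 : N 0 < 0 := by
      rw [hN, hγ0]
      have h4 : v.y2 t - x₀ * v.y1 t = (v.y2 t / v.y1 t - x₀) * v.y1 t := by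
        field_simp
      rw [h4, norm_mul]
      have h5 := norm_pos_iff.mpr h1
      nlinarith
    have hw0 : 0 < w := by
      rcases hw1.1.lt_or_eq with h | h
      · exact h
      · rw [← h] at hw2
        exact absurd hN0 (not_lt.mpr hw2)
    obtain ⟨κ, hκ⟩ : ∃ κ : ℝ, κ = ‖v.y2 t / v.y1 t - x₀‖ + C * ‖s - t‖ := ⟨_, rfl⟩
    have hκρ : κ < ρ := by
      have h3 : C * ‖s - t‖ ≤ C * r := mul_le_mul_of_nonneg_left hsr.le hC.le
      rw [hκ]; linarith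
    -- the bound before `w`
    have hbd : ∀ u ∈ Ico (0 : ℝ) w, ‖v.y2 (γ u) - x₀ * v.y1 (γ u)‖ ≤ κ * ‖v.y1 (γ u)‖ := by
      intro u hu
      have hI : ∀ x ∈ Icc (0 : ℝ) u, x ∈ Icc (0 : ℝ) 1 := fun x hx =>
        ⟨hx.1, hx.2.trans (hu.2.le.trans hw1.2)⟩
      have hD : ∀ x ∈ Icc (0 : ℝ) u, HasDerivWithinAt (fun u => v.y2 (γ u) / v.y1 (γ u))
          (1 / v.y1 (γ x) ^ 2 * (s - t)) (Icc 0 u) x := by
        intro x hx
        have h3 := hgood x (hlt x (hI x hx) (hx.2.trans_lt hu.2))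
        exact ((near_deriv on (hγm x (hI x hx)) h3.1).comp x (hγd x)).hasDerivWithinAt
      have hB : ∀ x ∈ Icc (0 : ℝ) u, ‖1 / v.y1 (γ x) ^ 2 * (s - t)‖ ≤ C * ‖s - t‖ := by
        intro x hx
        have h3 := hgood x (hlt x (hI x hx) (hx.2.trans_lt hu.2))
        rw [norm_mul]
        exact mul_le_mul_of_nonneg_right (hb _ (hγm x (hI x hx)) h3.1 h3.2) (norm_nonneg _)
      have h4 := (convex_Icc (0 : ℝ) u).norm_image_sub_le_of_norm_hasDerivWithin_le hD hB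
        (left_mem_Icc.mpr hu.1) (right_mem_Icc.mpr hu.1)
      rw [hγ0, sub_zero, Real.norm_eq_abs, abs_of_nonneg hu.1] at h4
      have hu1 : u ≤ 1 := hu.2.le.trans hw1.2
      have h5 : C * ‖s - t‖ * u ≤ C * ‖s - t‖ :=
        mul_le_of_le_one_right (mul_nonneg hC.le (norm_nonneg _)) hu1
      have h6 : ‖v.y2 (γ u) / v.y1 (γ u) - x₀‖ ≤ κ := by
        have h7 : v.y2 (γ u) / v.y1 (γ u) - x₀ =
          (v.y2 t / v.y1 t - x₀) + (v.y2 (γ u) / v.y1 (γ u) - v.y2 t / v.y1 t) := by ring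
        rw [h7, hκ]
        exact (norm_add_le _ _).trans (by linarith)
      have h8 := (hgood u (hlt u (hI u (right_mem_Icc.mpr hu.1)) hu.2)).1
      have h9 : v.y2 (γ u) - x₀ * v.y1 (γ u) = (v.y2 (γ u) / v.y1 (γ u) - x₀) * v.y1 (γ u) := by
        field_simp
      rw [h9, norm_mul]
      exact mul_le_mul_of_nonneg_right h6 (norm_nonneg _)
    have hlim : ‖v.y2 (γ w) - x₀ * v.y1 (γ w)‖ ≤ κ * ‖v.y1 (γ w)‖ := by
      have hne : (𝓝[Ico 0 w] w).NeBot := by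
        rw [← mem_closure_iff_nhdsWithin_neBot, closure_Ico hw0.ne]
        exact right_mem_Icc.mpr hw0.le
      have hsub : Ico (0 : ℝ) w ⊆ Icc 0 1 := fun x hx => ⟨hx.1, hx.2.le.trans hw1.2⟩
      have hl : Tendsto (fun u => ‖v.y2 (γ u) - x₀ * v.y1 (γ u)‖) (𝓝[Ico 0 w] w)
          (𝓝 ‖v.y2 (γ w) - x₀ * v.y1 (γ w)‖) :=
        ((((hc2.sub (continuousOn_const.mul hc1)).norm) w hw1).mono hsub)
      have hl' : Tendsto (fun u => κ * ‖v.y1 (γ u)‖) (𝓝[Ico 0 w] w) (𝓝 (κ * ‖v.y1 (γ w)‖)) :=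
        (((continuousOn_const.mul hc1.norm) w hw1).mono hsub)
      exact le_of_tendsto_of_tendsto hl hl' (eventually_nhdsWithin_of_forall hbd)
    rw [hN] at hw2
    have h10 : v.y1 (γ w) = 0 := by
      by_contra h11
      have h12 := norm_pos_iff.mpr h11
      nlinarith
    have h11 : v.y2 (γ w) = 0 := by
      rw [h10, mul_zero, sub_zero, norm_zero, mul_zero] at hlim
      exact norm_le_zero_iff.mp hlim
    have h12 := on.wr _ (hγm w hw1)
    rw [h10, h11] at h12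
    simp at h12
  have h3 := hgood 1 (hall 1 ⟨zero_le_one, le_rfl⟩)
  have h4 : γ 1 = s := by rw [hγ]; simp
  rwa [h4] at h3

private theorem near_sep (R : Finset ℂ) : ∃ d > 0, ∀ z ∈ R, ∀ z' ∈ R, z ≠ z' → d ≤ ‖z - z'‖ := by
  classical
  by_cases hne : R.offDiag.Nonempty
  · obtain ⟨p, hp, hmin⟩ := R.offDiag.exists_min_image (fun p => ‖p.1 - p.2‖) hne
    rw [Finset.mem_offDiag] at hp
    refine ⟨‖p.1 - p.2‖, norm_pos_iff.mpr (sub_ne_zero.mpr hp.2.2), fun z hz z' hz' h => ?_⟩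
    exact hmin (z, z') (Finset.mem_offDiag.mpr ⟨hz, hz', h⟩)
  · refine ⟨1, one_pos, fun z hz z' hz' h => ?_⟩
    exact absurd ⟨(z, z'), Finset.mem_offDiag.mpr ⟨hz, hz', h⟩⟩ hne

/-- (6.2).  Let `c, C, R` be as in `roots_near`, `η ≤ c / 2` less than half the minimal distance of
two points of `R`, `ρ` for this `η`, `ρ₁ = ρ / 2`, `C δ₁ ≤ ρ / 2`.  If `t ∈ HP`,
`1/2 - Im t < δ₁` and `F t ∈ ball x₀ ρ₁` then `F ∈ ball x₀ ρ` on `B_t := ball t ((1/2 - Im t)/(1+ε))`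
(`stay`), `F'` is within `η` of `R` there, hence (connected) of ONE `z₀ ∈ R`, `‖z₀‖ ≥ c`,
`Re (F' / z₀) > 0` on the convex set `B_t`: `F` is injective there, contradiction to `NFl`
(`v.s a b = v.y1 a * v.y1 b * (F a - F b)`). -/
theorem not_near {v : Sys} (on : v.On HP) (nf : NFl v) {G : ℂ[X][X]} (h0 : G.coeff 0 ≠ 0)
    (hG : ∀ t ∈ HP, v.y1 t ≠ 0 → G.evalEval (v.y2 t / v.y1 t) (1 / v.y1 t ^ 2) = 0) {x₀ : ℂ}
    (hx0 : (G.coeff 0).eval x₀ ≠ 0) (hx1 : G.leadingCoeff.eval x₀ ≠ 0) :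
    ∃ ρ₁ > 0, ∃ δ₁ > 0, ∀ t ∈ HP, 1 / 2 - δ₁ < t.im → v.y1 t ≠ 0 →
      ρ₁ ≤ ‖v.y2 t / v.y1 t - x₀‖ := by
  obtain ⟨c, hc, C, hC, R, _, hRc, hR⟩ := roots_near h0 hx0 hx1
  obtain ⟨d, hd, hsep⟩ := near_sep R
  obtain ⟨ε, hε, hnf⟩ := nf
  obtain ⟨η, hη, hηc, hηd⟩ : ∃ η > 0, η ≤ c / 2 ∧ 2 * η ≤ d :=
    ⟨min (c / 2) (d / 2), by positivity, min_le_left _ _, by
      have := min_le_right (c / 2) (d / 2)
      linarith⟩
  obtain ⟨ρ, hρ, hroot⟩ := hR η hη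
  refine ⟨ρ / 2, by positivity, ρ / (2 * C), by positivity, ?_⟩
  intro t ht htim h1
  by_contra hcon
  push Not at hcon
  have htim' : t.im < 1 / 2 := ht
  obtain ⟨r, hr⟩ : ∃ r : ℝ, r = (1 / 2 - t.im) / (1 + ε) := ⟨_, rfl⟩
  have hr0 : 0 < r := by
    rw [hr]
    exact div_pos (by linarith) (by linarith)
  have hrle : r ≤ 1 / 2 - t.im := by
    rw [hr]
    exact div_le_self (by linarith) (by linarith)
  have hsub : ball t r ⊆ HP := by
    intro s hs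
    rw [mem_ball_iff_norm] at hs
    have h3 : |(s - t).im| ≤ ‖s - t‖ := Complex.abs_im_le_norm _
    have h4 := le_abs_self (s - t).im
    rw [Complex.sub_im] at h3 h4
    change s.im < 1 / 2
    linarith
  have hval : ∀ s ∈ HP, v.y1 s ≠ 0 → ‖v.y2 s / v.y1 s - x₀‖ < ρ → ‖1 / v.y1 s ^ 2‖ ≤ C ∧
      ∃ z₀ ∈ R, ‖1 / v.y1 s ^ 2 - z₀‖ < η := fun s hs hs1 hs2 =>
    hroot _ (mem_ball_iff_norm.mpr hs2) _ (hG s hs hs1)
  have hrC : C * r ≤ ρ / 2 := by
    have h3 : r ≤ ρ / (2 * C) := by linarith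
    have h4 : C * (ρ / (2 * C)) = ρ / 2 := by field_simp
    rw [← h4]
    exact mul_le_mul_of_nonneg_left h3 hC.le
  have hst := stay on hC (fun s hs hs1 hs2 => (hval s hs hs1 hs2).1) hr0 hsub hrC h1 hcon
  -- one root
  have hroots : ∀ s ∈ ball t r, ∃ z₀ ∈ R, ‖1 / v.y1 s ^ 2 - z₀‖ < η := fun s hs =>
    (hval s (hsub hs) (hst s hs).1 (hst s hs).2).2
  obtain ⟨z₀, hz₀, htz⟩ := hroots t (mem_ball_self hr0)
  have hcF : ContinuousOn (fun s => 1 / v.y1 s ^ 2) (ball t r) := by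
    intro s hs
    have h3 : ContinuousAt v.y1 s := (on.d1 s (hsub hs)).continuousAt
    exact (continuousAt_const.div (h3.pow 2) (pow_ne_zero 2 (hst s hs).1)).continuousWithinAt
  have hopen : ∀ W : Set ℂ, IsOpen W → IsOpen (ball t r ∩ (fun s => 1 / v.y1 s ^ 2) ⁻¹' W) :=
    fun W hW => hcF.isOpen_inter_preimage isOpen_ball hW
  have hW1 : IsOpen (ball z₀ η) := isOpen_ball
  have hW2 : IsOpen (⋃ z ∈ (R.erase z₀ : Finset ℂ), ball z η) :=
    isOpen_biUnion fun _ _ => isOpen_ball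
  have hdisj : Disjoint (ball z₀ η) (⋃ z ∈ (R.erase z₀ : Finset ℂ), ball z η) := by
    rw [Set.disjoint_left]
    intro x hx hx'
    simp only [mem_iUnion] at hx'
    obtain ⟨z, hz, hxz⟩ := hx'
    rw [Finset.mem_erase] at hz
    have h3 := hsep z hz.2 z₀ hz₀ hz.1
    rw [mem_ball_iff_norm] at hx hxz
    have h4 : ‖z - z₀‖ ≤ ‖x - z‖ + ‖x - z₀‖ := by
      have h5 : z - z₀ = (x - z₀) - (x - z) := by ring
      rw [h5]
      exact (norm_sub_le _ _).trans (by linarith)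
    linarith
  have hone : ∀ s ∈ ball t r, ‖1 / v.y1 s ^ 2 - z₀‖ < η := by
    have hpre : IsPreconnected (ball t r) := (convex_ball t r).isPreconnected
    have h3 := hpre.subset_left_of_subset_union (hopen _ hW1) (hopen _ hW2)
      (by
        rw [Set.disjoint_left]
        intro x hx hx'
        exact Set.disjoint_left.mp hdisj hx.2 hx'.2)
      (by
        intro s hs
        obtain ⟨z, hz, hsz⟩ := hroots s hs
        by_cases hzz : z = z₀
        · left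
          refine ⟨hs, ?_⟩
          rw [hzz] at hsz
          exact mem_ball_iff_norm.mpr hsz
        · right
          refine ⟨hs, ?_⟩
          simp only [mem_preimage, mem_iUnion]
          exact ⟨z, Finset.mem_erase.mpr ⟨hzz, hz⟩, mem_ball_iff_norm.mpr hsz⟩)
      ⟨t, mem_ball_self hr0, mem_ball_self hr0, mem_ball_iff_norm.mpr htz⟩
    intro s hs
    exact mem_ball_iff_norm.mp (h3 hs).2
  have hz0c : c ≤ ‖z₀‖ := hRc z₀ hz₀
  have hz0 : z₀ ≠ 0 := by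
    intro h
    rw [h, norm_zero] at hz0c
    linarith
  -- injectivity
  have hinj : ∀ a ∈ ball t r, ∀ b ∈ ball t r, v.y2 a / v.y1 a = v.y2 b / v.y1 b → a = b := by
    intro a ha b hb' hab
    have hD : ∀ x ∈ ball t r, HasDerivWithinAt (fun s => v.y2 s / v.y1 s / z₀ - s)
        (1 / v.y1 x ^ 2 / z₀ - 1) (ball t r) x := fun x hx =>
      (((near_deriv on (hsub hx) (hst x hx).1).div_const z₀).sub (hasDerivAt_id x)).hasDerivWithinAt
    have hB : ∀ x ∈ ball t r, ‖1 / v.y1 x ^ 2 / z₀ - 1‖ ≤ 1 / 2 := by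
      intro x hx
      have h3 : 1 / v.y1 x ^ 2 / z₀ - 1 = (1 / v.y1 x ^ 2 - z₀) / z₀ := by
        rw [sub_div, div_self hz0]
      rw [h3, norm_div, div_le_iff₀ (norm_pos_iff.mpr hz0)]
      have h4 := hone x hx
      linarith
    have h5 := (convex_ball t r).norm_image_sub_le_of_norm_hasDerivWithin_le hD hB hb' ha
    have h6 : (fun s => v.y2 s / v.y1 s / z₀ - s) a - (fun s => v.y2 s / v.y1 s / z₀ - s) b =
        -(a - b) := by
      simp only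
      rw [hab]
      ring
    rw [h6, norm_neg] at h5
    have h7 : ‖a - b‖ ≤ 0 := by linarith [norm_nonneg (a - b)]
    exact sub_eq_zero.mp (norm_le_zero_iff.mp h7)
  refine hnf t ht ?_
  rw [← hr]
  intro a ha b hb' hab
  refine hinj a ha b hb' ?_
  rw [div_eq_div_iff (hst a ha).1 (hst b hb').1]
  have h3 : v.y1 b * v.y2 a - v.y2 b * v.y1 a = 0 := hab
  linear_combination h3

end Pool.Agent.MP_ae5b4e_an_NB4C
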