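import Pool.Agent.Lib.MP_ae5b4e_an_NB4C.Defs
import Pool.Agent.Lib.MP_ae5b4e_an_NB4C.Lvl

/-!
# MP_ae5b4e_an, NB_4 part C: the algebraic differential equation on the half plane
-/

noncomputable section

namespace Pool.Agent.MP_ae5b4e_an_NB4C

open Complex Set Filter Topology Metric
open Pool.Agent.MP_ae5b4e_an_NB2 (Sys)
open Pool.Agent.MP_ae5b4e_an_NB4 (wdg uu uu')

open Polynomial

private theorem ode_sum (G : ℂ[X][X]) (x y : ℂ) :
    G.evalEval x y = ∑ j ∈ Finset.range (G.natDegree + 1),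
      ∑ i ∈ Finset.range ((G.coeff j).natDegree + 1), (G.coeff j).coeff i * x ^ i * y ^ j := by
  rw [Polynomial.evalEval, Polynomial.eval_eq_sum_range (p := G), Polynomial.eval_finsetSum]
  refine Finset.sum_congr rfl fun j _ => ?_
  rw [Polynomial.eval_mul, Polynomial.eval_pow, Polynomial.eval_C,
    Polynomial.eval_eq_sum_range, Finset.sum_mul]

private theorem ode_term {a b c : ℂ} (ha : a ≠ 0) {i j N : ℕ} (h : i + 2 * j ≤ N) :
    a ^ N * (c * (b / a) ^ i * (1 / a ^ 2) ^ j) = c * b ^ i * a ^ (N - i - 2 * j) := by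
  have h1 : a ^ N = a ^ (N - i - 2 * j) * a ^ i * a ^ (2 * j) := by
    rw [← pow_add, ← pow_add]
    congr 1
    omega
  rw [h1, div_pow, div_pow, one_pow, ← pow_mul]
  field_simp

/-- Divide the polynomial by the highest possible power of the outer variable
(`1 / v.y1² ≠ 0`), so that `G.coeff 0 ≠ 0`.  Extension from the disc: with `N` large
`v.y1^N G(v.y2 / v.y1, 1 / v.y1²)` is a polynomial in `v.y1, v.y2`, so analytic on `HP`, and zero on
the disc, hence on `HP` (`zero_of_uncountable`, `HP_convex`). -/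
theorem alg_ode {v : Sys} (on : v.On HP) {b : ℂ} {ρ : ℝ} (hρ : 0 < ρ) (hs : ball b ρ ⊆ HP)
    (hy : ∀ ζ ∈ ball b ρ, v.y1 ζ ≠ 0)
    (h : AlgOn (ball b ρ) (fun ζ => v.y2 ζ / v.y1 ζ) (fun ζ => 1 / v.y1 ζ ^ 2)) :
    ∃ G : ℂ[X][X], G.coeff 0 ≠ 0 ∧
      ∀ t ∈ HP, v.y1 t ≠ 0 → G.evalEval (v.y2 t / v.y1 t) (1 / v.y1 t ^ 2) = 0 := by
  obtain ⟨P, hP, hP0⟩ := h
  obtain ⟨G, hG⟩ : (X : ℂ[X][X]) ^ P.natTrailingDegree ∣ P := by
    rw [Polynomial.X_pow_dvd_iff]
    intro d hd
    exact Polynomial.coeff_eq_zero_of_lt_natTrailingDegree hd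
  have hG0 : G.coeff 0 ≠ 0 := by
    have h1 : P.coeff P.natTrailingDegree = G.coeff 0 := by
      have h2 := Polynomial.coeff_X_pow_mul G P.natTrailingDegree 0
      rw [← hG, zero_add] at h2
      exact h2
    rw [← h1]
    exact Polynomial.trailingCoeff_nonzero_iff_nonzero.2 hP
  refine ⟨G, hG0, ?_⟩
  have hball : ∀ ζ ∈ ball b ρ, G.evalEval (v.y2 ζ / v.y1 ζ) (1 / v.y1 ζ ^ 2) = 0 := by
    intro ζ hζ
    have h1 := hP0 ζ hζ
    rw [hG, Polynomial.evalEval_mul, Polynomial.evalEval_pow, Polynomial.evalEval_X] at h1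
    refine (mul_eq_zero.1 h1).resolve_left (pow_ne_zero _ ?_)
    exact one_div_ne_zero (pow_ne_zero 2 (hy ζ hζ))
  set N : ℕ := (∑ j ∈ Finset.range (G.natDegree + 1), (G.coeff j).natDegree) +
    2 * G.natDegree with hN
  set H : ℂ → ℂ := fun t => ∑ j ∈ Finset.range (G.natDegree + 1),
      ∑ i ∈ Finset.range ((G.coeff j).natDegree + 1),
        (G.coeff j).coeff i * v.y2 t ^ i * v.y1 t ^ (N - i - 2 * j) with hH
  have hkey : ∀ t, v.y1 t ≠ 0 →
      v.y1 t ^ N * G.evalEval (v.y2 t / v.y1 t) (1 / v.y1 t ^ 2) = H t := by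
    intro t ht
    rw [ode_sum, Finset.mul_sum]
    refine Finset.sum_congr rfl fun j hj => ?_
    rw [Finset.mul_sum]
    refine Finset.sum_congr rfl fun i hi => ?_
    apply ode_term ht
    rw [Finset.mem_range] at hi
    have h1 : (G.coeff j).natDegree ≤ ∑ j ∈ Finset.range (G.natDegree + 1),
        (G.coeff j).natDegree :=
      Finset.single_le_sum (f := fun j => (G.coeff j).natDegree) (fun _ _ => Nat.zero_le _) hj
    rw [Finset.mem_range] at hj
    omega
  have hd1 : DifferentiableOn ℂ v.y1 HP := fun t ht =>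
    (on.d1 t ht).differentiableAt.differentiableWithinAt
  have hd2 : DifferentiableOn ℂ v.y2 HP := fun t ht =>
    (on.d2 t ht).differentiableAt.differentiableWithinAt
  have hdH : DifferentiableOn ℂ H HP := by
    rw [hH]
    refine DifferentiableOn.fun_sum fun j _ => DifferentiableOn.fun_sum fun i _ => ?_
    exact ((hd2.pow i).const_mul _).mul (hd1.pow _)
  have haH : AnalyticOnNhd ℂ H HP := hdH.analyticOnNhd HP_open
  have hunc : ¬ (ball b ρ).Countable := by
    intro h1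
    have h2 := h1.measure_zero MeasureTheory.volume
    have h3 := (isOpen_ball (x := b) (ε := ρ)).measure_pos MeasureTheory.volume
      ⟨b, mem_ball_self hρ⟩
    rw [h2] at h3
    exact lt_irrefl _ h3
  have hzero := zero_of_uncountable HP_open HP_convex.isPreconnected haH hs hunc (by
    intro z hz
    rw [← hkey z (hy z hz), hball z hz, mul_zero])
  intro t ht hyt
  have h1 := hkey t hyt
  rw [hzero t ht] at h1
  exact (mul_eq_zero.1 h1).resolve_left (pow_ne_zero _ hyt)

end Pool.Agent.MP_ae5b4e_an_NB4C
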