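import Pool.Agent.Lib.MP_ae5b4e_an_NB4C.Defs
import Pool.Agent.Lib.MP_ae5b4e_an_NB4C.Lvl

/-!
# MP_ae5b4e_an, NB_4 part C: one boundary value (6.3)
-/

noncomputable section

namespace Pool.Agent.MP_ae5b4e_an_NB4C

open Complex Set Filter Topology Metric
open Pool.Agent.MP_ae5b4e_an_NB2 (Sys)
open Pool.Agent.MP_ae5b4e_an_NB4 (wdg uu uu')

/-- the neighbourhoods of the possible boundary values; `none` is infinity -/
private def lab (v : Sys) (l : Option ℂ) (η : ℝ) : Set ℂ :=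
  match l with
  | none => {t | t ∈ HP ∧ v.y2 t ≠ 0 ∧ ‖v.y1 t / v.y2 t‖ < η}
  | some x => {t | t ∈ HP ∧ v.y1 t ≠ 0 ∧ ‖v.y2 t / v.y1 t - x‖ < η}

private lemma hp_open : IsOpen HP := isOpen_lt Complex.continuous_im continuous_const

private lemma c1 {v : Sys} (on : v.On HP) : ContinuousOn v.y1 HP :=
  fun z hz => (on.d1 z hz).continuousAt.continuousWithinAt

private lemma c2 {v : Sys} (on : v.On HP) : ContinuousOn v.y2 HP :=
  fun z hz => (on.d2 z hz).continuousAt.continuousWithinAt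

private lemma open_aux {f g : ℂ → ℂ} (hf : ContinuousOn f HP) (hg : ContinuousOn g HP) (x : ℂ)
    (η : ℝ) : IsOpen {t | t ∈ HP ∧ g t ≠ 0 ∧ ‖f t / g t - x‖ < η} := by
  rw [isOpen_iff_mem_nhds]
  rintro t ⟨ht, h0, h1⟩
  have hn := hp_open.mem_nhds ht
  have hfc : ContinuousAt f t := (hf t ht).continuousAt hn
  have hgc : ContinuousAt g t := (hg t ht).continuousAt hn
  have hq : ContinuousAt (fun t => ‖f t / g t - x‖) t :=
    ((hfc.div hgc h0).sub continuousAt_const).norm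
  have e1 := hq.eventually_lt continuousAt_const h1
  have e2 := hgc.eventually_ne h0
  filter_upwards [hn, e1, e2] with s hs a b
  exact ⟨hs, b, a⟩

private lemma lab_open {v : Sys} (on : v.On HP) (l : Option ℂ) (η : ℝ) : IsOpen (lab v l η) := by
  cases l with
  | none =>
    have := open_aux (c1 on) (c2 on) 0 η
    simpa [lab] using this
  | some x => exact open_aux (c2 on) (c1 on) x η

private lemma lab_mono {v : Sys} {l : Option ℂ} {η η' : ℝ} (h : η ≤ η') :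
    lab v l η ⊆ lab v l η' := by
  cases l with
  | none => exact fun t ht => ⟨ht.1, ht.2.1, ht.2.2.trans_le h⟩
  | some x => exact fun t ht => ⟨ht.1, ht.2.1, ht.2.2.trans_le h⟩

private lemma lab_hp {v : Sys} {l : Option ℂ} {η : ℝ} {t : ℂ} (h : t ∈ lab v l η) : t ∈ HP := by
  cases l with
  | none => exact h.1
  | some x => exact h.1

/-- covering near the boundary line -/
private lemma cover {v : Sys} (on : v.On HP) (Sg : Finset ℂ)
    (h : ∀ x₀, x₀ ∉ Sg → ∃ ρ₁ > 0, ∃ δ₁ > 0, ∀ t ∈ HP, 1 / 2 - δ₁ < t.im → v.y1 t ≠ 0 →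
      ρ₁ ≤ ‖v.y2 t / v.y1 t - x₀‖) {η : ℝ} (hη : 0 < η) :
    ∃ δ > 0, ∀ t ∈ Sd δ, t ∈ lab v none η ∨ ∃ x ∈ Sg, t ∈ lab v (some x) η := by
  set K : Set ℂ := closedBall 0 (1 / η) ∩ {x | ∀ y ∈ Sg, η ≤ ‖x - y‖} with hK
  have hKc : IsCompact K := by
    refine (isCompact_closedBall 0 _).inter_right ?_
    have : {x : ℂ | ∀ y ∈ Sg, η ≤ ‖x - y‖} = ⋂ y ∈ Sg, {x | η ≤ ‖x - y‖} := by
      ext x; simp
    rw [this]
    exact isClosed_biInter fun y _ =>
      isClosed_le continuous_const (continuous_id.sub continuous_const).norm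
  obtain ⟨δ, hδ, hd⟩ : ∃ δ > 0, ∀ t ∈ HP, 1 / 2 - δ < t.im → v.y1 t ≠ 0 →
      v.y2 t / v.y1 t ∉ K := by
    refine hKc.induction_on (p := fun S => ∃ δ > 0, ∀ t ∈ HP, 1 / 2 - δ < t.im → v.y1 t ≠ 0 →
      v.y2 t / v.y1 t ∉ S) ⟨1, one_pos, fun _ _ _ _ => notMem_empty _⟩ ?_ ?_ ?_
    · rintro s t hst ⟨δ, hδ, h1⟩
      exact ⟨δ, hδ, fun t ht h2 h3 h4 => h1 t ht h2 h3 (hst h4)⟩
    · rintro s t ⟨δ, hδ, h1⟩ ⟨δ', hδ', h1'⟩
      refine ⟨min δ δ', lt_min hδ hδ', fun t ht h2 h3 h4 => ?_⟩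
      have m1 := min_le_left δ δ'
      have m2 := min_le_right δ δ'
      rcases h4 with h4 | h4
      · exact h1 t ht (by linarith) h3 h4
      · exact h1' t ht (by linarith) h3 h4
    · intro x hx
      have hxS : x ∉ Sg := by
        intro hx'
        have := hx.2 x hx'
        simp only [sub_self, norm_zero] at this
        linarith
      obtain ⟨ρ, hρ, δ, hδ, h1⟩ := h x hxS
      refine ⟨ball x ρ, mem_nhdsWithin_of_mem_nhds (ball_mem_nhds x hρ), δ, hδ,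
        fun t ht h2 h3 h4 => ?_⟩
      have := h1 t ht h2 h3
      rw [mem_ball, dist_eq_norm] at h4
      linarith
  refine ⟨δ, hδ, fun t ht => ?_⟩
  have htH : t ∈ HP := ht.2
  by_cases h0 : v.y1 t = 0
  · left
    have hw := on.wr t htH
    have h2 : v.y2 t ≠ 0 := by
      intro h2
      rw [h0, h2] at hw
      simp at hw
    refine ⟨htH, h2, ?_⟩
    rw [h0, zero_div, norm_zero]
    exact hη
  · have hnK := hd t htH ht.1 h0
    by_cases hb : ‖v.y2 t / v.y1 t‖ ≤ 1 / η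
    · right
      by_contra hcon
      push Not at hcon
      refine hnK ⟨by simpa [mem_closedBall, dist_eq_norm] using hb, fun y hy => ?_⟩
      by_contra hlt
      exact hcon y hy ⟨htH, h0, lt_of_not_ge hlt⟩
    · left
      push Not at hb
      have hpos : 0 < ‖v.y2 t / v.y1 t‖ := lt_trans (by positivity) hb
      have h2 : v.y2 t ≠ 0 := by
        intro h2
        rw [h2, zero_div, norm_zero] at hpos
        exact lt_irrefl _ hpos
      refine ⟨htH, h2, ?_⟩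
      have e : v.y1 t / v.y2 t = (v.y2 t / v.y1 t)⁻¹ := by rw [inv_div]
      rw [e, norm_inv, inv_lt_comm₀ hpos hη]
      simpa [one_div] using hb

/-- separation for small radii -/
private lemma disj {v : Sys} (Sg : Finset ℂ) :
    ∃ η₀ > 0, ∀ t, ∀ l l' : Option ℂ, (∀ x, l = some x → x ∈ Sg) → (∀ x, l' = some x → x ∈ Sg) →
      t ∈ lab v l η₀ → t ∈ lab v l' η₀ → l = l' := by
  obtain ⟨M, hM⟩ : ∃ M : ℝ, ∀ x ∈ Sg, ‖x‖ ≤ M := by
    obtain ⟨M, hM⟩ := Sg.finite_toSet.isBounded.exists_norm_le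
    exact ⟨M, fun x hx => hM x hx⟩
  obtain ⟨d, hd, hdd⟩ : ∃ d > 0, ∀ x ∈ Sg, ∀ y ∈ Sg, x ≠ y → d ≤ ‖x - y‖ := by
    have : ∀ T : Finset (ℂ × ℂ), ∃ d > (0 : ℝ), ∀ p ∈ T, p.1 ≠ p.2 → d ≤ ‖p.1 - p.2‖ := by
      intro T
      induction T using Finset.induction_on with
      | empty => exact ⟨1, one_pos, by simp⟩
      | insert p T _ ih =>
        obtain ⟨d, hd, h1⟩ := ih
        by_cases hp : p.1 = p.2
        · refine ⟨d, hd, fun q hq hne => ?_⟩
          rcases Finset.mem_insert.1 hq with rfl | hq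
          · exact absurd hp hne
          · exact h1 q hq hne
        · refine ⟨min d ‖p.1 - p.2‖, lt_min hd (norm_pos_iff.2 (sub_ne_zero.2 hp)),
            fun q hq hne => ?_⟩
          rcases Finset.mem_insert.1 hq with rfl | hq
          · exact min_le_right _ _
          · exact (min_le_left _ _).trans (h1 q hq hne)
    obtain ⟨d, hd, h1⟩ := this (Sg ×ˢ Sg)
    exact ⟨d, hd, fun x hx y hy hne => h1 (x, y) (Finset.mem_product.2 ⟨hx, hy⟩) hne⟩
  set η₀ : ℝ := min (d / 2) (1 / (|M| + 1)) with hη₀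
  have hp1 : 0 < 1 / (|M| + 1) := by positivity
  have hη : 0 < η₀ := lt_min (by positivity) hp1
  have hle1 : η₀ ≤ d / 2 := min_le_left _ _
  have hle2 : η₀ ≤ 1 / (|M| + 1) := min_le_right _ _
  have hone : η₀ ≤ 1 := hle2.trans (by
    rw [div_le_one (by positivity)]
    linarith [abs_nonneg M])
  -- infinity against a finite point
  have key : ∀ t x, x ∈ Sg → t ∈ lab v none η₀ → t ∈ lab v (some x) η₀ → False := by
    rintro t x hx ⟨_, h2, h3⟩ ⟨_, h4, h5⟩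
    have hx' : ‖x‖ ≤ |M| := (hM x hx).trans (le_abs_self M)
    have hF : ‖v.y2 t / v.y1 t‖ < |M| + 1 := by
      have e : v.y2 t / v.y1 t = (v.y2 t / v.y1 t - x) + x := by ring
      rw [e]
      refine (norm_add_le _ _).trans_lt ?_
      linarith
    have hFp : 0 < ‖v.y2 t / v.y1 t‖ := norm_pos_iff.2 (div_ne_zero h2 h4)
    have e : v.y1 t / v.y2 t = (v.y2 t / v.y1 t)⁻¹ := by rw [inv_div]
    rw [e, norm_inv] at h3
    have h6 := h3.trans_le hle2
    rw [one_div, inv_lt_inv₀ hFp (by positivity)] at h6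
    linarith
  refine ⟨η₀, hη, fun t l l' hl hl' h1 h1' => ?_⟩
  cases l with
  | none =>
    cases l' with
    | none => rfl
    | some x => exact (key t x (hl' x rfl) h1 h1').elim
  | some x =>
    cases l' with
    | none => exact (key t x (hl x rfl) h1' h1).elim
    | some y =>
      by_contra hne
      have hxy : x ≠ y := fun h => hne (by rw [h])
      have h3 := hdd x (hl x rfl) y (hl' y rfl) hxy
      obtain ⟨_, _, h5⟩ := h1
      obtain ⟨_, _, h5'⟩ := h1'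
      have : ‖x - y‖ < η₀ + η₀ := by
        have e : x - y = (v.y2 t / v.y1 t - y) - (v.y2 t / v.y1 t - x) := by ring
        rw [e]
        refine (norm_sub_le _ _).trans_lt ?_
        linarith
      linarith

private lemma sd_conv (δ : ℝ) : Convex ℝ (Sd δ) := by
  have h1 : Convex ℝ {z : ℂ | 1 / 2 - δ < z.im} := convex_halfSpace_im_gt _
  have h2 : Convex ℝ {z : ℂ | z.im < 1 / 2} := convex_halfSpace_im_lt _
  exact h1.inter h2

private lemma sd_ne {δ : ℝ} (hδ : 0 < δ) : (Sd δ).Nonempty := by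
  refine ⟨⟨0, 1 / 2 - δ / 2⟩, ?_, ?_⟩
  · show 1 / 2 - δ < 1 / 2 - δ / 2
    linarith
  · show 1 / 2 - δ / 2 < 1 / 2
    linarith

/-- `Σ` finite and every `x₀ ∉ Σ` has a neighbourhood which `F` avoids near the boundary line.  For
`η > 0` small the compact set `{‖x‖ ≤ 1/η, dist(x, Σ) ≥ η}` is covered by finitely many such
neighbourhoods: near the boundary line `F t` is within `η` of a point of `Σ`, or `‖F t‖ > 1/η` or
`v.y1 t = 0`.  These finitely many open conditions are disjoint for small `η` and the strip `Sd δ`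
is connected: only one of them holds, and it is the same for smaller `η`. -/
theorem one_value {v : Sys} (on : v.On HP) (Sg : Finset ℂ)
    (h : ∀ x₀, x₀ ∉ Sg → ∃ ρ₁ > 0, ∃ δ₁ > 0, ∀ t ∈ HP, 1 / 2 - δ₁ < t.im → v.y1 t ≠ 0 →
      ρ₁ ≤ ‖v.y2 t / v.y1 t - x₀‖) :
    (∃ x₁ : ℂ, ∀ η > 0, ∃ δ > 0, ∀ t ∈ Sd δ, v.y1 t ≠ 0 ∧ ‖v.y2 t / v.y1 t - x₁‖ < η) ∨
      ∀ η > 0, ∃ δ > 0, ∀ t ∈ Sd δ, v.y2 t ≠ 0 ∧ ‖v.y1 t / v.y2 t‖ < η := by
  obtain ⟨η₀, hη₀, hdis⟩ := disj (v := v) Sg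
  have cov : ∀ η > 0, ∃ δ > 0, ∀ t ∈ Sd δ, ∃ l : Option ℂ, (∀ x, l = some x → x ∈ Sg) ∧
      t ∈ lab v l η := by
    intro η hη
    obtain ⟨δ, hδ, h1⟩ := cover on Sg h hη
    refine ⟨δ, hδ, fun t ht => ?_⟩
    rcases h1 t ht with h2 | ⟨x, hx, h2⟩
    · exact ⟨none, by simp, h2⟩
    · exact ⟨some x, by rintro y hy; cases hy; exact hx, h2⟩
  obtain ⟨δ₀, hδ₀, h0⟩ := cov η₀ hη₀
  obtain ⟨t₀, ht₀⟩ := sd_ne hδ₀
  obtain ⟨l₀, hl₀, hm₀⟩ := h0 t₀ ht₀
  have hsub : Sd δ₀ ⊆ lab v l₀ η₀ := by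
    set V : Set ℂ := ⋃ l ∈ {l : Option ℂ | (∀ x, l = some x → x ∈ Sg) ∧ l ≠ l₀}, lab v l η₀
      with hV
    have hVo : IsOpen V := isOpen_biUnion fun l _ => lab_open on l η₀
    have hdj : Disjoint (lab v l₀ η₀) V := by
      rw [Set.disjoint_left]
      intro t ht htV
      rw [hV, mem_iUnion₂] at htV
      obtain ⟨l, ⟨hl, hne⟩, htl⟩ := htV
      exact hne (hdis t l l₀ hl hl₀ htl ht)
    refine (sd_conv δ₀).isPreconnected.subset_left_of_subset_union (lab_open on l₀ η₀) hVo hdj ?_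
      ⟨t₀, ht₀, hm₀⟩
    intro t ht
    obtain ⟨l, hl, htl⟩ := h0 t ht
    by_cases hll : l = l₀
    · left; rw [← hll]; exact htl
    · right
      rw [hV, mem_iUnion₂]
      exact ⟨l, ⟨hl, hll⟩, htl⟩
  have main : ∀ η > 0, ∃ δ > 0, ∀ t ∈ Sd δ, t ∈ lab v l₀ η := by
    intro η hη
    obtain ⟨δ₁, hδ₁, h1⟩ := cov (min η η₀) (lt_min hη hη₀)
    refine ⟨min δ₀ δ₁, lt_min hδ₀ hδ₁, fun t ht => ?_⟩
    have m1 := min_le_left δ₀ δ₁
    have m2 := min_le_right δ₀ δ₁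
    have ht0 : t ∈ Sd δ₀ := ⟨by linarith [ht.1], ht.2⟩
    have ht1 : t ∈ Sd δ₁ := ⟨by linarith [ht.1], ht.2⟩
    obtain ⟨l, hl, htl⟩ := h1 t ht1
    have e : l = l₀ := hdis t l l₀ hl hl₀ (lab_mono (min_le_right _ _) htl) (hsub ht0)
    rw [← e]
    exact lab_mono (min_le_left _ _) htl
  cases l₀ with
  | none =>
    right
    intro η hη
    obtain ⟨δ, hδ, h1⟩ := main η hη
    exact ⟨δ, hδ, fun t ht => (h1 t ht).2⟩
  | some x =>
    left
    refine ⟨x, fun η hη => ?_⟩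
    obtain ⟨δ, hδ, h1⟩ := main η hη
    exact ⟨δ, hδ, fun t ht => (h1 t ht).2⟩

end Pool.Agent.MP_ae5b4e_an_NB4C
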