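import Pool.Agent.Lib.MP_ae5b4e_an_NB4C.Defs
import Pool.Agent.Lib.MP_ae5b4e_an_NB4C.Lvl
import Pool.Agent.Lib.MP_ae5b4e_an_LAT.NDImplicit

/-!
# MP_ae5b4e_an, NB_4 part C: condensation points and algebraic branches
-/

noncomputable section

namespace Pool.Agent.MP_ae5b4e_an_NB4C

open Complex Set Filter Topology Metric
open Pool.Agent.MP_ae5b4e_an_NB2 (Sys)
open Pool.Agent.MP_ae5b4e_an_NB4 (wdg uu uu')

open Polynomial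

/-- An uncountable subset of a second countable space contains a condensation point (otherwise
every point of `A` has a neighbourhood with countable intersection with `A`; `A` is Lindelöf). -/
theorem exists_condens {α : Type*} [TopologicalSpace α] [SecondCountableTopology α] {A : Set α}
    (hA : ¬ A.Countable) : ∃ a ∈ A, ∀ U ∈ 𝓝 a, ¬ (A ∩ U).Countable := by
  by_contra hcon
  push Not at hcon
  choose! U hU hUc using hcon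
  obtain ⟨t, htA, htc, hcov⟩ := TopologicalSpace.countable_cover_nhdsWithin (f := U) (s := A)
    fun a ha => mem_nhdsWithin_of_mem_nhds (hU a ha)
  apply hA
  have h1 : (⋃ x ∈ t, A ∩ U x).Countable := htc.biUnion fun x hx => hUc x (htA hx)
  refine h1.mono fun a ha => ?_
  have h2 := hcov ha
  rw [Set.mem_iUnion₂] at h2 ⊢
  obtain ⟨x, hx, hax⟩ := h2
  exact ⟨x, hx, ha, hax⟩

/-- One branch: the analytic implicit function theorem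
(`Pool.Agent.MP_ae5b4e_an_ND.implicit_analytic`, applied to `(ζ, y) ↦ R (F ζ, y)`). -/
theorem exists_branch1 {F : ℂ → ℂ} {ζ₀ y₀ : ℂ} (hF : AnalyticAt ℂ F ζ₀) {R : ℂ[X][X]}
    (h0 : R.evalEval (F ζ₀) y₀ = 0) (h1 : (derivative R).evalEval (F ζ₀) y₀ ≠ 0) :
    ∃ b : ℂ → ℂ, AnalyticAt ℂ b ζ₀ ∧ b ζ₀ = y₀ ∧
      ∀ᶠ p : ℂ × ℂ in 𝓝 (ζ₀, y₀), R.evalEval (F p.1) p.2 = 0 ↔ b p.1 = p.2 := by
  have h2 : AnalyticAt ℂ (fun p : ℂ × ℂ => ((F p.1, p.2) : ℂ × ℂ)) (ζ₀, y₀) := by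
    refine AnalyticAt.prod ?_ analyticAt_snd
    exact AnalyticAt.fun_comp (g := F) (f := Prod.fst) (x := ((ζ₀, y₀) : ℂ × ℂ)) hF analyticAt_fst
  have h3 : AnalyticAt ℂ (fun p : ℂ × ℂ => R.evalEval (F p.1) p.2) (ζ₀, y₀) :=
    AnalyticAt.fun_comp (g := fun q : ℂ × ℂ => R.evalEval q.1 q.2)
      (f := fun p : ℂ × ℂ => ((F p.1, p.2) : ℂ × ℂ))
      (Pool.Agent.MP_ae5b4e_an_ND.analyticAt_evalEval R (F ζ₀, y₀)) h2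
  exact Pool.Agent.MP_ae5b4e_an_ND.implicit_analytic (F := fun p => R.evalEval (F p.1) p.2)
    h3 h0 h1 (Pool.Agent.MP_ae5b4e_an_ND.hasDerivAt_evalEval R (F ζ₀) y₀)

private theorem brn_zero {F bp : ℂ → ℂ} {ζ₀ y₀ : ℂ} {R : ℂ[X][X]} (hb : ContinuousAt bp ζ₀)
    (hb0 : bp ζ₀ = y₀)
    (h : ∀ᶠ p : ℂ × ℂ in 𝓝 (ζ₀, y₀), R.evalEval (F p.1) p.2 = 0 ↔ bp p.1 = p.2) :
    ∀ᶠ ζ in 𝓝 ζ₀, R.evalEval (F ζ) (bp ζ) = 0 := by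
  have h1 : Tendsto (fun x => (x, bp x)) (𝓝 ζ₀) (𝓝 (ζ₀, y₀)) := by
    rw [nhds_prod_eq]
    have : Tendsto bp (𝓝 ζ₀) (𝓝 y₀) := by rw [← hb0]; exact hb
    exact tendsto_id.prodMk this
  filter_upwards [h1.eventually h] with x hx
  exact hx.2 rfl

/-- Apply `exists_condens` to the set of the points `(ζ, xp ζ, xm ζ) ∈ ℂ³`, `ζ ∈ T`, and
`exists_branch1` at the condensation point; near it the local uniqueness gives `yp ζ = xp ζ`,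
`ym ζ = xm ζ`.  `R (F ζ) (yp ζ) = 0` on a small ball by the equivalence and continuity of `yp`. -/
theorem exists_branches {v : Sys} (on : v.On HP) {T : Set ℂ} (hT : T ⊆ HP) (hTc : ¬ T.Countable)
    (hy : ∀ ζ ∈ T, v.y1 ζ ≠ 0) {xp xm : ℂ → ℂ} {Rp Rm : ℂ[X][X]}
    (hp : ∀ ζ ∈ T, Rp.evalEval (v.y2 ζ / v.y1 ζ) (xp ζ) = 0 ∧
      (derivative Rp).evalEval (v.y2 ζ / v.y1 ζ) (xp ζ) ≠ 0)
    (hm : ∀ ζ ∈ T, Rm.evalEval (v.y2 ζ / v.y1 ζ) (xm ζ) = 0 ∧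
      (derivative Rm).evalEval (v.y2 ζ / v.y1 ζ) (xm ζ) ≠ 0) :
    ∃ (b : ℂ) (ρ : ℝ), 0 < ρ ∧ ball b ρ ⊆ HP ∧ (∀ ζ ∈ ball b ρ, v.y1 ζ ≠ 0) ∧
      ∃ yp ym : ℂ → ℂ, AnalyticOnNhd ℂ yp (ball b ρ) ∧ AnalyticOnNhd ℂ ym (ball b ρ) ∧
        (∀ ζ ∈ ball b ρ, Rp.evalEval (v.y2 ζ / v.y1 ζ) (yp ζ) = 0) ∧
        (∀ ζ ∈ ball b ρ, Rm.evalEval (v.y2 ζ / v.y1 ζ) (ym ζ) = 0) ∧
        ¬ {ζ ∈ T ∩ ball b ρ | yp ζ = xp ζ ∧ ym ζ = xm ζ}.Countable := by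
  set g : ℂ → ℂ × ℂ × ℂ := fun ζ => (ζ, xp ζ, xm ζ) with hg
  have hginj : Function.Injective g := fun a b hab => (Prod.ext_iff.1 hab).1
  have hA : ¬ (g '' T).Countable := fun hc =>
    hTc (Set.countable_of_injective_of_countable_image hginj.injOn hc)
  obtain ⟨a, ⟨ζ₀, hζ₀, rfl⟩, hcond⟩ := exists_condens hA
  have hHP : HP ∈ 𝓝 ζ₀ := HP_open.mem_nhds (hT hζ₀)
  have an1 : AnalyticAt ℂ v.y1 ζ₀ := DifferentiableOn.analyticAt (s := HP)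
    (fun z hz => (on.d1 z hz).differentiableAt.differentiableWithinAt) hHP
  have an2 : AnalyticAt ℂ v.y2 ζ₀ := DifferentiableOn.analyticAt (s := HP)
    (fun z hz => (on.d2 z hz).differentiableAt.differentiableWithinAt) hHP
  have hF : AnalyticAt ℂ (fun ζ => v.y2 ζ / v.y1 ζ) ζ₀ := an2.div an1 (hy ζ₀ hζ₀)
  obtain ⟨yp, hyp, hyp0, hypE⟩ := exists_branch1 hF (hp ζ₀ hζ₀).1 (hp ζ₀ hζ₀).2
  obtain ⟨ym, hym, hym0, hymE⟩ := exists_branch1 hF (hm ζ₀ hζ₀).1 (hm ζ₀ hζ₀).2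
  have hev : ∀ᶠ ζ in 𝓝 ζ₀, (ζ ∈ HP ∧ v.y1 ζ ≠ 0) ∧ (AnalyticAt ℂ yp ζ ∧ AnalyticAt ℂ ym ζ) ∧
      Rp.evalEval (v.y2 ζ / v.y1 ζ) (yp ζ) = 0 ∧ Rm.evalEval (v.y2 ζ / v.y1 ζ) (ym ζ) = 0 :=
    ((show ∀ᶠ ζ in 𝓝 ζ₀, ζ ∈ HP from hHP).and
      (an1.continuousAt.eventually_ne (hy ζ₀ hζ₀))).and
      ((hyp.eventually_analyticAt.and hym.eventually_analyticAt).and
        ((brn_zero (F := fun ζ => v.y2 ζ / v.y1 ζ) hyp.continuousAt hyp0 hypE).and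
          (brn_zero (F := fun ζ => v.y2 ζ / v.y1 ζ) hym.continuousAt hym0 hymE)))
  obtain ⟨ρ, hρ, hball⟩ := Metric.eventually_nhds_iff_ball.1 hev
  refine ⟨ζ₀, ρ, hρ, fun ζ hζ => (hball ζ hζ).1.1, fun ζ hζ => (hball ζ hζ).1.2, yp, ym,
    fun ζ hζ => (hball ζ hζ).2.1.1, fun ζ hζ => (hball ζ hζ).2.1.2,
    fun ζ hζ => (hball ζ hζ).2.2.1, fun ζ hζ => (hball ζ hζ).2.2.2, fun hS => ?_⟩
  have t1 : Tendsto (fun a : ℂ × ℂ × ℂ => ((a.1, a.2.1) : ℂ × ℂ)) (𝓝 (g ζ₀))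
      (𝓝 ((ζ₀, xp ζ₀) : ℂ × ℂ)) :=
    (continuous_fst.prodMk (continuous_fst.comp continuous_snd)).tendsto (g ζ₀)
  have t2 : Tendsto (fun a : ℂ × ℂ × ℂ => ((a.1, a.2.2) : ℂ × ℂ)) (𝓝 (g ζ₀))
      (𝓝 ((ζ₀, xm ζ₀) : ℂ × ℂ)) :=
    (continuous_fst.prodMk (continuous_snd.comp continuous_snd)).tendsto (g ζ₀)
  have t3 : Tendsto (fun a : ℂ × ℂ × ℂ => a.1) (𝓝 (g ζ₀)) (𝓝 ζ₀) :=
    continuous_fst.tendsto (g ζ₀)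
  have hU := (t1.eventually hypE).and ((t2.eventually hymE).and
    (t3.eventually (show ∀ᶠ ζ in 𝓝 ζ₀, ζ ∈ ball ζ₀ ρ from ball_mem_nhds ζ₀ hρ)))
  refine hcond _ hU ((hS.image g).mono ?_)
  rintro _ ⟨⟨ζ, hζT, rfl⟩, h1, h2, h3⟩
  exact ⟨ζ, ⟨⟨hζT, h3⟩, h1.1 (hp ζ hζT).1, h2.1 (hm ζ hζT).1⟩, rfl⟩

end Pool.Agent.MP_ae5b4e_an_NB4C
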