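import Pool.Agent.Lib.MP_ae5b4e_an_NB4C.Defs


/-!
# MP_ae5b4e_an, NB_4 part C: evaluation of the chain
-/

noncomputable section

namespace Pool.Agent.MP_ae5b4e_an_NB4C

open Complex Set Filter Topology Metric
open Pool.Agent.MP_ae5b4e_an_NB2 (Sys)
open Pool.Agent.MP_ae5b4e_an_NB4 (wdg uu uu')

theorem che_succ {R : Type*} [CommRing R] (ε : ℕ → R) (x y : R) (n : ℕ) :
    chn ε x y (n + 2) =
      (wd (chn ε x y n) (1, ε (n + 1)) * (chn ε x y (n + 1)).1 +
          wd (chn ε x y n) (chn ε x y (n + 1)),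
        wd (chn ε x y n) (1, ε (n + 1)) * (chn ε x y (n + 1)).2 +
          wd (chn ε x y n) (chn ε x y (n + 1)) * ε (n + 1)) := by
  rw [chn]

/-- Along a chain without hits the vector `chn n` is a non-zero multiple of `(1, x n)`.
Induction on `n` (two steps), together with `x (n+1) ≠ x n`: with `X_k = μ_k (1, x_k)`,
`wd X_{n-1} e_n = μ_{n-1} (ε_n - x_{n-1})`, `wd X_{n-1} X_n = μ_{n-1} μ_n (x_n - x_{n-1})`, so
`X_{n+1} = μ_{n-1} μ_n (ε_n + x_n - 2 x_{n-1}, (ε_n - x_{n-1}) x_n + (x_n - x_{n-1}) ε_n)`; the node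
relation says: second = `x_{n+1}` times first; if the first is zero then also
`-2 (x_n - x_{n-1})² = 0` (insert `ε_n = 2 x_{n-1} - x_n`).  `x (n+1) = x n` would give
`(ε_n - x_n) (x_{n-1} - x_n) = 0`. -/
theorem chn_hit {q m : ℕ} {ε x : ℕ → ℂ} (h : Hit q ε x m) :
    (∀ n, n < m → x (n + 1) ≠ x n) ∧
      ∀ n, n ≤ m → ∃ μ : ℂ, μ ≠ 0 ∧ chn ε (x 0) (x 1) n = (μ, μ * x n) := by
  have hsep : ∀ n, n < m → x (n + 1) ≠ x n := by
    intro n
    induction n with
    | zero => exact fun _ => h.sep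
    | succ n ih =>
      intro hn heq
      have h1 := h.node (n + 1) (by omega) hn
      rw [Nat.add_sub_cancel, heq] at h1
      have h2 : (ε (n + 1) - x (n + 1)) * (x n - x (n + 1)) = 0 := by linear_combination h1
      rcases mul_eq_zero.1 h2 with h3 | h3
      · exact h.ne (n + 1) (by omega) hn (sub_eq_zero.1 h3).symm
      · exact ih (by omega) (sub_eq_zero.1 h3).symm
  refine ⟨hsep, ?_⟩
  have hpair : ∀ n, n + 1 ≤ m → (∃ μ : ℂ, μ ≠ 0 ∧ chn ε (x 0) (x 1) n = (μ, μ * x n)) ∧
      ∃ μ : ℂ, μ ≠ 0 ∧ chn ε (x 0) (x 1) (n + 1) = (μ, μ * x (n + 1)) := by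
    intro n
    induction n with
    | zero =>
      intro _
      refine ⟨⟨1, one_ne_zero, ?_⟩, ⟨1, one_ne_zero, ?_⟩⟩
      · rw [chn, one_mul]
      · rw [zero_add, chn, one_mul]
    | succ n ih =>
      intro hn
      obtain ⟨⟨μ, hμ, e1⟩, ν, hν, e2⟩ := ih (by omega)
      refine ⟨⟨ν, hν, e2⟩, ?_⟩
      have hnode := h.node (n + 1) (by omega) (by omega)
      rw [Nat.add_sub_cancel] at hnode
      have hs := hsep n (by omega)
      rw [che_succ, e1, e2]
      unfold wd
      dsimp only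
      generalize x (n + 1 + 1) = c at *
      generalize x (n + 1) = b at *
      generalize x n = a at *
      generalize ε (n + 1) = e at *
      refine ⟨μ * ν * (e + b - 2 * a), ?_, ?_⟩
      · refine mul_ne_zero (mul_ne_zero hμ hν) fun h0 => hs ?_
        have h1 : (b - a) ^ 2 = 0 := by
          have h2 : e = 2 * a - b := by linear_combination h0
          rw [h2] at hnode
          linear_combination (1 / 2) * hnode
        exact sub_eq_zero.1 (pow_eq_zero_iff two_ne_zero |>.1 h1)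
      · refine Prod.ext ?_ ?_
        · dsimp only
          ring
        · dsimp only
          linear_combination (-(μ * ν)) * hnode
  intro n hn
  cases n with
  | zero => exact (hpair 0 h.one_le).1
  | succ n => exact (hpair n hn).2

/-- Conversely: if the vectors `chn n`, `n ≤ m`, have non-zero first coordinate, the quotients
`x n` satisfy the node relations (and `x (n+1) ≠ x n`), provided `y ≠ x` and `x n ≠ ε n` for
`1 ≤ n < m`. -/
theorem chn_node {m : ℕ} {ε : ℕ → ℂ} {x y : ℂ} (hxy : y ≠ x)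
    (h1 : ∀ n, n ≤ m → (chn ε x y n).1 ≠ 0)
    (h2 : ∀ n, 1 ≤ n → n < m → wd (chn ε x y n) (1, ε n) ≠ 0) :
    (∀ n, 1 ≤ n → n < m →
      (ε n - (chn ε x y (n + 1)).2 / (chn ε x y (n + 1)).1) *
          ((chn ε x y (n - 1)).2 / (chn ε x y (n - 1)).1 - (chn ε x y n).2 / (chn ε x y n).1) +
        (ε n - (chn ε x y (n - 1)).2 / (chn ε x y (n - 1)).1) *
          ((chn ε x y (n + 1)).2 / (chn ε x y (n + 1)).1 -
            (chn ε x y n).2 / (chn ε x y n).1) = 0) ∧
      (∀ n, n < m → (chn ε x y (n + 1)).2 / (chn ε x y (n + 1)).1 ≠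
        (chn ε x y n).2 / (chn ε x y n).1) ∧
      ∀ n, 1 ≤ n → n < m → (chn ε x y n).2 / (chn ε x y n).1 ≠ ε n := by
  have hD : ∀ n, n < m → wd (chn ε x y n) (chn ε x y (n + 1)) ≠ 0 := by
    intro n
    induction n with
    | zero =>
      intro _ h0
      apply hxy
      unfold wd at h0
      rw [zero_add] at h0
      simp only [chn] at h0
      linear_combination h0
    | succ n ih =>
      intro hn
      have h3 : wd (chn ε x y (n + 1)) (chn ε x y (n + 1 + 1)) =
          wd (chn ε x y n) (chn ε x y (n + 1)) * wd (chn ε x y (n + 1)) (1, ε (n + 1)) := by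
        rw [che_succ]
        unfold wd
        dsimp only
        ring
      rw [h3]
      exact mul_ne_zero (ih (by omega)) (h2 (n + 1) (by omega) hn)
  refine ⟨?_, ?_, ?_⟩
  · intro n hn1 hn
    obtain ⟨k, rfl⟩ : ∃ k, n = k + 1 := ⟨n - 1, by omega⟩
    rw [Nat.add_sub_cancel]
    have a1 := h1 k (by omega)
    have a2 := h1 (k + 1) (by omega)
    have a3 := h1 (k + 1 + 1) (by omega)
    have e3 := che_succ ε x y k
    unfold wd at e3
    dsimp only at e3
    have e31 := (Prod.ext_iff.1 e3).1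
    have e32 := (Prod.ext_iff.1 e3).2
    dsimp only at e31 e32
    change (chn ε x y (k + 1 + 1)).1 = _ at e31
    change (chn ε x y (k + 1 + 1)).2 = _ at e32
    generalize (chn ε x y (k + 1 + 1)).1 = s1 at *
    generalize (chn ε x y (k + 1 + 1)).2 = s2 at *
    generalize (chn ε x y (k + 1)).1 = r1 at *
    generalize (chn ε x y (k + 1)).2 = r2 at *
    generalize (chn ε x y k).1 = p1 at *
    generalize (chn ε x y k).2 = p2 at *
    generalize ε (k + 1) = e at *
    have key : (e * s1 - s2) * (p2 * r1 - r2 * p1) + (e * p1 - p2) * (s2 * r1 - r2 * s1) = 0 := by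
      rw [e31, e32]
      ring
    have e4 : (e - s2 / s1) * (p2 / p1 - r2 / r1) + (e - p2 / p1) * (s2 / s1 - r2 / r1) =
        ((e * s1 - s2) * (p2 * r1 - r2 * p1) + (e * p1 - p2) * (s2 * r1 - r2 * s1)) /
          (s1 * p1 * r1) := by
      field_simp
    rw [e4, key, zero_div]
  · intro n hn heq
    apply hD n hn
    rw [div_eq_div_iff (h1 (n + 1) hn) (h1 n hn.le)] at heq
    unfold wd
    linear_combination heq
  · intro n hn1 hn heq
    apply h2 n hn1 hn
    rw [div_eq_iff (h1 n hn.le)] at heq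
    unfold wd
    dsimp only
    linear_combination -heq

end Pool.Agent.MP_ae5b4e_an_NB4C
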