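import Pool.Agent.Lib.MP_ae5b4e_an_NB4C.Defs


/-!
# MP_ae5b4e_an, NB_4 part C: the chain polynomials are not zero
-/

noncomputable section

namespace Pool.Agent.MP_ae5b4e_an_NB4C

open Complex Set Filter Topology Metric
open Pool.Agent.MP_ae5b4e_an_NB2 (Sys)
open Pool.Agent.MP_ae5b4e_an_NB4 (wdg uu uu')

open Polynomial

theorem chn_map {R R' : Type*} [CommRing R] [CommRing R'] (f : R →+* R') (ε : ℕ → R) (x y : R)
    (n : ℕ) : (f (chn ε x y n).1, f (chn ε x y n).2) =
      chn (fun k => f (ε k)) (f x) (f y) n := by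
  induction n using Nat.twoStepInduction with
  | zero => simp [chn]
  | one => simp [chn]
  | more n ih1 ih2 =>
    simp only [chn, wd]
    rw [← ih1, ← ih2]
    simp only [map_add, map_mul, map_sub, map_one]

private theorem map_wd {R R' : Type*} [CommRing R] [CommRing R'] (f : R →+* R') (a b : R × R) :
    f (wd a b) = wd (f a.1, f a.2) (f b.1, f b.2) := by
  simp only [wd, map_sub, map_mul]

/-- the chain polynomials, `x = C X` (inner variable), `y = X` (outer variable) -/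
def cP (ε : ℕ → ℂ) (n : ℕ) : ℂ[X][X] × ℂ[X][X] := chn (fun k => C (C (ε k))) (C X) X n

theorem cP_eval (ε : ℕ → ℂ) (x y : ℂ) (n : ℕ) :
    ((cP ε n).1.evalEval x y, (cP ε n).2.evalEval x y) = chn ε x y n := by
  have h := chn_map (evalEvalRingHom x y) (fun k => C (C (ε k))) (C X) X n
  simp only [coe_evalEvalRingHom, evalEval_C, evalEval_X, eval_C, eval_X] at h
  exact h

/-- On the diagonal `chn ε x x n = c_n (1, x)` with `c_0 = c_1 = 1`,
`c_{n+2} = c_n c_{n+1} (ε_{n+1} - x)`: not zero if `x` is different from all `ε k`. -/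
theorem chn_diag (ε : ℕ → ℂ) {x : ℂ} (hx : ∀ k, x ≠ ε k) (n : ℕ) :
    ∃ c : ℂ, c ≠ 0 ∧ chn ε x x n = (c, c * x) := by
  induction n using Nat.twoStepInduction with
  | zero => exact ⟨1, one_ne_zero, by simp [chn]⟩
  | one => exact ⟨1, one_ne_zero, by simp [chn]⟩
  | more n ih1 ih2 =>
    obtain ⟨c, hc, h1⟩ := ih1
    obtain ⟨d, hd, h2⟩ := ih2
    refine ⟨c * (ε (n + 1) - x) * d, mul_ne_zero (mul_ne_zero hc
      (sub_ne_zero.2 (hx (n + 1)).symm)) hd, ?_⟩
    simp only [chn, wd]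
    rw [h1, h2]
    refine Prod.ext ?_ ?_
    · show (c * ε (n + 1) - c * x * 1) * d + (c * (d * x) - c * x * d) = _
      ring
    · show (c * ε (n + 1) - c * x * 1) * (d * x) + (c * (d * x) - c * x * d) * ε (n + 1) = _
      ring

private theorem exists_av (ε : ℕ → ℂ) : ∃ x : ℂ, ∀ k, x ≠ ε k := by
  have h1 : (Set.range ε).Countable := Set.countable_range ε
  obtain ⟨x, hx⟩ := (h1.dense_compl ℝ).nonempty
  exact ⟨x, fun k hk => hx ⟨k, hk.symm⟩⟩

/-- `X_m ∧ e_m` is not the zero polynomial: on the diagonal it is `c_m (ε_m - x)`.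
(Take `x` outside the countable set of the `ε k`.) -/
theorem cP_wedge_ne (ε : ℕ → ℂ) (m : ℕ) : wd (cP ε m) (1, C (C (ε m))) ≠ 0 := by
  intro h0
  obtain ⟨x, hx⟩ := exists_av ε
  obtain ⟨c, hc, h1⟩ := chn_diag ε hx m
  have h2 := congrArg (evalEvalRingHom x x) h0
  rw [map_wd, map_zero] at h2
  simp only [coe_evalEvalRingHom, evalEval_C, eval_C, map_one] at h2
  rw [cP_eval, h1] at h2
  have h3 : c * ε m - c * x * 1 = 0 := h2
  have h4 : c * (ε m - x) = 0 := by linear_combination h3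
  rcases mul_eq_zero.1 h4 with h5 | h5
  · exact hc h5
  · exact hx m (sub_eq_zero.1 h5).symm

private theorem chn_first' (ε : ℕ → ℂ) {x : ℂ} (hx : ∀ k, x ≠ ε k) (n : ℕ) :
    ∃ c α : ℂ, c ≠ 0 ∧ chn ε x x n = (c, c * x) ∧
      HasDerivAt (fun y => (chn ε x y n).1) α x ∧
      HasDerivAt (fun y => (chn ε x y n).2) (n * c + x * α) x := by
  induction n using Nat.twoStepInduction with
  | zero =>
    refine ⟨1, 0, one_ne_zero, by simp [chn], ?_, ?_⟩
    · exact hasDerivAt_const x (1 : ℂ)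
    · have h := hasDerivAt_const x x
      have e : ((0 : ℕ) : ℂ) * 1 + x * 0 = 0 := by simp
      rw [e]
      exact h
  | one =>
    refine ⟨1, 0, one_ne_zero, by simp [chn], ?_, ?_⟩
    · exact hasDerivAt_const x (1 : ℂ)
    · have h := hasDerivAt_id x
      have e : ((1 : ℕ) : ℂ) * 1 + x * 0 = 1 := by simp
      rw [e]
      exact h
  | more n ih1 ih2 =>
    obtain ⟨c, α, hc, h1, hA, hS⟩ := ih1
    obtain ⟨d, β, hd, h2, hB, hT⟩ := ih2
    have w1 := (hA.mul_const (ε (n + 1))).sub (hS.mul_const 1)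
    have w2 := (hA.mul hT).sub (hS.mul hB)
    have a1 : (chn ε x x n).1 = c := by rw [h1]
    have a2 : (chn ε x x n).2 = c * x := by rw [h1]
    have b1 : (chn ε x x (n + 1)).1 = d := by rw [h2]
    have b2 : (chn ε x x (n + 1)).2 = d * x := by rw [h2]
    have f1 := (w1.mul hB).add w2
    have f2 := (w1.mul hT).add (w2.mul_const (ε (n + 1)))
    refine ⟨c * (ε (n + 1) - x) * d, _, mul_ne_zero (mul_ne_zero hc
      (sub_ne_zero.2 (hx (n + 1)).symm)) hd, ?_, f1, ?_⟩
    · simp only [chn, wd]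
      rw [h1, h2]
      refine Prod.ext ?_ ?_
      · show (c * ε (n + 1) - c * x * 1) * d + (c * (d * x) - c * x * d) = _
        ring
      · show (c * ε (n + 1) - c * x * 1) * (d * x) + (c * (d * x) - c * x * d) * ε (n + 1) = _
        ring
    · refine f2.congr_deriv ?_
      simp only [Pi.sub_apply, Pi.mul_apply]
      rw [a1, a2, b1, b2]
      push_cast
      ring

/-- First order off the diagonal: fix `x` different from all `ε k`.  With `a = (chn n).1`,
`b = (chn n).2 - x (chn n).1` as functions of `δ = y - x`: `a(0) = c_n ≠ 0`, `b(0) = 0`,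
`b'(0) = n c_n` (induction: `a_{n+2} = (w) a_{n+1} + w'`, `b_{n+2} = w b_{n+1} + w' (ε_{n+1} - x)`,
`w = a_n (ε_{n+1} - x) - b_n`, `w' = a_n b_{n+1} - b_n a_{n+1}`). -/
theorem chn_first (ε : ℕ → ℂ) {x : ℂ} (hx : ∀ k, x ≠ ε k) (n : ℕ) :
    ∃ c : ℂ, c ≠ 0 ∧ (chn ε x x n).1 = c ∧
      HasDerivAt (fun y => (chn ε x y n).2 - x * (chn ε x y n).1) (n * c) x := by
  obtain ⟨c, α, hc, h1, hA, hS⟩ := chn_first' ε hx n
  refine ⟨c, hc, by rw [h1], ?_⟩
  refine (hS.sub (hA.const_mul x)).congr_deriv ?_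
  ring

/-- `X_q ∧ X_0` is not the zero polynomial for `q ≥ 1`: for `x` outside the `ε k` the function
`y ↦ (chn ε x y q).2 - x (chn ε x y q).1` has non-zero derivative `q c_q` at `y = x`. -/
theorem cP_close_ne (ε : ℕ → ℂ) {q : ℕ} (hq : 1 ≤ q) : wd (cP ε 0) (cP ε q) ≠ 0 := by
  intro h0
  obtain ⟨x, hx⟩ := exists_av ε
  obtain ⟨c, hc, -, hD⟩ := chn_first ε hx q
  have h1 : (fun y => (chn ε x y q).2 - x * (chn ε x y q).1) = fun _ => (0 : ℂ) := by
    funext y
    have h2 := congrArg (evalEvalRingHom x y) h0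
    rw [map_wd, map_zero] at h2
    simp only [coe_evalEvalRingHom] at h2
    rw [cP_eval, cP_eval] at h2
    have h3 : 1 * (chn ε x y q).2 - x * (chn ε x y q).1 = 0 := h2
    rw [one_mul] at h3
    exact h3
  rw [h1] at hD
  have h2 := hD.unique (hasDerivAt_const x (0 : ℂ))
  rcases mul_eq_zero.1 h2 with h3 | h3
  · rw [Nat.cast_eq_zero] at h3
    omega
  · exact hc h3

end Pool.Agent.MP_ae5b4e_an_NB4C
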