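import Pool.Agent.Lib.MP_ae5b4e_an_NB4C.Defs


/-!
# MP_ae5b4e_an, NB_4 part C: first hits, fixed for uncountably many states
-/

noncomputable section

namespace Pool.Agent.MP_ae5b4e_an_NB4C

open Complex Set Filter Topology Metric
open Pool.Agent.MP_ae5b4e_an_NB2 (Sys)
open Pool.Agent.MP_ae5b4e_an_NB4 (wdg uu uu')

private theorem fix_side {q : ℕ} (hq : 2 ≤ q) {e y : ℤ → ℂ}
    (hn : ∀ n : ℤ, ¬ (q : ℤ) ∣ n → y n ≠ e n →
      (e n - y (n + 1)) * (y (n - 1) - y n) + (e n - y (n - 1)) * (y (n + 1) - y n) = 0)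
    (hs : y 1 ≠ y 0) :
    ∃ m : ℕ, Hit q (fun n => e n) (fun n => y n) m ∧
      (m = q ↔ ∀ n : ℕ, 1 ≤ n → n < q → y n ≠ e n) := by
  classical
  have key : ∀ m : ℕ, 1 ≤ m → m ≤ q → (∀ n : ℕ, 1 ≤ n → n < m → y n ≠ e n) →
      (m < q → y m = e m) → Hit q (fun n => e n) (fun n => y n) m := by
    intro m h1 h2 h3 h4
    refine ⟨h1, h2, h3, h4, ?_, ?_⟩
    · simpa using hs
    · intro n hn1 hnm
      have hnd : ¬ (q : ℤ) ∣ (n : ℤ) := by
        intro hd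
        have hd' : q ∣ n := Int.natCast_dvd_natCast.1 hd
        have := Nat.le_of_dvd (by omega) hd'
        omega
      have h5 := hn n hnd (h3 n hn1 hnm)
      have e1 : ((n - 1 : ℕ) : ℤ) = (n : ℤ) - 1 := by
        push_cast [hn1]
        ring
      simp only [e1]
      push_cast
      exact h5
  by_cases hex : ∃ n : ℕ, 1 ≤ n ∧ n < q ∧ y n = e n
  · refine ⟨Nat.find hex, ?_, ?_⟩
    · obtain ⟨h1, h2, h3⟩ := Nat.find_spec hex
      refine key _ h1 h2.le ?_ fun _ => h3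
      intro n hn1 hnm hne
      exact Nat.find_min hex hnm ⟨hn1, by omega, hne⟩
    · obtain ⟨h1, h2, h3⟩ := Nat.find_spec hex
      constructor
      · intro h
        omega
      · intro h
        exact absurd h3 (h _ h1 h2)
  · push Not at hex
    refine ⟨q, key q (by omega) le_rfl (fun n h1 h2 => hex n h1 h2) (fun h => by omega), ?_⟩
    exact ⟨fun _ n h1 h2 => hex n h1 h2, fun _ => rfl⟩

/-- One state: `m` = the first `n ∈ {1, .., q-1}` with `x n = ε n`, or `m = q` if there is none;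
`m'` the same for the mirror image.  Because of the period, `m = q` iff `m' = q`. -/
theorem hit_of_sc {v : Sys} {q : ℕ} (hq : 2 ≤ q) {ε : ℤ → ℂ} (hε : ∀ n, ε (n + q) = ε n) {ζ : ℂ}
    {x : ℤ → ℂ} (h : Sc v q ε ζ x) :
    ∃ m m' : ℕ, Hit q (fun n => ε n) (fun n => x n) m ∧
      Hit q (fun n => ε (-n)) (fun n => x (-n)) m' ∧ (m = q ↔ m' = q) := by
  obtain ⟨m, h1, h2⟩ := fix_side hq h.node h.sep
  have hmir : ∀ n : ℤ, ¬ (q : ℤ) ∣ n → x (-n) ≠ ε (-n) →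
      (ε (-n) - x (-(n + 1))) * (x (-(n - 1)) - x (-n)) +
        (ε (-n) - x (-(n - 1))) * (x (-(n + 1)) - x (-n)) = 0 := by
    intro n hn hne
    have h3 := h.node (-n) (by rwa [dvd_neg]) hne
    have e1 : -(n + 1) = -n - 1 := by ring
    have e2 : -(n - 1) = -n + 1 := by ring
    rw [e1, e2]
    linear_combination h3
  obtain ⟨m', h3, h4⟩ := fix_side (e := fun n => ε (-n)) (y := fun n => x (-n)) hq hmir
    (by simpa using h.sep')
  refine ⟨m, m', h1, h3, ?_⟩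
  rw [h2, h4]
  have hper : ∀ n : ℕ, n < q → x (-(n : ℤ)) = x ((q - n : ℕ) : ℤ) ∧
      ε (-(n : ℤ)) = ε ((q - n : ℕ) : ℤ) := by
    intro n hn
    have e1 : ((q - n : ℕ) : ℤ) = -(n : ℤ) + q := by
      push_cast [hn.le]
      ring
    rw [e1, h.per, hε]
    exact ⟨rfl, rfl⟩
  constructor
  · intro h5 n hn1 hnq
    have h6 := hper n hnq
    change x (-(n : ℤ)) ≠ ε (-(n : ℤ))
    rw [h6.1, h6.2]
    exact h5 _ (by omega) (by omega)
  · intro h5 n hn1 hnq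
    have h6 := hper (q - n) (by omega)
    have h7 := h5 (q - n) (by omega) (by omega)
    change x (-((q - n : ℕ) : ℤ)) ≠ ε (-((q - n : ℕ) : ℤ)) at h7
    rw [h6.1, h6.2, show q - (q - n) = n by omega] at h7
    exact h7

/-- Pigeonhole over the pairs `(m, m')`, `m, m' ≤ q`; choose one state for every `ζ`. -/
theorem exists_fixed {v : Sys} {q : ℕ} {ε : ℤ → ℂ} (H : LimS v q ε) :
    ∃ (m m' : ℕ) (T : Set ℂ) (x : ℂ → ℤ → ℂ), (m = q ↔ m' = q) ∧ T ⊆ closedBall 0 (1 / 8) ∧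
      ¬ T.Countable ∧ ∀ ζ ∈ T, Sc v q ε ζ (x ζ) ∧ Hit q (fun n => ε n) (fun n => x ζ n) m ∧
        Hit q (fun n => ε (-n)) (fun n => x ζ (-n)) m' := by
  classical
  obtain ⟨T, hT1, hT2, hT3⟩ := H.st
  set G : ℕ → ℕ → Set ℂ := fun m m' => {ζ | ζ ∈ T ∧ (m = q ↔ m' = q) ∧ ∃ x : ℤ → ℂ,
    Sc v q ε ζ x ∧ Hit q (fun n => ε n) (fun n => x n) m ∧
      Hit q (fun n => ε (-n)) (fun n => x (-n)) m'} with hG
  have hsub : T ⊆ ⋃ p ∈ Finset.range (q + 1) ×ˢ Finset.range (q + 1), G p.1 p.2 := by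
    intro ζ hζ
    obtain ⟨x, hx⟩ := hT3 ζ hζ
    obtain ⟨m, m', h1, h2, h3⟩ := hit_of_sc H.q_two H.per hx
    rw [Set.mem_iUnion₂]
    refine ⟨(m, m'), ?_, hζ, h3, x, hx, h1, h2⟩
    rw [Finset.mem_product, Finset.mem_range, Finset.mem_range]
    have := h1.le
    have := h2.le
    exact ⟨by omega, by omega⟩
  have hex : ∃ m m', ¬ (G m m').Countable := by
    by_contra hcon
    push Not at hcon
    refine hT2 (Set.Countable.mono hsub ?_)
    exact Set.Countable.biUnion (Finset.countable_toSet _) fun p _ => hcon p.1 p.2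
  obtain ⟨m, m', hmm⟩ := hex
  have hne : (G m m').Nonempty := by
    rw [Set.nonempty_iff_ne_empty]
    intro h0
    rw [h0] at hmm
    exact hmm Set.countable_empty
  obtain ⟨ζ₀, hζ₀⟩ := hne
  have hch : ∀ ζ : ℂ, ∃ x : ℤ → ℂ, ζ ∈ G m m' → Sc v q ε ζ x ∧
      Hit q (fun n => ε n) (fun n => x n) m ∧
      Hit q (fun n => ε (-n)) (fun n => x (-n)) m' := by
    intro ζ
    by_cases hζ : ζ ∈ G m m'
    · obtain ⟨_, _, x, hx⟩ := hζ
      exact ⟨x, fun _ => hx⟩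
    · exact ⟨fun _ => 0, fun h => absurd h hζ⟩
  choose x hx using hch
  exact ⟨m, m', G m m', x, hζ₀.2.1, fun ζ hζ => hT1 hζ.1, hmm, hx⟩

end Pool.Agent.MP_ae5b4e_an_NB4C
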