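import Pool.Agent.Lib.MP_ae5b4e_an_NB4C.Defs


/-!
# MP_ae5b4e_an, NB_4 part C: a polynomial of minimal degree
-/

noncomputable section

namespace Pool.Agent.MP_ae5b4e_an_NB4C

open Complex Set Filter Topology Metric
open Pool.Agent.MP_ae5b4e_an_NB2 (Sys)
open Pool.Agent.MP_ae5b4e_an_NB4 (wdg uu uu')

open Polynomial

/-- Choose `(R, T')` with `T' ⊆ T` uncountable, `R ≠ 0` vanishing at `(F ζ, x ζ)`, `ζ ∈ T'`, and
`R.natDegree` minimal.  If `derivative R = 0` then `R = C r` (characteristic 0), `r ≠ 0`,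
`r (F ζ) = 0` on `T'`: `F ζ` is in the finite set of roots, so `T'` is countable by `hF`.
Otherwise `derivative R` has smaller degree, so `{ζ ∈ T' | derivative R (F ζ, x ζ) = 0}` is
countable by minimality; remove it from `T'`. -/
theorem exists_min {T : Set ℂ} (hT : ¬ T.Countable) {F x : ℂ → ℂ}
    (hF : ∀ c : ℂ, {ζ ∈ T | F ζ = c}.Countable) {P : ℂ[X][X]} (hP : P ≠ 0)
    (h0 : ∀ ζ ∈ T, P.evalEval (F ζ) (x ζ) = 0) :
    ∃ R : ℂ[X][X], R ≠ 0 ∧ ∃ T' ⊆ T, ¬ T'.Countable ∧ ∀ ζ ∈ T', R.evalEval (F ζ) (x ζ) = 0 ∧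
      (derivative R).evalEval (F ζ) (x ζ) ≠ 0 := by
  classical
  have hex : ∃ n : ℕ, ∃ (R : ℂ[X][X]) (T' : Set ℂ), R.natDegree = n ∧ R ≠ 0 ∧ T' ⊆ T ∧
      ¬ T'.Countable ∧ ∀ ζ ∈ T', R.evalEval (F ζ) (x ζ) = 0 :=
    ⟨P.natDegree, P, T, rfl, hP, Subset.rfl, hT, h0⟩
  obtain ⟨R, T', hn, hR, hT'T, hT', hR0⟩ := Nat.find_spec hex
  have hmin := fun m (hm : m < Nat.find hex) => Nat.find_min hex hm
  rw [← hn] at hmin
  have hdeg : R.natDegree ≠ 0 := by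
    intro hd
    obtain ⟨r, hr⟩ := natDegree_eq_zero.1 hd
    have hr0 : r ≠ 0 := by
      rintro rfl
      exact hR (by rw [← hr, C_0])
    refine hT' (Countable.mono ?_ (Set.Countable.biUnion
      (r.roots.toFinset.finite_toSet.countable) fun c _ => hF c))
    intro ζ hζ
    have h1 := hR0 ζ hζ
    rw [← hr, evalEval_C] at h1
    refine mem_iUnion₂.2 ⟨F ζ, ?_, hT'T hζ, rfl⟩
    rw [Finset.mem_coe, Multiset.mem_toFinset, mem_roots hr0]
    exact h1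
  have hD : derivative R ≠ 0 := fun h => hdeg (derivative_eq_zero.1 h)
  have hlt : (derivative R).natDegree < R.natDegree := natDegree_derivative_lt hdeg
  have hc : {ζ ∈ T' | (derivative R).evalEval (F ζ) (x ζ) = 0}.Countable := by
    by_contra hc
    exact hmin _ hlt ⟨derivative R, _, rfl, hD, (sep_subset _ _).trans hT'T, hc,
      fun ζ hζ => hζ.2⟩
  refine ⟨R, hR, T' \ {ζ ∈ T' | (derivative R).evalEval (F ζ) (x ζ) = 0},
    sdiff_subset.trans hT'T, ?_, fun ζ hζ => ⟨hR0 ζ hζ.1, fun h => hζ.2 ⟨hζ.1, h⟩⟩⟩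
  intro h
  refine hT' ((h.union hc).mono ?_)
  intro ζ hζ
  by_cases h1 : ζ ∈ {ζ ∈ T' | (derivative R).evalEval (F ζ) (x ζ) = 0}
  · exact Or.inr h1
  · exact Or.inl ⟨hζ, h1⟩

end Pool.Agent.MP_ae5b4e_an_NB4C
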