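import Pool.Agent.Lib.MP_ae5b4e_an_NB4C.Defs
import Pool.Agent.Lib.MP_ae5b4e_an_NB4C.Fix
import Pool.Agent.Lib.MP_ae5b4e_an_NB4C.ChP
import Pool.Agent.Lib.MP_ae5b4e_an_NB4C.ChE
import Pool.Agent.Lib.MP_ae5b4e_an_NB4C.MinP
import Pool.Agent.Lib.MP_ae5b4e_an_NB4C.Brn

/-!
# MP_ae5b4e_an, NB_4 part C: from the states to branches on a disc
-/

noncomputable section

namespace Pool.Agent.MP_ae5b4e_an_NB4C

open Complex Set Filter Topology Metric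
open Pool.Agent.MP_ae5b4e_an_NB2 (Sys)
open Pool.Agent.MP_ae5b4e_an_NB4 (wdg uu uu')

/-- One side: the polynomial.  `m < q`: `P = wd (cP ε m) (1, C (C (ε m)))`; `m = q`:
`P = wd (cP ε 0) (cP ε q)` and `x q = x 0`. -/
theorem exists_pol {q : ℕ} (hq : 2 ≤ q) (ε : ℕ → ℂ) (m : ℕ) :
    ∃ P : Polynomial (Polynomial ℂ), P ≠ 0 ∧ ∀ x : ℕ → ℂ, Hit q ε x m → (m = q → x q = x 0) →
      P.evalEval (x 0) (x 1) = 0 := by
  by_cases hm : m < q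
  · refine ⟨_, cP_wedge_ne ε m, fun x hx _ => ?_⟩
    obtain ⟨μ, _, hμ⟩ := (chn_hit hx).2 m le_rfl
    have h1 := cP_eval ε (x 0) (x 1) m
    rw [hμ, Prod.mk.injEq] at h1
    simp only [wd, Polynomial.evalEval_sub, Polynomial.evalEval_mul, h1.1, h1.2,
      Polynomial.evalEval_C, Polynomial.eval_C, hx.hit hm, Polynomial.evalEval_one]
    ring
  · refine ⟨_, cP_close_ne ε (q := q) (by omega), fun x hx hc => ?_⟩
    have hmq : m = q := le_antisymm hx.le (not_lt.1 hm)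
    subst hmq
    obtain ⟨μ, _, hμ⟩ := (chn_hit hx).2 m le_rfl
    obtain ⟨ν, _, hν⟩ := (chn_hit hx).2 0 (Nat.zero_le _)
    have h1 := cP_eval ε (x 0) (x 1) m
    have h2 := cP_eval ε (x 0) (x 1) 0
    rw [hμ, Prod.mk.injEq] at h1
    rw [hν, Prod.mk.injEq] at h2
    simp only [wd, Polynomial.evalEval_sub, Polynomial.evalEval_mul, h1.1, h1.2, h2.1, h2.2,
      hc rfl]
    ring

/-- `exists_fixed`, `exists_pol` and `exists_min` for the right side, then for the left side on the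
smaller set, then `exists_branches`. The level sets of `F = v.y2 / v.y1` are countable by
`level_countable`. -/
theorem exists_pre {v : Sys} {q : ℕ} {ε : ℤ → ℂ} (H : LimS v q ε) :
    ∃ (m m' : ℕ) (b : ℂ) (ρ : ℝ) (yp ym : ℂ → ℂ) (T : Set ℂ) (x : ℂ → ℤ → ℂ)
      (Rp Rm : Polynomial (Polynomial ℂ)), (m = q ↔ m' = q) ∧ 0 < ρ ∧ ball b ρ ⊆ HP ∧
      (∀ ζ ∈ ball b ρ, v.y1 ζ ≠ 0) ∧ AnalyticOnNhd ℂ yp (ball b ρ) ∧
      AnalyticOnNhd ℂ ym (ball b ρ) ∧ Rp ≠ 0 ∧ Rm ≠ 0 ∧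
      (∀ ζ ∈ ball b ρ, Rp.evalEval (v.y2 ζ / v.y1 ζ) (yp ζ) = 0) ∧
      (∀ ζ ∈ ball b ρ, Rm.evalEval (v.y2 ζ / v.y1 ζ) (ym ζ) = 0) ∧ T ⊆ ball b ρ ∧
      ¬ T.Countable ∧ ∀ ζ ∈ T, Sc v q ε ζ (x ζ) ∧ Hit q (fun n => ε n) (fun n => x ζ n) m ∧
        Hit q (fun n => ε (-n)) (fun n => x ζ (-n)) m' ∧ yp ζ = x ζ 1 ∧ ym ζ = x ζ (-1) := by
  obtain ⟨m, m', T, x, hmm, hTs, hTc, hT⟩ := exists_fixed H
  have hHP : closedBall (0 : ℂ) (1 / 8) ⊆ HP := by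
    intro z hz
    rw [mem_closedBall_zero_iff] at hz
    show z.im < 1 / 2
    have := (le_abs_self _).trans (Complex.abs_im_le_norm z)
    linarith
  have hlev : ∀ T0 ⊆ T, ∀ c : ℂ, {ζ ∈ T0 | v.y2 ζ / v.y1 ζ = c}.Countable := by
    intro T0 hT0 c
    have hp : ((1, c) : ℂ × ℂ) ≠ 0 := by
      intro h
      exact one_ne_zero (congrArg Prod.fst h)
    refine (level_countable H.on hp).mono ?_
    rintro ζ ⟨h1, h2⟩
    refine ⟨hHP (hTs (hT0 h1)), ?_⟩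
    have hy := (hT ζ (hT0 h1)).1.y1
    rw [div_eq_iff hy] at h2
    simp only [wdg, uu, h2]
    ring
  obtain ⟨Pp, hPp, hPp'⟩ := exists_pol H.q_two (fun n : ℕ => ε n) m
  obtain ⟨Pm, hPm, hPm'⟩ := exists_pol H.q_two (fun n : ℕ => ε (-n)) m'
  have hp0 : ∀ ζ ∈ T, Pp.evalEval (v.y2 ζ / v.y1 ζ) (x ζ 1) = 0 := by
    intro ζ hζ
    obtain ⟨hs, h1, h2⟩ := hT ζ hζ
    have h3 := hPp' _ h1 (fun _ => by
      have := hs.per 0
      simpa using this)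
    simp only [Nat.cast_zero, Nat.cast_one] at h3
    rwa [← hs.own]
  have hm0 : ∀ ζ ∈ T, Pm.evalEval (v.y2 ζ / v.y1 ζ) (x ζ (-1)) = 0 := by
    intro ζ hζ
    obtain ⟨hs, h1, h2⟩ := hT ζ hζ
    have h3 := hPm' _ h2 (fun _ => by
      have := hs.per (-q)
      simpa using this.symm)
    simp only [Nat.cast_zero, Nat.cast_one, neg_zero] at h3
    rwa [← hs.own]
  obtain ⟨Rp, hRp, T1, hT1, hT1c, hT1'⟩ := exists_min hTc (F := fun ζ => v.y2 ζ / v.y1 ζ)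
    (x := fun ζ => x ζ 1) (hlev T subset_rfl) hPp hp0
  obtain ⟨Rm, hRm, T2, hT2, hT2c, hT2'⟩ := exists_min hT1c (F := fun ζ => v.y2 ζ / v.y1 ζ)
    (x := fun ζ => x ζ (-1)) (hlev T1 hT1) hPm (fun ζ hζ => hm0 ζ (hT1 hζ))
  obtain ⟨b, ρ, hρ, hb, hy, yp, ym, hyp, hym, hRp', hRm', hc⟩ := exists_branches H.on
    (T := T2) ((hT2.trans (hT1.trans hTs)).trans hHP) hT2c
    (fun ζ hζ => (hT ζ (hT1 (hT2 hζ))).1.y1) (xp := fun ζ => x ζ 1) (xm := fun ζ => x ζ (-1))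
    (fun ζ hζ => hT1' ζ (hT2 hζ)) hT2'
  refine ⟨m, m', b, ρ, yp, ym, _, x, Rp, Rm, hmm, hρ, hb, hy, hyp, hym, hRp, hRm, hRp', hRm', ?_,
    hc, ?_⟩
  · rintro ζ ⟨h1, _⟩
    exact h1.2
  · rintro ζ ⟨h1, h2, h3⟩
    obtain ⟨a1, a2, a3⟩ := hT ζ (hT1 (hT2 h1.1))
    exact ⟨a1, a2, a3, h2, h3⟩

end Pool.Agent.MP_ae5b4e_an_NB4C
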