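import Pool.Agent.Lib.MP_ae5b4e_an_NB4C.Defs
import Pool.Agent.Lib.MP_ae5b4e_an_NB4C.Lvl

/-!
# MP_ae5b4e_an, NB_4 part C: smaller discs
-/

noncomputable section

namespace Pool.Agent.MP_ae5b4e_an_NB4C

open Complex Set Filter Topology Metric
open Pool.Agent.MP_ae5b4e_an_NB2 (Sys)
open Pool.Agent.MP_ae5b4e_an_NB4 (wdg uu uu')

/-- Finitely many analytic functions on a disc, none identically zero: there is a smaller disc on
which none of them vanishes (the zero sets are countable, the disc is not; continuity). -/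
theorem exists_sub {b : ℂ} {ρ : ℝ} (hρ : 0 < ρ) {ι : Type*} (s : Finset ι) {g : ι → ℂ → ℂ}
    (hg : ∀ i ∈ s, AnalyticOnNhd ℂ (g i) (ball b ρ)) (hne : ∀ i ∈ s, ∃ z ∈ ball b ρ, g i z ≠ 0) :
    ∃ (b' : ℂ) (ρ' : ℝ), 0 < ρ' ∧ ball b' ρ' ⊆ ball b ρ ∧ ∀ z ∈ ball b' ρ', ∀ i ∈ s, g i z ≠ 0 := by
  have h1 : (⋃ i ∈ s, {z ∈ ball b ρ | g i z = 0}).Countable := by
    refine s.countable_toSet.biUnion fun i hi => ?_
    obtain ⟨z, hz, hz0⟩ := hne i hi
    exact zeros_countable isOpen_ball (convex_ball b ρ).isPreconnected (hg i hi) hz hz0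
  obtain ⟨b', hb', hb''⟩ := (h1.dense_compl ℝ).inter_open_nonempty _ isOpen_ball
    (nonempty_ball.2 hρ)
  have h2 : ∀ i ∈ s, g i b' ≠ 0 := by
    intro i hi h0
    exact hb'' (mem_iUnion₂.2 ⟨i, hi, hb', h0⟩)
  have h3 : ∀ᶠ z in 𝓝 b', z ∈ ball b ρ ∧ ∀ i ∈ s, g i z ≠ 0 := by
    refine Filter.Eventually.and (isOpen_ball.mem_nhds hb')
      ((Filter.eventually_all_finset s).2 fun i hi => ?_)
    exact (hg i hi b' hb').continuousAt.eventually_ne (h2 i hi)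
  obtain ⟨ρ', hρ', h4⟩ := Metric.eventually_nhds_iff_ball.1 h3
  exact ⟨b', ρ', hρ', fun z hz => (h4 z hz).1, fun z hz => (h4 z hz).2⟩

theorem chn_an {b : ℂ} {ρ : ℝ} (ε : ℕ → ℂ) {F y : ℂ → ℂ} (hF : AnalyticOnNhd ℂ F (ball b ρ))
    (hy : AnalyticOnNhd ℂ y (ball b ρ)) (n : ℕ) :
    AnalyticOnNhd ℂ (fun ζ => (chn ε (F ζ) (y ζ) n).1) (ball b ρ) ∧
      AnalyticOnNhd ℂ (fun ζ => (chn ε (F ζ) (y ζ) n).2) (ball b ρ) := by
  have key : ∀ n, (AnalyticOnNhd ℂ (fun ζ => (chn ε (F ζ) (y ζ) n).1) (ball b ρ) ∧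
      AnalyticOnNhd ℂ (fun ζ => (chn ε (F ζ) (y ζ) n).2) (ball b ρ)) ∧
      (AnalyticOnNhd ℂ (fun ζ => (chn ε (F ζ) (y ζ) (n + 1)).1) (ball b ρ) ∧
      AnalyticOnNhd ℂ (fun ζ => (chn ε (F ζ) (y ζ) (n + 1)).2) (ball b ρ)) := by
    intro n
    induction n with
    | zero =>
      refine ⟨⟨?_, ?_⟩, ?_, ?_⟩
      · simpa only [chn] using (analyticOnNhd_const : AnalyticOnNhd ℂ (fun _ => (1 : ℂ)) _)
      · simpa only [chn] using hF
      · simpa only [chn] using (analyticOnNhd_const : AnalyticOnNhd ℂ (fun _ => (1 : ℂ)) _)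
      · simpa only [chn] using hy
    | succ n ih =>
      obtain ⟨⟨a1, a2⟩, b1, b2⟩ := ih
      have w1 : AnalyticOnNhd ℂ (fun ζ => wd (chn ε (F ζ) (y ζ) n) (1, ε (n + 1)))
          (ball b ρ) := by
        simp only [wd]
        exact (a1.mul analyticOnNhd_const).sub (a2.mul analyticOnNhd_const)
      have w2 : AnalyticOnNhd ℂ
          (fun ζ => wd (chn ε (F ζ) (y ζ) n) (chn ε (F ζ) (y ζ) (n + 1))) (ball b ρ) := by
        simp only [wd]
        exact (a1.mul b2).sub (a2.mul b1)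
      refine ⟨⟨b1, b2⟩, ?_, ?_⟩
      · simp only [chn]
        exact (w1.mul b1).add w2
      · simp only [chn]
        exact (w1.mul b2).add (w2.mul analyticOnNhd_const)
  exact (key n).1

end Pool.Agent.MP_ae5b4e_an_NB4C
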