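import Pool.Agent.Lib.MP_ae5b4e_an_NB4C.Defs
import Pool.Agent.Lib.MP_ae5b4e_an_NB4C.Pre
import Pool.Agent.Lib.MP_ae5b4e_an_NB4C.SubD

/-!
# MP_ae5b4e_an, NB_4 part C: the two sided analytic chain
-/

noncomputable section

namespace Pool.Agent.MP_ae5b4e_an_NB4C

open Complex Set Filter Topology Metric
open Pool.Agent.MP_ae5b4e_an_NB2 (Sys)
open Pool.Agent.MP_ae5b4e_an_NB4 (wdg uu uu')

/-- One side on a disc where the relevant functions do not vanish: the quotients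
`z n ζ = (chn n).2 / (chn n).1` form a `Side` (`chn_node`, `chn_an`). -/
theorem side_of {v : Sys} {q : ℕ} {ε : ℕ → ℂ} {b : ℂ} {ρ : ℝ} {m : ℕ} {y : ℂ → ℂ}
    (hF : AnalyticOnNhd ℂ (fun ζ => v.y2 ζ / v.y1 ζ) (ball b ρ))
    (hy : AnalyticOnNhd ℂ y (ball b ρ)) (hm : 1 ≤ m) (hmq : m ≤ q)
    (h0 : ∀ ζ ∈ ball b ρ, y ζ ≠ v.y2 ζ / v.y1 ζ)
    (h1 : ∀ ζ ∈ ball b ρ, ∀ n ≤ m, (chn ε (v.y2 ζ / v.y1 ζ) (y ζ) n).1 ≠ 0)
    (h2 : ∀ ζ ∈ ball b ρ, ∀ n, 1 ≤ n → n < m →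
      wd (chn ε (v.y2 ζ / v.y1 ζ) (y ζ) n) (1, ε n) ≠ 0)
    (h3 : m < q → ∀ ζ ∈ ball b ρ, wd (chn ε (v.y2 ζ / v.y1 ζ) (y ζ) m) (1, ε m) = 0)
    (h4 : ∃ R : Polynomial (Polynomial ℂ), R ≠ 0 ∧
      ∀ ζ ∈ ball b ρ, R.evalEval (v.y2 ζ / v.y1 ζ) (y ζ) = 0) :
    Side v q ε b ρ m (fun n ζ => (chn ε (v.y2 ζ / v.y1 ζ) (y ζ) n).2 /
      (chn ε (v.y2 ζ / v.y1 ζ) (y ζ) n).1) := by
  have hN := fun ζ (hζ : ζ ∈ ball b ρ) => chn_node (h0 ζ hζ) (h1 ζ hζ) (h2 ζ hζ)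
  refine ⟨hm, hmq, ?_, ?_, ?_, ?_, ?_, ?_, ?_⟩
  · intro n hn
    have hA := chn_an ε hF hy n
    exact hA.2.div hA.1 (fun ζ hζ => h1 ζ hζ n hn)
  · intro ζ _
    simp [chn]
  · intro n hn ζ hζ
    exact (hN ζ hζ).2.1 n hn
  · intro n hn1 hn ζ hζ
    exact (hN ζ hζ).2.2 n hn1 hn
  · intro n hn1 hn ζ hζ
    exact (hN ζ hζ).1 n hn1 hn
  · intro hlt ζ hζ
    have ha := h3 hlt ζ hζ
    have hb := h1 ζ hζ m le_rfl
    simp only [wd, mul_one] at ha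
    rw [div_eq_iff hb]
    linear_combination -ha
  · obtain ⟨R, hR, hR0⟩ := h4
    refine ⟨R, hR, fun ζ hζ => ?_⟩
    have := hR0 ζ hζ
    simpa [chn] using this

/-- Facts on one side at a point. -/
private theorem twos_pt {q m : ℕ} {ε x : ℕ → ℂ} {F y : ℂ} (h : Hit q ε x m) (hF : x 0 = F)
    (hy : x 1 = y) : y ≠ F ∧ (∀ n ≤ m, (chn ε F y n).1 ≠ 0) ∧
      (∀ n, 1 ≤ n → n < m → wd (chn ε F y n) (1, ε n) ≠ 0) ∧
      (∀ n ≤ m, (chn ε F y n).2 = x n * (chn ε F y n).1) ∧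
      (m < q → wd (chn ε F y m) (1, ε m) = 0) := by
  subst hF hy
  obtain ⟨-, hc⟩ := chn_hit h
  refine ⟨h.sep, ?_, ?_, ?_, ?_⟩
  · intro n hn
    obtain ⟨μ, hμ, he⟩ := hc n hn
    rw [he]
    exact hμ
  · intro n hn1 hn
    obtain ⟨μ, hμ, he⟩ := hc n hn.le
    rw [he]
    simp only [wd, mul_one]
    have hne := h.ne n hn1 hn
    intro h0
    have h1 : μ * (ε n - x n) = 0 := by linear_combination h0
    rcases mul_eq_zero.1 h1 with h2 | h2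
    · exact hμ h2
    · exact hne (sub_eq_zero.1 h2).symm
  · intro n hn
    obtain ⟨μ, hμ, he⟩ := hc n hn
    rw [he]
    exact mul_comm _ _
  · intro hlt
    obtain ⟨μ, hμ, he⟩ := hc m le_rfl
    rw [he]
    simp only [wd, mul_one]
    rw [h.hit hlt]
    ring

/-- The product of the functions which should not vanish. -/
def twos_G (ε : ℕ → ℂ) (m : ℕ) (F y : ℂ → ℂ) (ζ : ℂ) : ℂ :=
  (y ζ - F ζ) * ((∏ n ∈ Finset.range (m + 1), (chn ε (F ζ) (y ζ) n).1) *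
    ∏ n ∈ Finset.Ico 1 m, wd (chn ε (F ζ) (y ζ) n) (1, ε n))

private theorem twos_wd_an {b : ℂ} {ρ : ℝ} (ε : ℕ → ℂ) {F y : ℂ → ℂ}
    (hF : AnalyticOnNhd ℂ F (ball b ρ)) (hy : AnalyticOnNhd ℂ y (ball b ρ)) (n : ℕ) (c : ℂ) :
    AnalyticOnNhd ℂ (fun ζ => wd (chn ε (F ζ) (y ζ) n) (1, c)) (ball b ρ) := by
  have hA := chn_an ε hF hy n
  have h := (hA.1.mul (analyticOnNhd_const (v := c))).sub hA.2
  refine h.congr isOpen_ball ?_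
  intro ζ _
  simp [wd]

private theorem twos_G_an {b : ℂ} {ρ : ℝ} (ε : ℕ → ℂ) (m : ℕ) {F y : ℂ → ℂ}
    (hF : AnalyticOnNhd ℂ F (ball b ρ)) (hy : AnalyticOnNhd ℂ y (ball b ρ)) :
    AnalyticOnNhd ℂ (twos_G ε m F y) (ball b ρ) := by
  have h1 : AnalyticOnNhd ℂ (fun ζ => ∏ n ∈ Finset.range (m + 1), (chn ε (F ζ) (y ζ) n).1)
      (ball b ρ) :=
    Finset.analyticOnNhd_fun_prod _ (fun n _ => (chn_an ε hF hy n).1)
  have h2 : AnalyticOnNhd ℂ (fun ζ => ∏ n ∈ Finset.Ico 1 m, wd (chn ε (F ζ) (y ζ) n) (1, ε n))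
      (ball b ρ) :=
    Finset.analyticOnNhd_fun_prod _ (fun n _ => twos_wd_an ε hF hy n (ε n))
  exact (hy.sub hF).mul (h1.mul h2)

private theorem twos_G_ne {ε : ℕ → ℂ} {m : ℕ} {F y : ℂ → ℂ} {ζ : ℂ} :
    twos_G ε m F y ζ ≠ 0 ↔ y ζ ≠ F ζ ∧ (∀ n ≤ m, (chn ε (F ζ) (y ζ) n).1 ≠ 0) ∧
      (∀ n, 1 ≤ n → n < m → wd (chn ε (F ζ) (y ζ) n) (1, ε n) ≠ 0) := by
  unfold twos_G
  rw [mul_ne_zero_iff, mul_ne_zero_iff, sub_ne_zero, Finset.prod_ne_zero_iff,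
    Finset.prod_ne_zero_iff]
  simp only [Finset.mem_range, Finset.mem_Ico, Nat.lt_succ_iff, and_imp]

/-- On `T` the functions `(chn n).1` (`n ≤ m`), `wd (chn n) (1, ε n)` (`1 ≤ n < m`), `yp - F`, and
the same for the left side, are not zero (`chn_hit`); `exists_sub` gives a smaller disc where they
do not vanish.  The identities (`wd (chn m) (1, ε m) = 0` if `m < q`; `wd (chn 0) (chn q) = 0` and
`(chn (q-1)).2 = ym (chn (q-1)).1` if `m = q`, using `x q = x 0`, `x (q-1) = x (-1)`; the relation at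
the node zero) hold on `T`, hence on the disc (`zero_of_uncountable`). -/
theorem exists_two {v : Sys} {q : ℕ} {ε : ℤ → ℂ} (H : LimS v q ε) :
    ∃ (b : ℂ) (ρ : ℝ) (m m' : ℕ) (z z' : ℕ → ℂ → ℂ), Two v q ε b ρ m m' z z' := by
  obtain ⟨m, m', b₀, ρ₀, yp, ym, T, x, Rp, Rm, hiff, hρ₀, hsub, hy1, hyp, hym, hRp, hRm, eRp, eRm,
    hTs, hTc, hT⟩ := exists_pre H
  -- analyticity of the solutions
  have ay1 : AnalyticOnNhd ℂ v.y1 (ball b₀ ρ₀) :=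
    DifferentiableOn.analyticOnNhd
      (fun ζ hζ => (H.on.d1 ζ (hsub hζ)).differentiableAt.differentiableWithinAt) isOpen_ball
  have ay1' : AnalyticOnNhd ℂ v.y1' (ball b₀ ρ₀) :=
    DifferentiableOn.analyticOnNhd
      (fun ζ hζ => (H.on.d1' ζ (hsub hζ)).differentiableAt.differentiableWithinAt) isOpen_ball
  have ay2 : AnalyticOnNhd ℂ v.y2 (ball b₀ ρ₀) :=
    DifferentiableOn.analyticOnNhd
      (fun ζ hζ => (H.on.d2 ζ (hsub hζ)).differentiableAt.differentiableWithinAt) isOpen_ball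
  have hF : AnalyticOnNhd ℂ (fun ζ => v.y2 ζ / v.y1 ζ) (ball b₀ ρ₀) := ay2.div ay1 hy1
  have hpc : IsPreconnected (ball b₀ ρ₀) := (convex_ball b₀ ρ₀).isPreconnected
  have hz : ∀ {f : ℂ → ℂ}, AnalyticOnNhd ℂ f (ball b₀ ρ₀) → (∀ ζ ∈ T, f ζ = 0) →
      ∀ ζ ∈ ball b₀ ρ₀, f ζ = 0 :=
    fun hf h0 => zero_of_uncountable isOpen_ball hpc hf hTs hTc h0
  -- the facts on `T`
  have hR : ∀ ζ ∈ T, _ := fun ζ hζ =>
    twos_pt (F := v.y2 ζ / v.y1 ζ) (y := yp ζ) (hT ζ hζ).2.1 (by simpa using (hT ζ hζ).1.own)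
      (by simpa using (hT ζ hζ).2.2.2.1.symm)
  have hL : ∀ ζ ∈ T, _ := fun ζ hζ =>
    twos_pt (F := v.y2 ζ / v.y1 ζ) (y := ym ζ) (hT ζ hζ).2.2.1 (by simpa using (hT ζ hζ).1.own)
      (by simpa using (hT ζ hζ).2.2.2.2.symm)
  have hTne : T.Nonempty := by
    rw [Set.nonempty_iff_ne_empty]
    rintro rfl
    exact hTc Set.countable_empty
  obtain ⟨ζ₀, hζ₀⟩ := hTne
  have hHR := (hT ζ₀ hζ₀).2.1
  have hHL := (hT ζ₀ hζ₀).2.2.1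
  -- the identities
  have iR : m < q → ∀ ζ ∈ ball b₀ ρ₀,
      wd (chn (fun n : ℕ => ε n) (v.y2 ζ / v.y1 ζ) (yp ζ) m) (1, ε m) = 0 := by
    intro hlt
    exact hz (twos_wd_an _ hF hyp m (ε m)) (fun ζ hζ => (hR ζ hζ).2.2.2.2 hlt)
  have iL : m' < q → ∀ ζ ∈ ball b₀ ρ₀,
      wd (chn (fun n : ℕ => ε (-n)) (v.y2 ζ / v.y1 ζ) (ym ζ) m') (1, ε (-m')) = 0 := by
    intro hlt
    exact hz (twos_wd_an _ hF hym m' (ε (-m'))) (fun ζ hζ => (hL ζ hζ).2.2.2.2 hlt)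
  have i0 : ∀ ζ ∈ ball b₀ ρ₀, (yp ζ - v.y2 ζ / v.y1 ζ) + (ym ζ - v.y2 ζ / v.y1 ζ) =
      2 * v.y1 ζ * v.y1' ζ * ((yp ζ - v.y2 ζ / v.y1 ζ) * (ym ζ - v.y2 ζ / v.y1 ζ)) := by
    have hpF := hyp.sub hF
    have hmF := hym.sub hF
    have hA := (hpF.add hmF).sub (((analyticOnNhd_const (v := (2 : ℂ))).mul ay1).mul ay1' |>.mul
      (hpF.mul hmF))
    intro ζ hζ
    have := hz hA (fun ζ hζ => by
      have h1 := (hT ζ hζ).1.zero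
      have h2 := (hT ζ hζ).1.own
      rw [h2, ← (hT ζ hζ).2.2.2.1, ← (hT ζ hζ).2.2.2.2] at h1
      simp only [Pi.sub_apply, Pi.add_apply]
      linear_combination h1) ζ hζ
    simp only [Pi.sub_apply, Pi.add_apply] at this
    linear_combination this
  have iC : m = q → ∀ ζ ∈ ball b₀ ρ₀,
      (chn (fun n : ℕ => ε n) (v.y2 ζ / v.y1 ζ) (yp ζ) q).2 =
        v.y2 ζ / v.y1 ζ * (chn (fun n : ℕ => ε n) (v.y2 ζ / v.y1 ζ) (yp ζ) q).1 := by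
    intro hmq ζ hζ
    have hA := chn_an (fun n : ℕ => ε n) hF hyp q
    have := hz (hA.2.sub (hF.mul hA.1)) (fun ζ hζ => by
      have h1 := (hR ζ hζ).2.2.2.1 q hmq.ge
      have h2 : x ζ (q : ℤ) = x ζ 0 := by
        have := (hT ζ hζ).1.per 0
        rwa [zero_add] at this
      simp only [Pi.sub_apply]
      rw [h1, h2, (hT ζ hζ).1.own]
      ring) ζ hζ
    simp only [Pi.sub_apply] at this
    linear_combination this
  have iC' : m = q → ∀ ζ ∈ ball b₀ ρ₀,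
      (chn (fun n : ℕ => ε n) (v.y2 ζ / v.y1 ζ) (yp ζ) (q - 1)).2 =
        ym ζ * (chn (fun n : ℕ => ε n) (v.y2 ζ / v.y1 ζ) (yp ζ) (q - 1)).1 := by
    intro hmq ζ hζ
    have hA := chn_an (fun n : ℕ => ε n) hF hyp (q - 1)
    have hq := H.q_two
    have := hz (hA.2.sub (hym.mul hA.1)) (fun ζ hζ => by
      have h1 := (hR ζ hζ).2.2.2.1 (q - 1) (by omega)
      have h2 : x ζ ((q - 1 : ℕ) : ℤ) = x ζ (-1) := by
        have := (hT ζ hζ).1.per (-1)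
        rw [← this]
        congr 1
        omega
      simp only [Pi.sub_apply]
      rw [h1, h2, (hT ζ hζ).2.2.2.2]
      ring) ζ hζ
    simp only [Pi.sub_apply] at this
    linear_combination this
  -- the smaller disc
  obtain ⟨b, ρ, hρ, hss, hnv⟩ := exists_sub hρ₀ (Finset.univ : Finset Bool)
    (g := fun i => if i then twos_G (fun n : ℕ => ε n) m (fun ζ => v.y2 ζ / v.y1 ζ) yp
      else twos_G (fun n : ℕ => ε (-n)) m' (fun ζ => v.y2 ζ / v.y1 ζ) ym)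
    (fun i _ => by
      cases i
      · simpa using twos_G_an _ m' hF hym
      · simpa using twos_G_an _ m hF hyp)
    (fun i _ => by
      refine ⟨ζ₀, hTs hζ₀, ?_⟩
      cases i
      · have h := hL ζ₀ hζ₀
        simpa using twos_G_ne.2 ⟨h.1, h.2.1, h.2.2.1⟩
      · have h := hR ζ₀ hζ₀
        simpa using twos_G_ne.2 ⟨h.1, h.2.1, h.2.2.1⟩)
  have nR : ∀ ζ ∈ ball b ρ, twos_G (fun n : ℕ => ε n) m (fun ζ => v.y2 ζ / v.y1 ζ) yp ζ ≠ 0 :=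
    fun ζ hζ => by simpa using hnv ζ hζ true (Finset.mem_univ _)
  have nL : ∀ ζ ∈ ball b ρ, twos_G (fun n : ℕ => ε (-n)) m' (fun ζ => v.y2 ζ / v.y1 ζ) ym ζ ≠ 0 :=
    fun ζ hζ => by simpa using hnv ζ hζ false (Finset.mem_univ _)
  refine ⟨b, ρ, m, m', _, _, hρ, hss.trans hsub, fun ζ hζ => hy1 ζ (hss hζ),
    side_of (hF.mono hss) (hyp.mono hss) hHR.one_le hHR.le
      (fun ζ hζ => (twos_G_ne.1 (nR ζ hζ)).1) (fun ζ hζ => (twos_G_ne.1 (nR ζ hζ)).2.1)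
      (fun ζ hζ => (twos_G_ne.1 (nR ζ hζ)).2.2) (fun hlt ζ hζ => iR hlt ζ (hss hζ))
      ⟨Rp, hRp, fun ζ hζ => eRp ζ (hss hζ)⟩,
    side_of (hF.mono hss) (hym.mono hss) hHL.one_le hHL.le
      (fun ζ hζ => (twos_G_ne.1 (nL ζ hζ)).1) (fun ζ hζ => (twos_G_ne.1 (nL ζ hζ)).2.1)
      (fun ζ hζ => (twos_G_ne.1 (nL ζ hζ)).2.2) (fun hlt ζ hζ => iL hlt ζ (hss hζ))
      ⟨Rm, hRm, fun ζ hζ => eRm ζ (hss hζ)⟩, ?_, hiff, ?_⟩
  · intro ζ hζ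
    have := i0 ζ (hss hζ)
    simpa [chn] using this
  · intro hmq ζ hζ
    have hn := (twos_G_ne.1 (nR ζ hζ)).2.1
    have hq := H.q_two
    constructor
    · rw [div_eq_iff (hn q hmq.ge), iC hmq ζ (hss hζ)]
      simp [chn]
    · rw [div_eq_iff (hn (q - 1) (by omega)), iC' hmq ζ (hss hζ)]
      simp [chn]

end Pool.Agent.MP_ae5b4e_an_NB4C
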