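import Pool.Agent.Lib.MP_ae5b4e_an_NB4C.Defs
import Pool.Agent.Lib.MP_ae5b4e_an_NB4C.LimA
import Pool.Agent.Lib.MP_ae5b4e_an_NB4C.TwoS
import Pool.Agent.Lib.MP_ae5b4e_an_NB4C.AlgB
import Pool.Agent.Lib.MP_ae5b4e_an_NB4C.Ode
import Pool.Agent.Lib.MP_ae5b4e_an_NB4C.Near
import Pool.Agent.Lib.MP_ae5b4e_an_NB4C.OneV
import Pool.Agent.Lib.MP_ae5b4e_an_NB4C.BdU

/-!
# MP_ae5b4e_an, NB_4 part C: no limit configuration
-/

noncomputable section

namespace Pool.Agent.MP_ae5b4e_an_NB4C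

open Complex Set Filter Topology Metric
open Pool.Agent.MP_ae5b4e_an_NB2 (Sys)
open Pool.Agent.MP_ae5b4e_an_NB4 (wdg uu uu')

open Polynomial

theorem hasDeriv_q {v : Sys} (on : v.On HP) {t : ℂ} (ht : t ∈ HP) (h1 : v.y1 t ≠ 0) :
    HasDerivAt (fun s => v.y2 s / v.y1 s) (1 / v.y1 t ^ 2) t := by
  have h := (on.d2 t ht).div (on.d1 t ht) h1
  have hw := on.wr t ht
  rw [show v.y2' t * v.y1 t - v.y2 t * v.y1' t = 1 by linear_combination hw] at h
  exact h

theorem hasDeriv_q' {v : Sys} (on : v.On HP) {t : ℂ} (ht : t ∈ HP) (h1 : v.y2 t ≠ 0) :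
    HasDerivAt (fun s => v.y1 s / v.y2 s) (-1 / v.y2 t ^ 2) t := by
  have h := (on.d1 t ht).div (on.d2 t ht) h1
  have hw := on.wr t ht
  rw [show v.y1' t * v.y2 t - v.y1 t * v.y2' t = -1 by linear_combination -hw] at h
  exact h

theorem Sd_sub {δ : ℝ} {t : ℂ} (h : t ∈ Sd δ) : t ∈ HP := h.2

theorem Sd_open (δ : ℝ) : IsOpen (Sd δ) :=
  (isOpen_lt continuous_const Complex.continuous_im).inter
    (isOpen_lt Complex.continuous_im continuous_const)

/-- a point of the strip -/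
theorem Sd_ne {δ : ℝ} (hδ : 0 < δ) : ((1 / 2 - δ / 2 : ℝ) : ℂ) * I ∈ Sd δ := by
  constructor
  · have h : (((1 / 2 - δ / 2 : ℝ) : ℂ) * I).im = 1 / 2 - δ / 2 := by simp
    rw [h]
    linarith
  · have h : (((1 / 2 - δ / 2 : ℝ) : ℂ) * I).im = 1 / 2 - δ / 2 := by simp
    rw [h]
    linarith

theorem no_lim {v : Sys} {q : ℕ} {e : ℤ → ℂ × ℂ} (H : Lim v q e) : False := by
  obtain ⟨v, ε, H⟩ := exists_limS H
  obtain ⟨b, ρ, m, m', z, z', h2⟩ := exists_two H
  have on := H.on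
  obtain ⟨G, hG0, hG⟩ := alg_ode on h2.pos h2.sub h2.y1 (algOn_der on h2)
  have hGne : G ≠ 0 := by
    rintro rfl
    simp at hG0
  have hval := one_value on ((G.coeff 0).roots.toFinset ∪ G.leadingCoeff.roots.toFinset)
    fun x₀ hx₀ => by
      rw [Finset.mem_union, not_or, Multiset.mem_toFinset, Multiset.mem_toFinset,
        mem_roots hG0, mem_roots (leadingCoeff_ne_zero.mpr hGne)] at hx₀
      exact not_near on H.nf hG0 hG hx₀.1 hx₀.2
  rcases hval with ⟨x₁, hx⟩ | hx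
  · obtain ⟨δ, hδ, h1⟩ := hx 1 one_pos
    obtain ⟨δ', hδ', hle, hz⟩ := zero_of_bd (f := fun t => v.y2 t / v.y1 t - x₁) hδ
      (fun t ht => ((hasDeriv_q on (Sd_sub ht) (h1 t ht).1).sub_const x₁
        ).differentiableAt.differentiableWithinAt)
      fun η hη => by
        obtain ⟨δ₂, hδ₂, h3⟩ := hx η hη
        exact ⟨δ₂, hδ₂, fun t ht _ => (h3 t ht).2⟩
    have ht := Sd_ne hδ'
    have hsub : Sd δ' ⊆ Sd δ := fun t ht => ⟨by linarith [ht.1], ht.2⟩
    have hne := (h1 _ (hsub ht)).1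
    have hd := (hasDeriv_q on (Sd_sub ht) hne).sub_const x₁
    have hd0 : HasDerivAt (fun s => v.y2 s / v.y1 s - x₁) 0
        (((1 / 2 - δ' / 2 : ℝ) : ℂ) * I) := by
      refine (hasDerivAt_const _ (0 : ℂ)).congr_of_eventuallyEq ?_
      filter_upwards [(Sd_open δ').mem_nhds ht] with s hs
      exact hz s hs
    have := hd.unique hd0
    exact one_div_ne_zero (pow_ne_zero 2 hne) this
  · obtain ⟨δ, hδ, h1⟩ := hx 1 one_pos
    obtain ⟨δ', hδ', hle, hz⟩ := zero_of_bd (f := fun t => v.y1 t / v.y2 t) hδ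
      (fun t ht => (hasDeriv_q' on (Sd_sub ht) (h1 t ht).1
        ).differentiableAt.differentiableWithinAt)
      fun η hη => by
        obtain ⟨δ₂, hδ₂, h3⟩ := hx η hη
        exact ⟨δ₂, hδ₂, fun t ht _ => (h3 t ht).2⟩
    have ht := Sd_ne hδ'
    have hsub : Sd δ' ⊆ Sd δ := fun t ht => ⟨by linarith [ht.1], ht.2⟩
    have hne := (h1 _ (hsub ht)).1
    have hd := hasDeriv_q' on (Sd_sub ht) hne
    have hd0 : HasDerivAt (fun s => v.y1 s / v.y2 s) 0
        (((1 / 2 - δ' / 2 : ℝ) : ℂ) * I) := by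
      refine (hasDerivAt_const _ (0 : ℂ)).congr_of_eventuallyEq ?_
      filter_upwards [(Sd_open δ').mem_nhds ht] with s hs
      exact hz s hs
    have := hd.unique hd0
    exact div_ne_zero (by norm_num) (pow_ne_zero 2 hne) this

end Pool.Agent.MP_ae5b4e_an_NB4C
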