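import Pool.Agent.Lib.MP_ae5b4e_an_NB4C.LFin
import Pool.Agent.Lib.MP_ae5b4e_an_NB4C.NoLim

/-!
# MP_ae5b4e_an, NB_4 part C: the isolated deep frames of section 3 do not exist

`exists_lim` (part C, section 4) and `no_lim` (part C, sections 5 and 6).
-/

noncomputable section

namespace Pool.Agent.MP_ae5b4e_an_NB4C

open Pool.Agent.MP_ae5b4e_an_NB2 (Sys)
open Pool.Agent.MP_ae5b4e_an_NB4

/-- the isolated deep frames at all levels (formula (R)) contradict the bounded Schwarzian -/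
theorem no_lev {Y : Sys} {h q₁ : ℝ} {q : ℕ} [NeZero q] {π₀ : ℂ} (H : Bdd Y h q₁ q π₀)
    (i : ZMod q) (hL : ∀ k : ℕ, ∃ P V, Lev Y h q π₀ i k P V) : False := by
  obtain ⟨v, e, h⟩ := exists_lim H i hL
  exact no_lim h

end Pool.Agent.MP_ae5b4e_an_NB4C
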