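import Pool.Agent.Lib.MP_ae5b4e_an_NB4.Ifc

/-!
# MP_ae5b4e_an, project NB_4, part C: the limit configuration (interface (4.4))

Text /team-store/POR_NB4_RAT_h34.md, sections 4, 5, 6.  The nodes are numbered relative to the
isolated node, which has the number `0`; the node `n` is the isolated one iff `q ∣ n`.
-/

noncomputable section

namespace Pool.Agent.MP_ae5b4e_an_NB4C

open Complex Set Filter Topology Metric
open Pool.Agent.MP_ae5b4e_an_NB2 (Sys)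
open Pool.Agent.MP_ae5b4e_an_NB4 (wdg uu uu')

/-- the limit half plane -/
def HP : Set ℂ := {z | z.im < 1 / 2}

/-- one limit state: homogeneous positions `X n` and companions `Y n` (limits of the directions of
`u (l_n)` and `u' (l_n)`), for the isolated window coordinate `ζ` -/
structure St4 (v : Sys) (q : ℕ) (e : ℤ → ℂ × ℂ) (ζ : ℂ) (X Y : ℤ → ℂ × ℂ) : Prop where
  ne : ∀ n, X n ≠ 0
  neY : ∀ n, Y n ≠ 0
  per : ∀ n, wdg (X (n + q)) (X n) = 0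
  node : ∀ n, wdg (X (n + 1)) (Y n) * wdg (X n) (X (n - 1)) +
    wdg (X (n - 1)) (Y n) * wdg (X n) (X (n + 1)) = 0
  pole : ∀ n, ¬ (q : ℤ) ∣ n → wdg (X n) (e n) = 0 ∨ wdg (Y n) (e n) = 0
  own : X 0 = uu v ζ
  own' : Y 0 = uu' v ζ
  sep : (∀ n, ¬ (q : ℤ) ∣ n → wdg (uu v ζ) (e n) ≠ 0) → wdg (X 1) (X 0) ≠ 0

/-- `[v]` is not injective on almost tangent discs of the half plane -/
def NFl (v : Sys) : Prop :=
  ∃ ε > 0, ∀ t ∈ HP, ¬ ∀ a ∈ ball t ((1 / 2 - t.im) / (1 + ε)),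
    ∀ b ∈ ball t ((1 / 2 - t.im) / (1 + ε)), v.s a b = 0 → a = b

/-- the limit configuration -/
structure Lim (v : Sys) (q : ℕ) (e : ℤ → ℂ × ℂ) : Prop where
  q_two : 2 ≤ q
  on : v.On HP
  e_ne : ∀ n, e n ≠ 0
  e_per : ∀ n, e (n + q) = e n
  st : ∀ r ∈ Icc (0 : ℝ) (1 / 8), ∃ ζ : ℂ, ‖ζ‖ = r ∧ ∃ X Y, St4 v q e ζ X Y
  nf : NFl v

/-! ### Affine coordinates -/

/-- a unimodular change of the coordinate of `P¹`; `s` is sent to infinity -/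
def act (s : ℂ) (p : ℂ × ℂ) : ℂ × ℂ := (s * p.1 - p.2, p.1)

/-- the same for a system -/
def actS (s : ℂ) (v : Sys) : Sys where
  Q := v.Q
  y1 z := s * v.y1 z - v.y2 z
  y1' z := s * v.y1' z - v.y2' z
  y2 z := v.y1 z
  y2' z := v.y1' z

/-- one limit state in an affine coordinate (all positions and poles finite) -/
structure Sc (v : Sys) (q : ℕ) (ε : ℤ → ℂ) (ζ : ℂ) (x : ℤ → ℂ) : Prop where
  y1 : v.y1 ζ ≠ 0
  own : x 0 = v.y2 ζ / v.y1 ζ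
  per : ∀ n, x (n + q) = x n
  node : ∀ n, ¬ (q : ℤ) ∣ n → x n ≠ ε n →
    (ε n - x (n + 1)) * (x (n - 1) - x n) + (ε n - x (n - 1)) * (x (n + 1) - x n) = 0
  zero : (x 1 - x 0) + (x (-1) - x 0) =
    2 * v.y1 ζ * v.y1' ζ * ((x 1 - x 0) * (x (-1) - x 0))
  sep : x 1 ≠ x 0
  sep' : x (-1) ≠ x 0
  av : ∀ n, ¬ (q : ℤ) ∣ n → x 0 ≠ ε n

/-- the limit configuration in an affine coordinate -/
structure LimS (v : Sys) (q : ℕ) (ε : ℤ → ℂ) : Prop where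
  q_two : 2 ≤ q
  on : v.On HP
  per : ∀ n, ε (n + q) = ε n
  nf : NFl v
  st : ∃ T : Set ℂ, T ⊆ closedBall 0 (1 / 8) ∧ ¬ T.Countable ∧ ∀ ζ ∈ T, ∃ x, Sc v q ε ζ x

/-! ### The chain with constant poles -/

/-- the wedge over a commutative ring -/
def wd {R : Type*} [CommRing R] (a b : R × R) : R := a.1 * b.2 - a.2 * b.1

/-- the chain `X_{n+1} = (X_{n-1} ∧ e_n) X_n + (X_{n-1} ∧ X_n) e_n`, `e_n = (1, ε_n)`, with
`X_0 = (1, x)`, `X_1 = (1, y)` -/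
def chn {R : Type*} [CommRing R] (ε : ℕ → R) (x y : R) : ℕ → R × R
  | 0 => (1, x)
  | 1 => (1, y)
  | n + 2 =>
    (wd (chn ε x y n) (1, ε (n + 1)) * (chn ε x y (n + 1)).1 +
        wd (chn ε x y n) (chn ε x y (n + 1)),
      wd (chn ε x y n) (1, ε (n + 1)) * (chn ε x y (n + 1)).2 +
        wd (chn ε x y n) (chn ε x y (n + 1)) * ε (n + 1))

/-- a one sided chain of positions with first hit `m` -/
structure Hit (q : ℕ) (ε x : ℕ → ℂ) (m : ℕ) : Prop where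
  one_le : 1 ≤ m
  le : m ≤ q
  ne : ∀ n, 1 ≤ n → n < m → x n ≠ ε n
  hit : m < q → x m = ε m
  sep : x 1 ≠ x 0
  node : ∀ n, 1 ≤ n → n < m →
    (ε n - x (n + 1)) * (x (n - 1) - x n) + (ε n - x (n - 1)) * (x (n + 1) - x n) = 0

/-- a one sided analytic chain on the disc `ball b ρ`, `ε` = the poles on this side -/
structure Side (v : Sys) (q : ℕ) (ε : ℕ → ℂ) (b : ℂ) (ρ : ℝ) (m : ℕ) (z : ℕ → ℂ → ℂ) : Prop where
  one_le : 1 ≤ m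
  le : m ≤ q
  an : ∀ n, n ≤ m → AnalyticOnNhd ℂ (z n) (ball b ρ)
  zero : ∀ ζ ∈ ball b ρ, z 0 ζ = v.y2 ζ / v.y1 ζ
  ne : ∀ n, n < m → ∀ ζ ∈ ball b ρ, z (n + 1) ζ ≠ z n ζ
  nee : ∀ n, 1 ≤ n → n < m → ∀ ζ ∈ ball b ρ, z n ζ ≠ ε n
  node : ∀ n, 1 ≤ n → n < m → ∀ ζ ∈ ball b ρ,
    (ε n - z (n + 1) ζ) * (z (n - 1) ζ - z n ζ) +
      (ε n - z (n - 1) ζ) * (z (n + 1) ζ - z n ζ) = 0
  hit : m < q → ∀ ζ ∈ ball b ρ, z m ζ = ε m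
  alg : ∃ R : Polynomial (Polynomial ℂ), R ≠ 0 ∧
    ∀ ζ ∈ ball b ρ, R.evalEval (v.y2 ζ / v.y1 ζ) (z 1 ζ) = 0

/-- a two sided analytic chain on a disc -/
structure Two (v : Sys) (q : ℕ) (ε : ℤ → ℂ) (b : ℂ) (ρ : ℝ) (m m' : ℕ) (z z' : ℕ → ℂ → ℂ) :
    Prop where
  pos : 0 < ρ
  sub : ball b ρ ⊆ HP
  y1 : ∀ ζ ∈ ball b ρ, v.y1 ζ ≠ 0
  r : Side v q (fun n => ε n) b ρ m z
  l : Side v q (fun n => ε (-n)) b ρ m' z'
  zero : ∀ ζ ∈ ball b ρ, (z 1 ζ - z 0 ζ) + (z' 1 ζ - z 0 ζ) =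
    2 * v.y1 ζ * v.y1' ζ * ((z 1 ζ - z 0 ζ) * (z' 1 ζ - z 0 ζ))
  iff : m = q ↔ m' = q
  close : m = q → ∀ ζ ∈ ball b ρ, z q ζ = z 0 ζ ∧ z (q - 1) ζ = z' 1 ζ

/-- the conserved product of one side -/
def Pr (ε : ℕ → ℂ) (z : ℕ → ℂ → ℂ) (m : ℕ) (ζ : ℂ) : ℂ :=
  (∏ n ∈ Finset.range m, (z (n + 1) ζ - z n ζ)) *
    ∏ n ∈ Finset.Ico 1 m, ((ε n - z n ζ) ^ 2)⁻¹

/-- a function which is algebraic over `ℂ(F)` on `B` -/
def AlgOn (B : Set ℂ) (F f : ℂ → ℂ) : Prop :=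
  ∃ P : Polynomial (Polynomial ℂ), P ≠ 0 ∧ ∀ z ∈ B, P.evalEval (F z) (f z) = 0

/-- the strip below the boundary of the half plane -/
def Sd (δ : ℝ) : Set ℂ := {z | 1 / 2 - δ < z.im ∧ z.im < 1 / 2}

end Pool.Agent.MP_ae5b4e_an_NB4C
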