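import Pool.Agent.Lib.MP_ae5b4e_an_NB4C.Defs
import Pool.Agent.Lib.MP_ae5b4e_an_NB2.Sys

/-!
# MP_ae5b4e_an, project NB_4, part C, section 4: scaled windows and frames (definitions)

Text /team-store/POR_NB4_RAT_h34.md, section 4.  The window at the base point `b` with the parameter
`μ`, `μ² = ± DS b`, is the system in the coordinate `ζ`, `z = b + μ² ζ`; the sign is that of `Im b`, so
that the window at a deep point is nearly the half plane `Im ζ < 1 / 2`.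
-/

noncomputable section

namespace Pool.Agent.MP_ae5b4e_an_NB4C

open Complex Set Filter Topology Metric
open Pool.Agent.MP_ae5b4e_an_NBT (St)
open Pool.Agent.MP_ae5b4e_an_NB2 (Sys)
open Pool.Agent.MP_ae5b4e_an_NB4 (wdg uu uu' DS)

/-- the change of coordinate `z = b + μ² ζ` -/
def scl (Y : Sys) (b μ : ℂ) : Sys where
  Q ζ := μ ^ 4 * Y.Q (b + μ ^ 2 * ζ)
  y1 ζ := μ⁻¹ * Y.y1 (b + μ ^ 2 * ζ)
  y1' ζ := μ * Y.y1' (b + μ ^ 2 * ζ)
  y2 ζ := μ⁻¹ * Y.y2 (b + μ ^ 2 * ζ)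
  y2' ζ := μ * Y.y2' (b + μ ^ 2 * ζ)

/-- the system in the basis of its values at `0` -/
def nrm (Z : Sys) : Sys where
  Q := Z.Q
  y1 ζ := Z.c ζ 0
  y1' ζ := Z.cd ζ 0
  y2 ζ := Z.s ζ 0
  y2' ζ := Z.sd ζ 0

/-- coordinates of a vector in the frame `(uu Z 0, uu' Z 0)` -/
def fr (Z : Sys) (p : ℂ × ℂ) : ℂ × ℂ := (wdg p (uu' Z 0), wdg (uu Z 0) p)

/-- `μ² = σ DS b`, where `σ = ± 1` is the sign of `Im b` -/
structure Dir (h : ℝ) (b μ : ℂ) : Prop where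
  mem : b ∈ St (-h) h
  sq : ∃ σ : ℝ, σ ^ 2 = 1 ∧ σ * b.im = |b.im| ∧ μ ^ 2 = ((σ * DS h b : ℝ) : ℂ)

/-- continuous convergence of systems on the limit half plane -/
structure Cvg (vs : ℕ → Sys) (v : Sys) : Prop where
  on : v.On HP
  cv : ∀ (l : Filter ℕ), l ≤ atTop → ∀ (ζs : ℕ → ℂ) (ζ : ℂ), ζ ∈ HP → Tendsto ζs l (𝓝 ζ) →
    Tendsto (fun k => uu (vs k) (ζs k)) l (𝓝 (uu v ζ)) ∧
    Tendsto (fun k => uu' (vs k) (ζs k)) l (𝓝 (uu' v ζ))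

end Pool.Agent.MP_ae5b4e_an_NB4C
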