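import Pool.Agent.Lib.MP_ae5b4e_an_NB4C.LDefs

/-!
# MP_ae5b4e_an, NB_4 part C, module LSep: the chain cannot collapse
-/

noncomputable section

namespace Pool.Agent.MP_ae5b4e_an_NB4C

open Complex Set Filter Topology Metric
open Pool.Agent.MP_ae5b4e_an_NB4 (wdg)

/-- finitely many non-zero vectors: a unimodular coordinate with no point at infinity.  Take
`w = (1, s)`, `w' = (0, -1)`; `wdg p (1, s) = p.1 * s - p.2` is zero for at most one `s`. -/
theorem exists_coord (T : Set (ℂ × ℂ)) (hT : T.Finite) (h0 : ∀ p ∈ T, p ≠ 0) :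
    ∃ w w' : ℂ × ℂ, wdg w w' = -1 ∧ ∀ p ∈ T, wdg p w ≠ 0 := by
  have hbad : (⋃ p ∈ T, {s : ℂ | p.1 * s = p.2}).Finite := by
    refine hT.biUnion fun p hp => Set.Subsingleton.finite ?_
    intro s hs t ht
    have hs' : p.1 * s = p.2 := hs
    have ht' : p.1 * t = p.2 := ht
    have h1 : p.1 ≠ 0 := by
      intro h1
      rw [h1, zero_mul] at hs'
      exact h0 p hp (Prod.ext h1 hs'.symm)
    exact mul_left_cancel₀ h1 (hs'.trans ht'.symm)
  obtain ⟨s, hs⟩ := hbad.exists_notMem
  refine ⟨(1, s), (0, -1), by simp [wdg], fun p hp h => hs ?_⟩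
  refine mem_biUnion hp ?_
  simp only [wdg] at h
  show p.1 * s = p.2
  linear_combination h

private theorem wdg_tendsto {l : Filter ℕ} {a b : ℕ → ℂ × ℂ} {a₀ b₀ : ℂ × ℂ}
    (ha : Tendsto a l (𝓝 a₀)) (hb : Tendsto b l (𝓝 b₀)) :
    Tendsto (fun k => wdg (a k) (b k)) l (𝓝 (wdg a₀ b₀)) := by
  unfold wdg
  have h1 := (continuous_fst.tendsto a₀).comp ha
  have h2 := (continuous_snd.tendsto a₀).comp ha
  have h3 := (continuous_fst.tendsto b₀).comp hb
  have h4 := (continuous_snd.tendsto b₀).comp hb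
  exact (h1.mul h4).sub (h2.mul h3)

/-- the affine coordinate -/
private def af (w w' p : ℂ × ℂ) : ℂ := wdg w' p / wdg p w

private theorem af_sub {w w' p r : ℂ × ℂ} (hw : wdg w w' = -1) (hp : wdg p w ≠ 0)
    (hr : wdg r w ≠ 0) : af w w' p - af w w' r = wdg r p / (wdg p w * wdg r w) := by
  unfold af
  rw [div_sub_div _ _ hp hr]
  congr 1
  unfold wdg at *
  linear_combination (r.2 * p.1 - r.1 * p.2) * hw

/-- (4.3)(e).  If all positions `X n`, `0 ≤ n ≤ q`, converge to one point and the companions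
`W n`, `1 ≤ n < q`, converge to other points, then in an affine coordinate (`exists_coord`;
`x n = wdg w' (X n) / wdg (X n) w`, so that `x m - x n = ± wdg (X n) (X m) / (wdg (X n) w wdg (X m) w)`
by the Pluecker relation) the steps `δ n = x (n + 1) - x n` satisfy
`δ (n - 1) - δ n = 2 δ n δ (n - 1) / (y n - x n)` with `δ n → 0` and `y n - x n` bounded away from
`0`: `δ n / δ (n - 1) → 1`, so `δ n / δ 0 → 1` for `n < q`.  But the sum of `δ n`, `n < q`, is `0`. -/
theorem sep_limit {l : Filter ℕ} [l.NeBot] {q : ℕ} (hq : 1 ≤ q) {X W : ℕ → ℕ → ℂ × ℂ}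
    {Xl Wl : ℕ → ℂ × ℂ} (hX : ∀ n, Tendsto (fun k => X k n) l (𝓝 (Xl n)))
    (hW : ∀ n, Tendsto (fun k => W k n) l (𝓝 (Wl n))) (per : ∀ k, wdg (X k q) (X k 0) = 0)
    (node : ∀ k n, 1 ≤ n → n < q → wdg (X k (n + 1)) (W k n) * wdg (X k n) (X k (n - 1)) +
      wdg (X k (n - 1)) (W k n) * wdg (X k n) (X k (n + 1)) = 0)
    (side : ∀ k n, n < q → wdg (X k n) (X k (n + 1)) ≠ 0)
    (par : ∀ n ≤ q, wdg (Xl n) (Xl 0) = 0) (ne : ∀ n ≤ q, Xl n ≠ 0)
    (tr : ∀ n, 1 ≤ n → n < q → wdg (Wl n) (Xl n) ≠ 0) : False := by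
  have hWne : ∀ n, 1 ≤ n → n < q → Wl n ≠ 0 := by
    intro n h1 h2 h
    apply tr n h1 h2
    rw [h]
    simp [wdg]
  obtain ⟨w, w', hww, hT⟩ := exists_coord (Xl '' (Iic q) ∪ Wl '' (Ico 1 q))
    (((finite_Iic q).image _).union ((finite_Ico 1 q).image _)) (by
      rintro p (⟨n, hn, rfl⟩ | ⟨n, hn, rfl⟩)
      · exact ne n hn
      · exact hWne n hn.1 hn.2)
  have hXw : ∀ n ≤ q, wdg (Xl n) w ≠ 0 := fun n hn => hT _ (Or.inl ⟨n, hn, rfl⟩)
  have hWw : ∀ n, 1 ≤ n → n < q → wdg (Wl n) w ≠ 0 :=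
    fun n h1 h2 => hT _ (Or.inr ⟨n, ⟨h1, h2⟩, rfl⟩)
  have hXe : ∀ n ≤ q, ∀ᶠ k in l, wdg (X k n) w ≠ 0 := fun n hn =>
    (wdg_tendsto (hX n) tendsto_const_nhds).eventually_ne (hXw n hn)
  have hWe : ∀ n, 1 ≤ n → n < q → ∀ᶠ k in l, wdg (W k n) w ≠ 0 := fun n h1 h2 =>
    (wdg_tendsto (hW n) tendsto_const_nhds).eventually_ne (hWw n h1 h2)
  set x : ℕ → ℕ → ℂ := fun n k => af w w' (X k n) with hx
  set y : ℕ → ℕ → ℂ := fun n k => af w w' (W k n) with hy
  have hxl : ∀ n ≤ q, Tendsto (x n) l (𝓝 (af w w' (Xl n))) := by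
    intro n hn
    exact (wdg_tendsto tendsto_const_nhds (hX n)).div (wdg_tendsto (hX n) tendsto_const_nhds)
      (hXw n hn)
  have hyl : ∀ n, 1 ≤ n → n < q → Tendsto (y n) l (𝓝 (af w w' (Wl n))) := by
    intro n h1 h2
    exact (wdg_tendsto tendsto_const_nhds (hW n)).div (wdg_tendsto (hW n) tendsto_const_nhds)
      (hWw n h1 h2)
  have hxeq : ∀ n ≤ q, af w w' (Xl n) = af w w' (Xl 0) := by
    intro n hn
    have h := af_sub hww (hXw 0 (Nat.zero_le _)) (hXw n hn)
    rw [par n hn, zero_div, sub_eq_zero] at h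
    exact h.symm
  set δ : ℕ → ℕ → ℂ := fun n k => x (n + 1) k - x n k with hδ
  have hδ0 : ∀ n < q, Tendsto (δ n) l (𝓝 0) := by
    intro n hn
    have h := (hxl (n + 1) hn).sub (hxl n hn.le)
    rw [hxeq (n + 1) hn, hxeq n hn.le, sub_self] at h
    exact h
  have hδne : ∀ n < q, ∀ᶠ k in l, δ n k ≠ 0 := by
    intro n hn
    filter_upwards [hXe n hn.le, hXe (n + 1) hn] with k h1 h2
    have h := af_sub hww h2 h1
    show af w w' (X k (n + 1)) - af w w' (X k n) ≠ 0
    rw [h]
    exact div_ne_zero (side k n hn) (mul_ne_zero h2 h1)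
  -- one step
  have hstep : ∀ n, 1 ≤ n → n < q → Tendsto (fun k => δ n k / δ (n - 1) k) l (𝓝 1) := by
    intro n h1 h2
    have hD : Tendsto (fun k => y n k - x n k) l (𝓝 (af w w' (Wl n) - af w w' (Xl n))) :=
      (hyl n h1 h2).sub (hxl n h2.le)
    have hD0 : af w w' (Wl n) - af w w' (Xl n) ≠ 0 := by
      rw [af_sub hww (hWw n h1 h2) (hXw n h2.le)]
      refine div_ne_zero ?_ (mul_ne_zero (hWw n h1 h2) (hXw n h2.le))
      intro h
      apply tr n h1 h2
      unfold wdg at h ⊢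
      linear_combination (-1 : ℂ) * h
    have h3 : n - 1 < q := by omega
    have hlim : Tendsto (fun k => 1 + 2 * δ (n - 1) k / (y n k - x n k)) l (𝓝 1) := by
      have := (((hδ0 (n - 1) h3).const_mul 2).div hD hD0).const_add 1
      simpa using this
    have hlim2 := hlim.inv₀ one_ne_zero
    rw [inv_one] at hlim2
    refine hlim2.congr' ?_
    have e1 : n - 1 + 1 = n := by omega
    filter_upwards [hXe n h2.le, hXe (n + 1) h2, hXe (n - 1) h3.le, hWe n h1 h2, hδne n h2,
      hδne (n - 1) h3, hD.eventually_ne hD0] with k a1 a2 a3 a4 a5 a6 a7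
    have n1 := node k n h1 h2
    have s1 := af_sub hww a4 a2
    have s2 := af_sub hww a3 a1
    have s3 := af_sub hww a4 a3
    have s4 := af_sub hww a2 a1
    have n2 : (y n k - x (n + 1) k) * (x (n - 1) k - x n k) +
        (y n k - x (n - 1) k) * (x (n + 1) k - x n k) = 0 := by
      show (af w w' (W k n) - af w w' (X k (n + 1))) * (af w w' (X k (n - 1)) - af w w' (X k n)) +
        (af w w' (W k n) - af w w' (X k (n - 1))) * (af w w' (X k (n + 1)) - af w w' (X k n)) = 0
      rw [s1, s2, s3, s4]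
      have : wdg (X k (n + 1)) (W k n) / (wdg (W k n) w * wdg (X k (n + 1)) w) *
          (wdg (X k n) (X k (n - 1)) / (wdg (X k (n - 1)) w * wdg (X k n) w)) +
          wdg (X k (n - 1)) (W k n) / (wdg (W k n) w * wdg (X k (n - 1)) w) *
          (wdg (X k n) (X k (n + 1)) / (wdg (X k (n + 1)) w * wdg (X k n) w)) =
          (wdg (X k (n + 1)) (W k n) * wdg (X k n) (X k (n - 1)) +
            wdg (X k (n - 1)) (W k n) * wdg (X k n) (X k (n + 1))) /
          (wdg (W k n) w * wdg (X k (n + 1)) w * wdg (X k (n - 1)) w * wdg (X k n) w) := by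
        field_simp
      rw [this, n1, zero_div]
    have n3 : (y n k - x n k) * (δ (n - 1) k - δ n k) = 2 * δ n k * δ (n - 1) k := by
      simp only [hδ, e1]
      linear_combination (-1 : ℂ) * n2
    have n4 : 1 + 2 * δ (n - 1) k / (y n k - x n k) ≠ 0 := by
      intro h
      have : δ n k * (1 + 2 * δ (n - 1) k / (y n k - x n k)) = δ (n - 1) k := by
        field_simp
        linear_combination (-1 : ℂ) * n3
      rw [h, mul_zero] at this
      exact a6 this.symm
    rw [eq_div_iff a6, inv_mul_eq_iff_eq_mul₀ n4]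
    field_simp
    linear_combination n3
  have hall : ∀ n < q, Tendsto (fun k => δ n k / δ 0 k) l (𝓝 1) := by
    intro n
    induction n with
    | zero =>
      intro h
      refine tendsto_const_nhds.congr' ?_
      filter_upwards [hδne 0 h] with k hk
      exact (div_self hk).symm
    | succ n ih =>
      intro h
      have h1 := (hstep (n + 1) (by omega) h).mul (ih (by omega))
      rw [one_mul] at h1
      refine h1.congr' ?_
      filter_upwards [hδne n (by omega)] with k hk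
      simp only [Nat.add_sub_cancel]
      exact div_mul_div_cancel₀ hk
  have hsum : Tendsto (fun k => ∑ n ∈ Finset.range q, δ n k / δ 0 k) l
      (𝓝 (∑ _n ∈ Finset.range q, (1 : ℂ))) := by
    refine tendsto_finsetSum _ fun n hn => hall n (Finset.mem_range.1 hn)
  have hsum0 : Tendsto (fun k => ∑ n ∈ Finset.range q, δ n k / δ 0 k) l (𝓝 0) := by
    refine tendsto_const_nhds.congr' ?_
    filter_upwards [hXe q le_rfl, hXe 0 (Nat.zero_le _)] with k h1 h2
    rw [← Finset.sum_div]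
    have h3 : ∑ n ∈ Finset.range q, δ n k = x q k - x 0 k :=
      Finset.sum_range_sub (fun n => x n k) q
    have h4 : x q k - x 0 k = 0 := by
      show af w w' (X k q) - af w w' (X k 0) = 0
      rw [af_sub hww h1 h2]
      have : wdg (X k 0) (X k q) = 0 := by
        have := per k
        unfold wdg at this ⊢
        linear_combination (-1 : ℂ) * this
      rw [this, zero_div]
    rw [h3, h4, zero_div]
  have hq0 := tendsto_nhds_unique hsum hsum0
  rw [Finset.sum_const, Finset.card_range, nsmul_eq_mul, mul_one] at hq0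
  have : q = 0 := by exact_mod_cast hq0
  omega

end Pool.Agent.MP_ae5b4e_an_NB4C
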