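import Pool.Agent.Lib.MP_ae5b4e_an_NB4C.LDefs

/-!
# MP_ae5b4e_an, NB_4 part C, module LSys: scaled systems and frames (algebra)
-/

noncomputable section

namespace Pool.Agent.MP_ae5b4e_an_NB4C

open Complex Set Filter Topology Metric
open Pool.Agent.MP_ae5b4e_an_NB2 (Sys)
open Pool.Agent.MP_ae5b4e_an_NB4 (wdg uu uu')

variable {Y Z : Sys} {S : Set ℂ} {b μ ζ a : ℂ} {p r : ℂ × ℂ}

private theorem lsys_aff (b μ ζ : ℂ) : HasDerivAt (fun ζ => b + μ ^ 2 * ζ) (μ ^ 2) ζ := by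
  have h1 := ((hasDerivAt_id ζ).const_mul (μ ^ 2)).const_add b
  rw [mul_one] at h1
  exact h1

/-- chain rule: `d/dζ (b + μ² ζ) = μ²` -/
theorem scl_on (hY : Y.On S) (hμ : μ ≠ 0) : (scl Y b μ).On {ζ | b + μ ^ 2 * ζ ∈ S} := by
  refine ⟨?_, ?_, ?_, ?_, ?_⟩
  · intro z hz
    have h1 := ((hY.d1 _ hz).comp z (lsys_aff b μ z)).const_mul μ⁻¹
    refine h1.congr_deriv ?_
    show μ⁻¹ * (Y.y1' (b + μ ^ 2 * z) * μ ^ 2) = μ * Y.y1' (b + μ ^ 2 * z)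
    field_simp
  · intro z hz
    have h1 := ((hY.d1' _ hz).comp z (lsys_aff b μ z)).const_mul μ
    refine h1.congr_deriv ?_
    show μ * (-(Y.Q (b + μ ^ 2 * z) * Y.y1 (b + μ ^ 2 * z)) * μ ^ 2) =
      -(μ ^ 4 * Y.Q (b + μ ^ 2 * z) * (μ⁻¹ * Y.y1 (b + μ ^ 2 * z)))
    field_simp
  · intro z hz
    have h1 := ((hY.d2 _ hz).comp z (lsys_aff b μ z)).const_mul μ⁻¹
    refine h1.congr_deriv ?_
    show μ⁻¹ * (Y.y2' (b + μ ^ 2 * z) * μ ^ 2) = μ * Y.y2' (b + μ ^ 2 * z)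
    field_simp
  · intro z hz
    have h1 := ((hY.d2' _ hz).comp z (lsys_aff b μ z)).const_mul μ
    refine h1.congr_deriv ?_
    show μ * (-(Y.Q (b + μ ^ 2 * z) * Y.y2 (b + μ ^ 2 * z)) * μ ^ 2) =
      -(μ ^ 4 * Y.Q (b + μ ^ 2 * z) * (μ⁻¹ * Y.y2 (b + μ ^ 2 * z)))
    field_simp
  · intro z hz
    have h1 := hY.wr _ hz
    show μ⁻¹ * Y.y1 (b + μ ^ 2 * z) * (μ * Y.y2' (b + μ ^ 2 * z)) -
      μ * Y.y1' (b + μ ^ 2 * z) * (μ⁻¹ * Y.y2 (b + μ ^ 2 * z)) = 1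
    have h2 : μ⁻¹ * μ = 1 := inv_mul_cancel₀ hμ
    linear_combination (μ⁻¹ * μ) * h1 + h2

theorem uu_scl (ζ : ℂ) : uu (scl Y b μ) ζ = μ⁻¹ • uu Y (b + μ ^ 2 * ζ) := by
  rfl

theorem uu'_scl (ζ : ℂ) : uu' (scl Y b μ) ζ = μ • uu' Y (b + μ ^ 2 * ζ) := by
  rfl

theorem s_scl (a ζ : ℂ) : (scl Y b μ).s a ζ = (μ⁻¹) ^ 2 * Y.s (b + μ ^ 2 * a) (b + μ ^ 2 * ζ) := by
  simp only [Sys.s, scl]
  ring

/-- `Sys.hasDerivAt_c`, `Sys.hasDerivAt_cd`, `Sys.hasDerivAt_s`, `Sys.hasDerivAt_sd`, `Sys.wr_s` -/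
theorem nrm_on (hZ : Z.On S) (h0 : (0:ℂ) ∈ S) : (nrm Z).On S :=
  ⟨fun _ hz => Sys.hasDerivAt_c hZ hz, fun _ hz => Sys.hasDerivAt_cd hZ hz,
    fun _ hz => Sys.hasDerivAt_s hZ hz, fun _ hz => Sys.hasDerivAt_sd hZ hz,
    fun _ hz => Sys.wr_s hZ h0 hz⟩

theorem nrm_zero (hZ : Z.On S) (h0 : (0:ℂ) ∈ S) : (nrm Z).y1 0 = 1 ∧ (nrm Z).y1' 0 = 0 ∧
    (nrm Z).y2 0 = 0 ∧ (nrm Z).y2' 0 = 1 :=
  ⟨Sys.c_self hZ h0, Sys.cd_self, Sys.s_self, Sys.sd_self hZ h0⟩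

/-- the kernel does not change: `s = wdg (uu ζ) (uu a)` and `fr` has determinant one -/
theorem nrm_s (hZ : Z.On S) (h0 : (0:ℂ) ∈ S) (a ζ : ℂ) : (nrm Z).s a ζ = Z.s a ζ :=
  (Sys.s_eq (u := a) (v := ζ) hZ h0).symm

theorem fr_uu (ζ : ℂ) : fr Z (uu Z ζ) = uu (nrm Z) ζ := by
  refine Prod.ext ?_ ?_
  · show Z.y1 ζ * Z.y2' 0 - Z.y2 ζ * Z.y1' 0 = Z.y2' 0 * Z.y1 ζ - Z.y1' 0 * Z.y2 ζ
    ring
  · rfl

theorem fr_uu' (ζ : ℂ) : fr Z (uu' Z ζ) = uu' (nrm Z) ζ := by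
  refine Prod.ext ?_ ?_
  · show Z.y1' ζ * Z.y2' 0 - Z.y2' ζ * Z.y1' 0 = Z.y2' 0 * Z.y1' ζ - Z.y1' 0 * Z.y2' ζ
    ring
  · rfl

/-- `fr` has determinant one -/
theorem wdg_fr (hZ : Z.On S) (h0 : (0:ℂ) ∈ S) (p r : ℂ × ℂ) : wdg (fr Z p) (fr Z r) = wdg p r := by
  have h1 := hZ.wr 0 h0
  simp only [fr, wdg, uu, uu']
  linear_combination (p.1 * r.2 - p.2 * r.1) * h1

theorem fr_smul (a : ℂ) (p : ℂ × ℂ) : fr Z (a • p) = a • fr Z p := by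
  simp only [fr, wdg, uu, uu', Prod.smul_fst, Prod.smul_snd, smul_eq_mul, Prod.smul_mk,
    Prod.mk.injEq]
  constructor <;> ring

theorem fr_ne (hZ : Z.On S) (h0 : (0:ℂ) ∈ S) (hp : p ≠ 0) : fr Z p ≠ 0 := by
  intro h
  apply hp
  have h1 := hZ.wr 0 h0
  simp only [fr, wdg, uu, uu', Prod.mk_eq_zero] at h
  obtain ⟨h2, h3⟩ := h
  ext
  · show p.1 = 0
    linear_combination (-p.1) * h1 + Z.y1 0 * h2 + Z.y1' 0 * h3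
  · show p.2 = 0
    linear_combination (-p.2) * h1 + Z.y2 0 * h2 + Z.y2' 0 * h3

theorem uu_ne (hZ : Z.On S) (hζ : ζ ∈ S) : uu Z ζ ≠ 0 ∧ uu' Z ζ ≠ 0 := by
  have h1 := hZ.wr ζ hζ
  constructor
  · intro h
    simp only [uu, Prod.mk_eq_zero] at h
    rw [h.1, h.2] at h1
    simp at h1
  · intro h
    simp only [uu', Prod.mk_eq_zero] at h
    rw [h.1, h.2] at h1
    simp at h1

/-- the values at `ζ` in the frame at `0` -/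
theorem uu_frame (hZ : Z.On S) (h0 : (0:ℂ) ∈ S) (ζ : ℂ) :
    uu Z ζ = (nrm Z).y1 ζ • uu Z 0 + (nrm Z).y2 ζ • uu' Z 0 ∧
    uu' Z ζ = (nrm Z).y1' ζ • uu Z 0 + (nrm Z).y2' ζ • uu' Z 0 := by
  have h1 := hZ.wr 0 h0
  simp only [uu, uu', nrm, Sys.c, Sys.s, Sys.cd, Sys.sd, Prod.smul_mk, smul_eq_mul,
    Prod.mk_add_mk, Prod.mk.injEq]
  refine ⟨⟨?_, ?_⟩, ?_, ?_⟩
  · linear_combination (-Z.y1 ζ) * h1
  · linear_combination (-Z.y2 ζ) * h1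
  · linear_combination (-Z.y1' ζ) * h1
  · linear_combination (-Z.y2' ζ) * h1

theorem fr_add (p r : ℂ × ℂ) : fr Z (p + r) = fr Z p + fr Z r := by
  simp only [fr, wdg, uu, uu', Prod.fst_add, Prod.snd_add, Prod.mk_add_mk, Prod.mk.injEq]
  constructor <;> ring

end Pool.Agent.MP_ae5b4e_an_NB4C
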